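import Pool.Agent.Lib.MP_33b3f9_ag.M4.FP.Defs
import Pool.Agent.Lib.MP_33b3f9_ag.M4.ThAct2

/-!
The action of the real symplectic group on the Siegel space.
-/

set_option autoImplicit false

namespace M4.FP

open Matrix Filter Topology

variable {ι : Type} [Fintype ι] [DecidableEq ι]

theorem sim_of_mem {g : Matrix (ι ⊕ ι) (ι ⊕ ι) ℝ} (hg : g ∈ symplecticGroup ι ℝ) : Sim g 1 := by
  rw [sim_iff, one_smul]
  exact SymplecticGroup.mem_iff'.1 hg

theorem den_unit {g : Matrix (ι ⊕ ι) (ι ⊕ ι) ℝ} (hg : g ∈ symplecticGroup ι ℝ) {τ : Matrix ι ι ℂ}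
    (hτ : InH τ) :
    IsUnit (g.toBlocks₁₁.map Complex.ofReal - g.toBlocks₁₂.map Complex.ofReal * τ).det :=
  (den_det_ne_zero (sim_of_mem hg) one_pos hτ).isUnit

theorem inH_act {g : Matrix (ι ⊕ ι) (ι ⊕ ι) ℝ} (hg : g ∈ symplecticGroup ι ℝ) {τ : Matrix ι ι ℂ}
    (hτ : InH τ) : InH (act g τ) :=
  M4.inH_act (sim_of_mem hg) one_pos hτ

theorem cst_act {g : Matrix (ι ⊕ ι) (ι ⊕ ι) ℝ} (hg : g ∈ symplecticGroup ι ℝ) {τ : Matrix ι ι ℂ}
    (hτ : InH τ) : cst (act g τ) * g = g * cst τ :=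
  M4.cst_act (sim_of_mem hg) one_pos hτ

theorem cst_inj {τ τ' : Matrix ι ι ℂ} (hτ : InH τ) (hτ' : InH τ') (h : cst τ = cst τ') :
    τ = τ' := by
  obtain ⟨h1, h2, -, -⟩ := fromBlocks_inj.1 h
  have hd : IsUnit (τ.map Complex.im).det := hτ.2.det_pos.ne'.isUnit
  have h3 := Matrix.inv_inj h2 hd
  have h4 : τ.map Complex.re = τ'.map Complex.re := by
    rw [← h2] at h1
    have h5 := congrArg (τ.map Complex.im * ·) h1
    simpa only [mul_nonsing_inv_cancel_left _ _ hd] using h5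
  ext i j
  exact Complex.ext (congrFun (congrFun h4 i) j) (congrFun (congrFun h3 i) j)

theorem act_one (τ : Matrix ι ι ℂ) : act 1 τ = τ :=
  M4.act_one τ

theorem act_mul {g h : Matrix (ι ⊕ ι) (ι ⊕ ι) ℝ} (hg : g ∈ symplecticGroup ι ℝ)
    (hh : h ∈ symplecticGroup ι ℝ) {τ : Matrix ι ι ℂ} (hτ : InH τ) :
    act (g * h) τ = act g (act h τ) :=
  M4.act_mul (den_det_ne_zero (sim_of_mem hh) one_pos hτ)
    (den_det_ne_zero (sim_of_mem hg) one_pos (inH_act hh hτ))

theorem cm_mem (R : Type) [CommRing R] (g : symplecticGroup ι ℤ) :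
    cm R g ∈ symplecticGroup ι R := by
  exact SymplecticGroup.map_mem g.2 (Int.castRingHom R)

theorem cm_mul (R : Type) [CommRing R] (g h : symplecticGroup ι ℤ) :
    cm R (g * h) = cm R g * cm R h := by
  exact Matrix.map_mul (f := Int.castRingHom R)

theorem cm_one (R : Type) [CommRing R] : cm R (1 : symplecticGroup ι ℤ) = 1 := by
  exact Matrix.map_one _ Int.cast_zero Int.cast_one

theorem cm_map {R S : Type} [CommRing R] [CommRing S] (f : R →+* S) (g : symplecticGroup ι ℤ) :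
    (cm R g).map f = cm S g := by
  ext i j
  exact map_intCast f _

theorem inH_az (g : symplecticGroup ι ℤ) {τ : Matrix ι ι ℂ} (hτ : InH τ) : InH (az g τ) :=
  inH_act (cm_mem ℝ g) hτ

theorem az_one (τ : Matrix ι ι ℂ) : az 1 τ = τ := by
  rw [az, cm_one, act_one]

theorem az_mul (g h : symplecticGroup ι ℤ) {τ : Matrix ι ι ℂ} (hτ : InH τ) :
    az (g * h) τ = az g (az h τ) := by
  rw [az, cm_mul, act_mul (cm_mem ℝ g) (cm_mem ℝ h) hτ, az, az]

theorem sg_inv {R : Type} [NontriviallyNormedField R] [CompleteSpace R] {A : Matrix ι ι R}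
    (h : IsUnit A.det) : ContinuousAt Inv.inv A := by
  obtain ⟨u, hu⟩ := h
  exact continuousAt_matrix_inv A (hu ▸ NormedRing.inverse_continuousAt u)

theorem continuousAt_act {g : Matrix (ι ⊕ ι) (ι ⊕ ι) ℝ} (hg : g ∈ symplecticGroup ι ℝ)
    {τ : Matrix ι ι ℂ} (hτ : InH τ) : ContinuousAt (act g) τ := by
  have h1 : Continuous fun τ : Matrix ι ι ℂ =>
      g.toBlocks₁₁.map Complex.ofReal - g.toBlocks₁₂.map Complex.ofReal * τ := by fun_prop
  have h2 : Continuous fun τ : Matrix ι ι ℂ =>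
      g.toBlocks₂₂.map Complex.ofReal * τ - g.toBlocks₂₁.map Complex.ofReal := by fun_prop
  exact h2.continuousAt.mul
    (ContinuousAt.comp (f := fun τ : Matrix ι ι ℂ => g.toBlocks₁₁.map Complex.ofReal -
      g.toBlocks₁₂.map Complex.ofReal * τ) (sg_inv (den_unit hg hτ)) h1.continuousAt)

theorem continuousAt_cst {τ : Matrix ι ι ℂ} (hτ : InH τ) :
    ContinuousAt (cst : Matrix ι ι ℂ → _) τ := by
  have h1 : Continuous fun τ : Matrix ι ι ℂ => τ.map Complex.im :=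
    continuous_id.matrix_map Complex.continuous_im
  have h2 : Continuous fun τ : Matrix ι ι ℂ => τ.map Complex.re :=
    continuous_id.matrix_map Complex.continuous_re
  have h3 : ContinuousAt (fun τ : Matrix ι ι ℂ => (τ.map Complex.im)⁻¹) τ :=
    ContinuousAt.comp (f := fun τ : Matrix ι ι ℂ => τ.map Complex.im)
      (sg_inv hτ.2.det_pos.ne'.isUnit) h1.continuousAt
  have h4 : Continuous fun x : Matrix ι ι ℝ × Matrix ι ι ℝ × Matrix ι ι ℝ =>
      fromBlocks (x.2.2 * x.1) x.2.2 (-(x.2.1 + x.1 * x.2.2 * x.1)) (-(x.1 * x.2.2)) :=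
    Continuous.matrix_fromBlocks (by fun_prop) (by fun_prop) (by fun_prop) (by fun_prop)
  exact ContinuousAt.comp (f := fun τ : Matrix ι ι ℂ =>
    (τ.map Complex.re, τ.map Complex.im, (τ.map Complex.im)⁻¹)) h4.continuousAt
    (h2.continuousAt.prodMk (h1.continuousAt.prodMk h3))

theorem holOn_act {W : Type} [NormedAddCommGroup W] [NormedSpace ℂ W]
    {g : Matrix (ι ⊕ ι) (ι ⊕ ι) ℝ} (hg : g ∈ symplecticGroup ι ℝ) {σ : W → Matrix ι ι ℂ}
    {s : Set W} (hσ : HolOn σ s) (hH : ∀ w ∈ s, InH (σ w)) : HolOn (fun w => act g (σ w)) s := by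
  have h1 : DifferentiableOn ℂ (fun w i j => σ w i j) s :=
    differentiableOn_pi.2 fun i => differentiableOn_pi.2 fun j => hσ i j
  have h2 := (differentiableOn_act g).comp h1 fun w hw =>
    den_det_ne_zero (sim_of_mem hg) one_pos (hH w hw)
  exact fun i j => differentiableOn_pi.1 (differentiableOn_pi.1 h2 i) j

theorem HolOn.continuousOn {W m n : Type} [NormedAddCommGroup W] [NormedSpace ℂ W]
    {σ : W → Matrix m n ℂ} {s : Set W} (hσ : HolOn σ s) : ContinuousOn σ s := by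
  exact continuousOn_pi.2 fun i => continuousOn_pi.2 fun j => (hσ i j).continuousOn

/-- `g = fromBlocks A 0 (D X) D` with `Aᵀ A = Y`, `D = A⁻¹ᵀ`. -/
theorem exists_act_I {τ : Matrix ι ι ℂ} (hτ : InH τ) :
    ∃ g ∈ symplecticGroup ι ℝ, act g τ = Complex.I • (1 : Matrix ι ι ℂ) := by
  obtain ⟨X, hX⟩ : ∃ X, X = τ.map Complex.re := ⟨_, rfl⟩
  obtain ⟨Y, hY⟩ : ∃ Y, Y = τ.map Complex.im := ⟨_, rfl⟩
  have hXs : Xᵀ = X := by rw [hX, ← transpose_map, hτ.1.eq]
  have hP : Y.PosDef := hY ▸ hτ.2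
  obtain ⟨A, hA⟩ : ∃ A : Matrix ι ι ℝ, Y = Aᵀ * A := by
    open scoped MatrixOrder in
    obtain ⟨A, hA⟩ := CStarAlgebra.nonneg_iff_eq_star_mul_self.mp hP.posSemidef.nonneg
    exact ⟨A, by rw [hA, star_eq_conjTranspose, conjTranspose_eq_transpose_of_trivial]⟩
  have hd : IsUnit A.det := by
    have h := hP.det_pos.ne'
    rw [hA, det_mul] at h
    exact (right_ne_zero_of_mul h).isUnit
  obtain ⟨D, h1, h2⟩ : ∃ D : Matrix ι ι ℝ, Aᵀ * D = 1 ∧ Dᵀ * A = 1 :=
    ⟨A⁻¹ᵀ, by rw [← transpose_mul, nonsing_inv_mul _ hd, transpose_one],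
      by rw [transpose_transpose, nonsing_inv_mul _ hd]⟩
  refine ⟨fromBlocks A 0 (D * X) D, ?_, ?_⟩
  · rw [SymplecticGroup.mem_iff', J, fromBlocks_transpose, fromBlocks_multiply,
      fromBlocks_multiply]
    simp [hXs, h1, h2, Matrix.mul_assoc, ← Matrix.mul_assoc Aᵀ]
  · have h3 : D * Y = A := by rw [hA, ← Matrix.mul_assoc, mul_eq_one_comm.1 h1, Matrix.one_mul]
    have h4 : τ = X.map Complex.ofReal + Complex.I • Y.map Complex.ofReal := by
      ext i j
      simp [hX, hY, mul_comm Complex.I]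
    have h5 : ∀ M N : Matrix ι ι ℝ, (M * N).map Complex.ofReal =
        M.map Complex.ofReal * N.map Complex.ofReal := fun M N =>
      Matrix.map_mul (f := Complex.ofRealHom)
    have h6 : IsUnit (A.map Complex.ofReal).det := by
      have h := hd.map Complex.ofRealHom
      rwa [RingHom.map_det] at h
    rw [act, toBlocks_fromBlocks₁₁, toBlocks_fromBlocks₁₂, toBlocks_fromBlocks₂₁,
      toBlocks_fromBlocks₂₂, Matrix.map_zero _ Complex.ofReal_zero, Matrix.zero_mul, sub_zero, h4,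
      Matrix.mul_add, h5, add_sub_cancel_left, Matrix.mul_smul, ← h5, h3, Matrix.smul_mul,
      mul_nonsing_inv _ h6]

end M4.FP
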