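import Pool.Agent.Lib.MP_33b3f9_ag.M4.FP.Irr
import Pool.Agent.Lib.MP_33b3f9_ag.M4.FP.Sg

/-!
The stabiliser of a generic point consists of scalars.
-/

set_option autoImplicit false

namespace M4.FP

open Matrix

variable {ι : Type} [Fintype ι] [DecidableEq ι]

open Pool.Agent.Lib.MP_33b3f9_ag in
theorem stab_eval {ν Ω : Type} [Fintype ν] [Field Ω] [Algebra ℚ Ω] (g : Matrix ν ν ℚ)
    (y : Matrix ν ν Ω) (p : ν × ν) :
    evalM y (∑ k, (MvPolynomial.X (p.1, k) * MvPolynomial.C (g k p.2) -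
      MvPolynomial.C (g p.1 k) * MvPolynomial.X (k, p.2))) =
      (y * g.map (algebraMap ℚ Ω) - g.map (algebraMap ℚ Ω) * y) p.1 p.2 := by
  simp [evalM, Matrix.mul_apply]

/-- The entries of `x g - g x` are equations of an algebraic subgroup (the centraliser of `g`)
that contains all `p + q I`. -/
theorem Generic.comm {I : Matrix (ι ⊕ ι) (ι ⊕ ι) ℝ} (hI : Generic I)
    {g : Matrix (ι ⊕ ι) (ι ⊕ ι) ℚ} (h : I * g.map (algebraMap ℚ ℝ) = g.map (algebraMap ℚ ℝ) * I)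
    {x : Matrix (ι ⊕ ι) (ι ⊕ ι) ℚ} (hx : x ∈ symplecticGroup ι ℚ) : x * g = g * x := by
  let P : (ι ⊕ ι) × (ι ⊕ ι) → MvPolynomial ((ι ⊕ ι) × (ι ⊕ ι)) ℚ := fun p =>
    ∑ k, (MvPolynomial.X (p.1, k) * MvPolynomial.C (g k p.2) -
      MvPolynomial.C (g p.1 k) * MvPolynomial.X (k, p.2))
  have key : ∀ (Ω : Type) [Field Ω] [Algebra ℚ Ω] (y : Matrix (ι ⊕ ι) (ι ⊕ ι) Ω),
      (∀ Q ∈ Set.range P, Pool.Agent.Lib.MP_33b3f9_ag.evalM y Q = 0) ↔
        Commute y (g.map (algebraMap ℚ Ω)) := fun Ω _ _ y => by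
    rw [Set.forall_mem_range, Commute, SemiconjBy, ← sub_eq_zero, ← Matrix.ext_iff, Prod.forall]
    exact forall₂_congr fun a b => by rw [stab_eval g y (a, b), Matrix.zero_apply]
  have h1 := (key ℚ x).1 fun Q hQ => hI x hx Q ⟨Set.range P, ⟨?_, fun u v _ => (key ℝ _).2 ?_⟩, hQ⟩
  · simpa using h1.eq
  · exact ⟨⟨⟨⟨{y | Commute y.val (g.map (algebraMap ℚ (AlgebraicClosure ℚ)))},
      fun ha hb => Commute.mul_left ha hb⟩, Commute.one_left _⟩,
      fun ha => Commute.units_inv_left ha⟩, Set.ext fun y => (key _ y.val).symm⟩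
  · exact ((Commute.one_left _).smul_left u).add_left (Commute.smul_left h v)

/-- A matrix that commutes with all `Nv v` maps every `v` to a multiple of `v`. -/
theorem scalar_of_comm {g : Matrix (ι ⊕ ι) (ι ⊕ ι) ℚ}
    (h : ∀ v : ι ⊕ ι → ℚ, Nv v * g = g * Nv v) : ∃ c : ℚ, g = c • 1 := by
  obtain ⟨c, hc⟩ := LinearMap.exists_eq_smul_id_of_forall_notLinearIndependent
    (f := Matrix.toLin' g) fun v hv => by
      have h1 := congrArg (fun M => M *ᵥ (J ι ℚ *ᵥ v)) (h v)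
      simp only [Nv, ← Matrix.mulVec_mulVec, vecMulVec_mulVec, op_smul_eq_smul,
        Matrix.mulVec_smul] at h1
      rw [Matrix.mulVec_mulVec v (J ι ℚ) (J ι ℚ), J_squared, Matrix.neg_mulVec, Matrix.one_mulVec,
        dotProduct_neg] at h1
      have h2 := (LinearIndependent.pair_iff.1 hv (v ⬝ᵥ J ι ℚ *ᵥ g *ᵥ J ι ℚ *ᵥ v) (v ⬝ᵥ v) (by
        rw [h1, Matrix.toLin'_apply, neg_smul, neg_add_cancel])).2
      exact hv.ne_zero 0 (dotProduct_self_eq_zero.1 h2)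
  refine ⟨c, Matrix.toLin'.injective ?_⟩
  rw [hc, map_smul, Matrix.toLin'_one]
  rfl

/-- `M4.cst_act`, `Generic.comm` with `tv_mem`, `scalar_of_comm`. -/
theorem stab {τ : Matrix ι ι ℂ} (hτ : InH τ) (hg : Generic (cst τ))
    {g : Matrix (ι ⊕ ι) (ι ⊕ ι) ℤ} {m : ℝ} (hm : 0 < m) (hs : Sim (g.map (Int.cast : ℤ → ℝ)) m)
    (h : act (g.map (Int.cast : ℤ → ℝ)) τ = τ) : ∃ c : ℤ, g = c • 1 := by
  have h1 := M4.cst_act hs hm hτ
  have h2 : (g.map (Int.cast : ℤ → ℚ)).map (algebraMap ℚ ℝ) = g.map (Int.cast : ℤ → ℝ) := by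
    ext i j
    simp
  rw [h, ← h2] at h1
  obtain ⟨c, hc⟩ := scalar_of_comm (g := g.map (Int.cast : ℤ → ℚ)) fun v => by
    simpa [Matrix.add_mul, Matrix.mul_add] using hg.comm h1 (tv_mem v 1)
  have h3 : ∀ i j, (g i j : ℚ) = if i = j then c else 0 := fun i j => by
    simpa [Matrix.one_apply] using congrFun (congrFun hc i) j
  rcases isEmpty_or_nonempty (ι ⊕ ι) with h0 | ⟨⟨k⟩⟩
  · exact ⟨0, Subsingleton.elim _ _⟩
  · refine ⟨g k k, Matrix.ext fun i j => Int.cast_injective (α := ℚ) ?_⟩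
    rw [h3 i j]
    simp [Matrix.one_apply, h3 k k]

end M4.FP
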