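import Pool.Agent.Lib.MP_33b3f9_ag.M4.FP.MJet

/-!
Transvections; irreducibility of the adjoint representation.
-/

set_option autoImplicit false

namespace M4.FP

open Matrix

variable {ι : Type} [Fintype ι] [DecidableEq ι]

section ring

variable {R : Type} [CommRing R]

theorem irr_skew (u w : ι ⊕ ι → R) : u ⬝ᵥ J ι R *ᵥ w = -(w ⬝ᵥ J ι R *ᵥ u) := by
  rw [dotProduct_mulVec, ← mulVec_transpose, J_transpose, neg_mulVec, neg_dotProduct,
    dotProduct_comm]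

theorem irr_alt (v : ι ⊕ ι → R) : v ⬝ᵥ J ι R *ᵥ v = 0 := by
  conv_lhs => rw [← Sum.elim_comp_inl_inr v, J, fromBlocks_mulVec, sumElim_dotProduct_sumElim]
  simp [neg_mulVec, dotProduct_comm]

theorem irr_mul (v : ι ⊕ ι → R) (X : Matrix (ι ⊕ ι) (ι ⊕ ι) R) :
    Nv v * X * Nv v = (v ⬝ᵥ (J ι R * X) *ᵥ v) • Nv v := by
  rw [Nv, Matrix.mul_assoc (vecMulVec v v), ← Matrix.mul_assoc, Matrix.mul_assoc (vecMulVec v v),
    mul_vecMulVec, vecMulVec_mul_vecMulVec, vecMulVec_smul, Matrix.smul_mul]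

theorem irr_form (u w : ι ⊕ ι → R) :
    u ⬝ᵥ (J ι R * Nv w) *ᵥ u = -((u ⬝ᵥ J ι R *ᵥ w) * (u ⬝ᵥ J ι R *ᵥ w)) := by
  rw [Nv, ← mulVec_mulVec, ← mulVec_mulVec, vecMulVec_mulVec, op_smul_eq_smul, mulVec_smul,
    dotProduct_smul, irr_skew w u, smul_eq_mul, neg_mul]

theorem Nv_mul_Nv (v : ι ⊕ ι → R) : Nv v * Nv v = 0 := by
  have h := irr_mul v 1
  rwa [Matrix.mul_one, Matrix.mul_one, irr_alt, zero_smul] at h

theorem inSp_Nv (v : ι ⊕ ι → R) : InSp (Nv v) := by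
  rw [InSp, Nv, transpose_mul, transpose_vecMulVec, J_transpose, Matrix.neg_mul, Matrix.neg_mul,
    Matrix.mul_assoc, neg_add_cancel]

theorem tv_mem (v : ι ⊕ ι → R) (c : R) : 1 + c • Nv v ∈ symplecticGroup ι R := by
  have h : (Nv v)ᵀ * J ι R = -(J ι R * Nv v) := eq_neg_of_add_eq_zero_left (inSp_Nv v)
  rw [SymplecticGroup.mem_iff', transpose_add, transpose_one, transpose_smul, Matrix.add_mul,
    Matrix.one_mul, Matrix.smul_mul, h, Matrix.mul_add, Matrix.mul_one, Matrix.mul_smul,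
    Matrix.add_mul, Matrix.smul_mul, Matrix.neg_mul, Matrix.mul_assoc, Nv_mul_Nv]
  simp

theorem Nv_mul_mul (v : ι ⊕ ι → R) (X : Matrix (ι ⊕ ι) (ι ⊕ ι) R) :
    Nv v * X * Nv v = (v ⬝ᵥ (J ι R * X) *ᵥ v) • Nv v := by
  exact irr_mul v X

theorem Nv_map {S : Type} [CommRing S] (f : R →+* S) (v : ι ⊕ ι → R) :
    (Nv v).map f = Nv (fun i => f (v i)) := by
  rw [Nv, Nv, Matrix.map_mul, map_J]
  congr 1
  ext i j
  simp [vecMulVec_apply]

theorem InSp.conj {g g' X : Matrix (ι ⊕ ι) (ι ⊕ ι) R} (hX : InSp X)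
    (hg : g ∈ symplecticGroup ι R) (h : g * g' = 1) : InSp (g * X * g') := by
  have h0 := SymplecticGroup.mem_iff'.1 hg
  have h1 : gᵀ * J ι R = J ι R * g' := by
    conv_rhs => rw [← h0, Matrix.mul_assoc, h, Matrix.mul_one]
  have h2 : J ι R * g = g'ᵀ * J ι R := by
    conv_rhs => rw [← h0, ← Matrix.mul_assoc, ← Matrix.mul_assoc, ← transpose_mul, h,
      transpose_one, Matrix.one_mul]
  have h3 : (g * X * g')ᵀ * J ι R + J ι R * (g * X * g') =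
      g'ᵀ * (Xᵀ * J ι R + J ι R * X) * g' := by
    rw [transpose_mul, transpose_mul, Matrix.mul_assoc, Matrix.mul_assoc, h1,
      ← Matrix.mul_assoc (J ι R), ← Matrix.mul_assoc (J ι R), h2]
    simp only [Matrix.mul_add, Matrix.add_mul, Matrix.mul_assoc]
  rw [InSp, h3, hX, Matrix.mul_zero, Matrix.zero_mul]

end ring

/-- `T X T⁻¹ + T⁻¹ X T - 2 X = -2 N X N`. -/
theorem irr (k : Submodule ℂ (Matrix (ι ⊕ ι) (ι ⊕ ι) ℂ))
    (hk : ∀ (v : ι ⊕ ι → ℚ) (c : ℚ), ∀ X ∈ k,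
      (1 + (c : ℂ) • Nv (fun i => (v i : ℂ))) * X * (1 + (-c : ℂ) • Nv (fun i => (v i : ℂ))) ∈ k)
    {X : Matrix (ι ⊕ ι) (ι ⊕ ι) ℂ} (hX : X ∈ k) (hs : InSp X) (h0 : X ≠ 0) (v : ι ⊕ ι → ℚ) :
    Nv (fun i => (v i : ℂ)) ∈ k := by
  have key : ∀ (w : ι ⊕ ι → ℚ), ∀ Y ∈ k,
      (fun i => (w i : ℂ)) ⬝ᵥ (J ι ℂ * Y) *ᵥ (fun i => (w i : ℂ)) ≠ 0 →
        Nv (fun i => (w i : ℂ)) ∈ k := by
    intro w Y hY hne
    have h1 := hk w 1 Y hY
    have h2 := hk w (-1) Y hY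
    have h3 := k.sub_mem (k.smul_mem 2 hY) (k.add_mem h1 h2)
    have h4 := Nv_mul_mul (fun i => (w i : ℂ)) Y
    generalize Nv (fun i => (w i : ℂ)) = N at *
    have h5 : (2 : ℂ) • Y - ((1 + ((1 : ℚ) : ℂ) • N) * Y * (1 + (-((1 : ℚ) : ℂ)) • N) +
        (1 + ((-1 : ℚ) : ℂ) • N) * Y * (1 + (-((-1 : ℚ) : ℂ)) • N)) = (2 : ℂ) • (N * Y * N) := by
      simp only [Rat.cast_one, Rat.cast_neg, neg_neg, one_smul, neg_smul, two_smul]
      noncomm_ring
    rw [h5, h4, smul_smul] at h3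
    exact (k.smul_mem_iff (mul_ne_zero two_ne_zero hne)).1 h3
  have step : ∀ u w : ι ⊕ ι → ℚ, Nv (fun i => (w i : ℂ)) ∈ k →
      (fun i => (u i : ℂ)) ⬝ᵥ J ι ℂ *ᵥ (fun i => (w i : ℂ)) ≠ 0 → Nv (fun i => (u i : ℂ)) ∈ k := by
    intro u w hw hne
    refine key u _ hw ?_
    rw [irr_form]
    exact neg_ne_zero.2 (mul_ne_zero hne hne)
  have sg : ∀ i : ι ⊕ ι, (fun j => ((Pi.single i 1 : ι ⊕ ι → ℚ) j : ℂ)) = Pi.single i 1 := by
    intro i
    funext j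
    by_cases hj : j = i <;> simp [hj]
  have ad : ∀ u w : ι ⊕ ι → ℚ, (fun j => ((u + w) j : ℂ)) =
      (fun j => (u j : ℂ)) + fun j => (w j : ℂ) := by
    intro u w
    funext j
    simp
  have nd : ∀ w : ι ⊕ ι → ℂ, w ≠ 0 →
      ∃ u : ι ⊕ ι → ℚ, (fun i => (u i : ℂ)) ⬝ᵥ J ι ℂ *ᵥ w ≠ 0 := by
    intro w hw
    by_contra! hc
    have h1 : J ι ℂ *ᵥ w = 0 := by
      funext i
      have := hc (Pi.single i 1)
      rwa [sg, single_one_dotProduct] at this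
    have h2 := congrArg (fun z => J ι ℂ *ᵥ z) h1
    simp only [mulVec_mulVec, J_squared, neg_mulVec, one_mulVec, mulVec_zero, neg_eq_zero] at h2
    exact hw h2
  obtain ⟨w, hw⟩ : ∃ w : ι ⊕ ι → ℚ,
      (fun i => (w i : ℂ)) ⬝ᵥ (J ι ℂ * X) *ᵥ (fun i => (w i : ℂ)) ≠ 0 := by
    by_contra! hc
    have hsym : (J ι ℂ * X)ᵀ = J ι ℂ * X := by
      rw [transpose_mul, J_transpose, Matrix.mul_neg]
      exact neg_eq_of_add_eq_zero_right hs
    have hz : J ι ℂ * X = 0 := by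
      generalize J ι ℂ * X = S at hc hsym
      have hd : ∀ i, S i i = 0 := fun i => by
        have := hc (Pi.single i 1)
        rwa [sg, single_one_dotProduct, mulVec_single_one] at this
      ext i j
      have h1 := hc (Pi.single i 1 + Pi.single j 1)
      rw [ad, sg, sg] at h1
      simp only [add_dotProduct, mulVec_add, single_one_dotProduct, mulVec_single_one,
        Pi.add_apply, col_apply, hd] at h1
      have h2 : S j i = S i j := congrFun (congrFun hsym i) j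
      rw [Matrix.zero_apply]
      linear_combination (h1 - h2) / 2
    have h2 := congrArg (fun Z => J ι ℂ * Z) hz
    simp only [← Matrix.mul_assoc, J_squared, Matrix.neg_mul, Matrix.one_mul, Matrix.mul_zero,
      neg_eq_zero] at h2
    exact h0 h2
  have hwk := key w X hX hw
  have hw0 : (fun i => (w i : ℂ)) ≠ 0 := fun e => hw (by rw [e, zero_dotProduct])
  by_cases hv0 : (fun i => (v i : ℂ)) = 0
  · rw [hv0, Nv, zero_vecMulVec, Matrix.zero_mul]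
    exact k.zero_mem
  obtain ⟨a, ha⟩ := nd _ hw0
  obtain ⟨b, hb⟩ := nd _ hv0
  have fin : ∀ u : ι ⊕ ι → ℚ, (fun i => (u i : ℂ)) ⬝ᵥ J ι ℂ *ᵥ (fun i => (w i : ℂ)) ≠ 0 →
      (fun i => (u i : ℂ)) ⬝ᵥ J ι ℂ *ᵥ (fun i => (v i : ℂ)) ≠ 0 → Nv (fun i => (v i : ℂ)) ∈ k :=
    fun u h1 h2 => step v u (step u w hwk h1) (by rw [irr_skew]; exact neg_ne_zero.2 h2)
  by_cases h1 : (fun i => (a i : ℂ)) ⬝ᵥ J ι ℂ *ᵥ (fun i => (v i : ℂ)) = 0
  · by_cases h2 : (fun i => (b i : ℂ)) ⬝ᵥ J ι ℂ *ᵥ (fun i => (w i : ℂ)) = 0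
    · refine fin (a + b) ?_ ?_
      · rwa [ad, add_dotProduct, h2, add_zero]
      · rwa [ad, add_dotProduct, h1, zero_add]
    · exact fin b h2 hb
  · exact fin a ha h1

variable {κ : Type} [Fintype κ] [DecidableEq κ]

/-- `r ↦ K (1 + r N) t` has derivative zero everywhere. -/
theorem K_tv_fix {ν : Type} [Fintype ν] [DecidableEq ν] {N : Matrix ν ν ℂ} (hN : N * N = 0)
    {t : (κ → ν) → ℂ} (ht : dK κ N *ᵥ t = 0) (c : ℝ) : K κ (1 + (c : ℂ) • N) *ᵥ t = t := by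
  funext a
  have hd : ∀ r : ℝ, HasDerivAt (fun s : ℝ => (K κ (1 + (s : ℂ) • N) *ᵥ t) a) 0 r := by
    intro r
    have hj : MJet (fun s : ℝ => 1 + ((r + s : ℝ) : ℂ) • N) (1 + (r : ℂ) • N) N 0 := by
      intro i j
      refine (Jet.poly _ _ _).congr (Filter.Eventually.of_forall fun s => ?_)
      simp only [Matrix.add_apply, Matrix.smul_apply, Matrix.zero_apply, smul_eq_mul,
        Complex.real_smul, mul_zero, add_zero]
      push_cast
      ring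
    have hA : (1 + (r : ℂ) • N) * (1 - (r : ℂ) • N) = 1 := by
      simp [Matrix.add_mul, Matrix.mul_sub, hN]
    have hB : (1 - (r : ℂ) • N) * N = N := by simp [Matrix.sub_mul, hN]
    have h1 := MJet.K_deriv (κ := κ) hj hA (t := t) (by rwa [hB]) a
    rw [← sub_self r] at h1
    simpa using h1.comp_sub_const r r
  have h := is_const_of_deriv_eq_zero (fun r => (hd r).differentiableAt) (fun r => (hd r).deriv) c 0
  simpa [K_one] using h

/-- Rational transvections fix a space of tensors that is stable under the rational symplectic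
group and killed by a nonzero element of the Lie algebra. -/
theorem tv_fix (V : Submodule ℂ ((κ → ι ⊕ ι) → ℂ))
    (hV : ∀ g ∈ symplecticGroup ι ℚ, ∀ t ∈ V, K κ (g.map (algebraMap ℚ ℂ)) *ᵥ t ∈ V)
    {X : Matrix (ι ⊕ ι) (ι ⊕ ι) ℂ} (hs : InSp X) (h0 : X ≠ 0) (hX : ∀ t ∈ V, dK κ X *ᵥ t = 0)
    (v : ι ⊕ ι → ℚ) (c : ℚ) : ∀ t ∈ V, K κ ((1 + c • Nv v).map (algebraMap ℚ ℂ)) *ᵥ t = t := by
  have hm : ∀ (w : ι ⊕ ι → ℚ) (d : ℚ), (1 + d • Nv w).map (algebraMap ℚ ℂ) =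
      1 + (d : ℂ) • Nv (fun i => (w i : ℂ)) := by
    intro w d
    have h := Nv_map (algebraMap ℚ ℂ) w
    simp only [eq_ratCast] at h
    rw [← h]
    ext i j
    by_cases hij : i = j <;> simp [hij]
  let k : Submodule ℂ (Matrix (ι ⊕ ι) (ι ⊕ ι) ℂ) :=
    { carrier := {Y | ∀ t ∈ V, dK κ Y *ᵥ t = 0}
      zero_mem' := fun t _ => by rw [dK_zero, zero_mulVec]
      add_mem' := fun {Y Z} hY hZ t ht => by rw [dK_add, add_mulVec, hY t ht, hZ t ht, add_zero]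
      smul_mem' := fun d Y hY t ht => by rw [dK_smul, smul_mulVec, hY t ht, smul_zero] }
  have hv : Nv (fun i => (v i : ℂ)) ∈ k := by
    refine irr k (fun w d Y hY t ht => ?_) hX hs h0 v
    have h1 : (1 + (d : ℂ) • Nv (fun i => (w i : ℂ))) * (1 + (-d : ℂ) • Nv (fun i => (w i : ℂ))) =
        1 := by
      simp [Matrix.add_mul, Matrix.mul_add, Nv_mul_Nv]
    have h2 := hV _ (tv_mem w (-d)) t ht
    rw [hm, Rat.cast_neg] at h2
    rw [dK_conj h1, ← mulVec_mulVec, ← mulVec_mulVec, hY _ h2, mulVec_zero]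
  intro t ht
  have h := K_tv_fix (Nv_mul_Nv _) (hv t ht) (c : ℝ)
  rwa [Complex.ofReal_ratCast, ← hm] at h

end M4.FP
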