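import Pool.Agent.Lib.MP_33b3f9_ag.M4.FP.Bas
import Pool.Agent.Lib.MP_33b3f9_ag.M4.FP.Irr

/-!
From transvections to the span of the adjoint action.
-/

set_option autoImplicit false

namespace M4.FP

open Matrix

variable {ι : Type} [Fintype ι] [DecidableEq ι] {G : Subgroup (symplecticGroup ι ℤ)}

/-- The action of an endomorphism of the tensor square on matrices. -/
def spanAct {ν : Type} [Fintype ν] (M : Matrix (Fin 2 → ν) (Fin 2 → ν) ℚ) (S : Matrix ν ν ℚ) :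
    Matrix ν ν ℚ := Matrix.of fun i j => ∑ b, M ![i, j] b * S (b 0) (b 1)

section act

variable {ν : Type} [Fintype ν] [DecidableEq ν]

omit [DecidableEq ν] in
theorem span_act_add (M M' : Matrix (Fin 2 → ν) (Fin 2 → ν) ℚ) (S : Matrix ν ν ℚ) :
    spanAct (M + M') S = spanAct M S + spanAct M' S := by
  ext i j
  simp [spanAct, add_mul, Finset.sum_add_distrib]

omit [DecidableEq ν] in
theorem span_act_smul (c : ℚ) (M : Matrix (Fin 2 → ν) (Fin 2 → ν) ℚ) (S : Matrix ν ν ℚ) :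
    spanAct (c • M) S = c • spanAct M S := by
  ext i j
  simp [spanAct, Finset.mul_sum, mul_assoc]

omit [DecidableEq ν] in
theorem span_act_K (g S : Matrix ν ν ℚ) : spanAct (K (Fin 2) g) S = g * S * gᵀ := by
  ext i j
  rw [spanAct, of_apply, ← (finTwoArrowEquiv ν).symm.sum_comp, Fintype.sum_prod_type,
    Finset.sum_comm]
  simp only [Matrix.mul_apply, Finset.sum_mul, transpose_apply]
  refine Finset.sum_congr rfl fun a _ => Finset.sum_congr rfl fun b _ => ?_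
  simp [K, Kf, Fin.prod_univ_two]
  ring

omit [Fintype ν] [DecidableEq ν] in
theorem span_K_smul (c : ℚ) (g : Matrix ν ν ℚ) : K (Fin 2) (c • g) = c ^ 2 • K (Fin 2) g := by
  ext a b
  simp [K, Kf, Fin.prod_univ_two]
  ring

omit [Fintype ν] in
theorem span_K_pol (N : Matrix ν ν ℚ) : K (Fin 2) N = (2 : ℚ)⁻¹ •
    (K (Fin 2) (1 + (1 : ℚ) • N) + K (Fin 2) (1 + (-1 : ℚ) • N) - (2 : ℚ) • K (Fin 2) 1) := by
  ext a b
  simp only [K, Kf, Fin.prod_univ_two, of_apply, Matrix.smul_apply, Matrix.sub_apply,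
    Matrix.add_apply, smul_eq_mul]
  ring

end act

theorem span_exists {v w : ι ⊕ ι → ℚ} (hv : v ≠ 0) (hw : w ≠ 0) :
    ∃ u, v ⬝ᵥ J ι ℚ *ᵥ u ≠ 0 ∧ u ⬝ᵥ J ι ℚ *ᵥ w ≠ 0 := by
  have h1 : v ⬝ᵥ J ι ℚ *ᵥ (J ι ℚ *ᵥ v) ≠ 0 := by
    rw [mulVec_mulVec, J_squared, neg_mulVec, one_mulVec, dotProduct_neg, neg_ne_zero]
    exact fun h => hv (dotProduct_self_eq_zero.1 h)
  have h2 : (J ι ℚ *ᵥ w) ⬝ᵥ J ι ℚ *ᵥ w ≠ 0 := fun h => by
    have h3 := congrArg (J ι ℚ *ᵥ ·) (dotProduct_self_eq_zero.1 h)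
    simp only [mulVec_mulVec, J_squared, neg_mulVec, one_mulVec, mulVec_zero, neg_eq_zero] at h3
    exact hw h3
  by_cases h4 : (J ι ℚ *ᵥ v) ⬝ᵥ J ι ℚ *ᵥ w = 0
  · by_cases h5 : v ⬝ᵥ J ι ℚ *ᵥ (J ι ℚ *ᵥ w) = 0
    · refine ⟨J ι ℚ *ᵥ v + J ι ℚ *ᵥ w, ?_, ?_⟩
      · rwa [mulVec_add, dotProduct_add, h5, add_zero]
      · rwa [add_dotProduct, h4, zero_add]
    · exact ⟨_, h5, h2⟩
  · exact ⟨_, h1, h4⟩

theorem span_mul (a b c d : ι ⊕ ι → ℚ) : vecMulVec a b * J ι ℚ * (vecMulVec c d * J ι ℚ) =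
    (b ⬝ᵥ J ι ℚ *ᵥ c) • (vecMulVec a d * J ι ℚ) := by
  rw [← Matrix.mul_assoc, Matrix.mul_assoc (vecMulVec a b), mul_vecMulVec, vecMulVec_mul_vecMulVec,
    vecMulVec_smul, smul_mul_assoc]

theorem span_rank (h : ∀ (v : ι ⊕ ι → ℚ) (c : ℚ), K (Fin 2) (1 + c • Nv v) ∈ Aspan ℚ G)
    (v w : ι ⊕ ι → ℚ) : K (Fin 2) (vecMulVec v w * J ι ℚ) ∈ Aspan ℚ G := by
  have hN : ∀ v : ι ⊕ ι → ℚ, K (Fin 2) (Nv v) ∈ Aspan ℚ G := fun v => by
    rw [span_K_pol, K_one]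
    exact Submodule.smul_mem _ _ (sub_mem (add_mem (h v 1) (h v (-1)))
      (Submodule.smul_mem _ _ (one_mem_Aspan ℚ)))
  have h0 : K (Fin 2) (0 : Matrix (ι ⊕ ι) (ι ⊕ ι) ℚ) ∈ Aspan ℚ G := by
    rw [← zero_smul ℚ (0 : Matrix (ι ⊕ ι) (ι ⊕ ι) ℚ), span_K_smul]
    simp
  by_cases hv : v = 0
  · rwa [hv, zero_vecMulVec, Matrix.zero_mul]
  by_cases hw : w = 0
  · rwa [hw, vecMulVec_zero, Matrix.zero_mul]
  obtain ⟨u, h1, h2⟩ := span_exists hv hw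
  have h3 := mul_mem_Aspan (mul_mem_Aspan (hN v) (hN u)) (hN w)
  rw [← K_mul, ← K_mul, Nv, Nv, Nv, span_mul, smul_mul_assoc, span_mul, smul_smul,
    span_K_smul] at h3
  exact (Submodule.smul_mem_iff _ (pow_ne_zero 2 (mul_ne_zero h1 h2))).1 h3

theorem span_den {M : Matrix (Fin 2 → ι ⊕ ι) (Fin 2 → ι ⊕ ι) ℚ} (hM : M ∈ Aspan ℚ G) :
    ∃ c : ℤ, c ≠ 0 ∧ ∀ L : AddSubgroup (Matrix (ι ⊕ ι) (ι ⊕ ι) ℤ),
      (∀ g ∈ G, ∀ X ∈ L, (g : Matrix (ι ⊕ ι) (ι ⊕ ι) ℤ) * X * (g⁻¹ : symplecticGroup ι ℤ) ∈ L) →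
        ∀ X ∈ L, ∃ Y ∈ L, (Int.castRingHom ℚ).mapMatrix Y =
          c • (spanAct M ((Int.castRingHom ℚ).mapMatrix X * J ι ℚ) * J ι ℚ) := by
  induction hM using Submodule.span_induction with
  | mem x hx =>
    obtain ⟨g, hg, rfl⟩ := hx
    refine ⟨-1, by decide, fun L hL X hX => ⟨_, hL g hg X hX, ?_⟩⟩
    have hJ : (Int.castRingHom ℚ).mapMatrix (J ι ℤ) = J ι ℚ := map_J ι (Int.castRingHom ℚ)
    have hg' : (Int.castRingHom ℚ).mapMatrix (g : Matrix (ι ⊕ ι) (ι ⊕ ι) ℤ)ᵀ = (cm ℚ g)ᵀ := rfl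
    have hg'' : (Int.castRingHom ℚ).mapMatrix (g : Matrix (ι ⊕ ι) (ι ⊕ ι) ℤ) = cm ℚ g := rfl
    rw [span_act_K, SymplecticGroup.coe_inv, map_mul, map_mul, map_mul, map_mul, map_neg, hJ, hg',
      hg'']
    simp only [neg_smul, one_smul, Matrix.neg_mul, Matrix.mul_neg, Matrix.mul_assoc]
  | zero =>
    refine ⟨1, one_ne_zero, fun L _ X _ => ⟨0, L.zero_mem, ?_⟩⟩
    rw [← zero_smul ℚ (0 : Matrix (Fin 2 → ι ⊕ ι) (Fin 2 → ι ⊕ ι) ℚ), span_act_smul]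
    simp
  | add x y _ _ hx hy =>
    obtain ⟨c, hc, hx⟩ := hx
    obtain ⟨d, hd, hy⟩ := hy
    refine ⟨c * d, mul_ne_zero hc hd, fun L hL X hX => ?_⟩
    obtain ⟨Y, hY, e⟩ := hx L hL X hX
    obtain ⟨Z, hZ, e'⟩ := hy L hL X hX
    refine ⟨d • Y + c • Z, add_mem (zsmul_mem hY d) (zsmul_mem hZ c), ?_⟩
    rw [map_add, map_zsmul, map_zsmul, e, e', span_act_add, Matrix.add_mul, smul_add, smul_smul,
      smul_smul, mul_comm d]
  | smul q x _ hx =>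
    obtain ⟨c, hc, hx⟩ := hx
    refine ⟨c * q.den, mul_ne_zero hc (Int.natCast_ne_zero.2 q.den_nz), fun L hL X hX => ?_⟩
    obtain ⟨Y, hY, e⟩ := hx L hL X hX
    refine ⟨q.num • Y, zsmul_mem hY _, ?_⟩
    rw [map_zsmul, e, span_act_smul, smul_mul_assoc, smul_smul, ← Int.cast_smul_eq_zsmul ℚ,
      ← Int.cast_smul_eq_zsmul ℚ (c * q.den), smul_smul]
    congr 1
    push_cast
    rw [mul_assoc, Rat.den_mul_eq_num, mul_comm]

/-- `K (1 + N) + K (1 - N) - 2 = 2 K N`; products of three such operators; clear denominators. -/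
theorem spanOK_of_tv (h : ∀ (v : ι ⊕ ι → ℚ) (c : ℚ), K (Fin 2) (1 + c • Nv v) ∈ Aspan ℚ G) :
    SpanOK G := by
  intro v w
  obtain ⟨c, hc, h1⟩ := span_den (span_rank h (fun i => (v i : ℚ)) fun i => (w i : ℚ))
  refine ⟨c, hc, fun L hL X hX => ?_⟩
  obtain ⟨Y, hY, e⟩ := h1 L hL X hX
  have hJ : (Int.castRingHom ℚ).mapMatrix (J ι ℤ) = J ι ℚ := map_J ι (Int.castRingHom ℚ)
  have hd : ((w ⬝ᵥ (J ι ℤ * X) *ᵥ w : ℤ) : ℚ) = (fun i => (w i : ℚ)) ⬝ᵥ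
      (J ι ℚ * (Int.castRingHom ℚ).mapMatrix X) *ᵥ fun i => (w i : ℚ) := by
    rw [← hJ, ← map_mul]
    simp [dotProduct, mulVec]
  have hN : (Int.castRingHom ℚ).mapMatrix (Nv v) = Nv fun i => (v i : ℚ) := Nv_map _ v
  suffices hs : (c * (w ⬝ᵥ (J ι ℤ * X) *ᵥ w)) • Nv v = Y from hs ▸ hY
  refine Matrix.map_injective (f := Int.castRingHom ℚ) Int.cast_injective ?_
  show (Int.castRingHom ℚ).mapMatrix _ = (Int.castRingHom ℚ).mapMatrix Y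
  rw [e, map_zsmul, hN, span_act_K, mul_smul, ← Int.cast_smul_eq_zsmul ℚ (_ ⬝ᵥ _), hd]
  congr 1
  generalize (Int.castRingHom ℚ).mapMatrix X = S
  generalize (fun i => (v i : ℚ)) = a
  generalize (fun i => (w i : ℚ)) = b
  have e1 : vecMulVec a b * J ι ℚ * (S * J ι ℚ) * (vecMulVec a b * J ι ℚ)ᵀ =
      vecMulVec a b * (J ι ℚ * S * -(J ι ℚ * J ι ℚ) * vecMulVec b a) := by
    rw [transpose_mul, J_transpose, transpose_vecMulVec]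
    simp only [Matrix.neg_mul, Matrix.mul_neg, Matrix.mul_assoc]
  rw [e1, J_squared, neg_neg, Matrix.mul_one, mul_vecMulVec, vecMulVec_mul_vecMulVec,
    vecMulVec_smul, smul_mul_assoc, Nv]

end M4.FP
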