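import Pool.Agent.Lib.MP_33b3f9_ag.M4.FP.Gen
import Pool.Agent.Lib.MP_33b3f9_ag.M4.FP.Span

/-!
From fixed tensors to transvections.
-/

set_option autoImplicit false

namespace M4.FP

open Matrix

variable {ι : Type} [Fintype ι] [DecidableEq ι] {G : Subgroup (symplecticGroup ι ℤ)}

/-- What the analytic part gives. -/
def FixOK (G : Subgroup (symplecticGroup ι ℤ)) (I : Matrix (ι ⊕ ι) (ι ⊕ ι) ℝ) : Prop :=
  ∀ (m : ℕ) (χ : symplecticGroup ι ℤ → ℤ), (∀ g ∈ G, χ g = 1 ∨ χ g = -1) →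
    (∀ t ∈ Wsp (Fin m × Fin 2) ℂ G χ, ∀ p q : ℝ, (p, q) ≠ 0 →
      K (Fin m × Fin 2) (hm p q I) *ᵥ t ∈ Wsp (Fin m × Fin 2) ℂ G χ) ∧
    ∃ X : Matrix (ι ⊕ ι) (ι ⊕ ι) ℂ, InSp X ∧ X ≠ 0 ∧
      ∀ t ∈ Wsp (Fin m × Fin 2) ℂ G χ, dK (Fin m × Fin 2) X *ᵥ t = 0

/-- A matrix as a function of pairs of indices. -/
def algUn (α : Type) : Matrix α α ℚ →ₗ[ℚ] (α × α → ℚ) where
  toFun M p := M p.1 p.2
  map_add' _ _ := rfl
  map_smul' _ _ := rfl

theorem algUn_inj (α : Type) : Function.Injective (algUn α) := fun _ _ h =>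
  Matrix.ext fun i j => congrFun h (i, j)

/-- A matrix that fixes all tensors of minors of a basis preserves the span. -/
theorem alg_span {ν : Type} [Fintype ν] [DecidableEq ν] {m : ℕ}
    {A : Fin m → Matrix (Fin 2 → ν) (Fin 2 → ν) ℚ} (hA : LinearIndependent ℚ A)
    {T : Matrix ν ν ℚ} (hT : ∀ c, K (Fin m × Fin 2) T *ᵥ plu A c = plu A c) :
    ∀ x ∈ Submodule.span ℚ (Set.range A), K (Fin 2) T * x ∈ Submodule.span ℚ (Set.range A) := by
  have h1 : ∀ k, K (Fin 2) T * A k ∈ Submodule.span ℚ (Set.range A) := by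
    intro k
    have hA' : LinearIndependent ℚ (algUn (Fin 2 → ν) ∘ A) :=
      hA.map' _ (LinearMap.ker_eq_bot.2 (algUn_inj _))
    have h2 := mem_span_of_minors (B := fun k => algUn (Fin 2 → ν) (K (Fin 2) T * A k)) hA'
      (fun j => by
        have h3 := hT fun l => (j l).2
        rw [K_plu] at h3
        exact congrFun h3 fun q => (j q.1).1 q.2) k
    rw [Set.range_comp, ← Submodule.map_span] at h2
    obtain ⟨y, hy, hy'⟩ := h2
    rw [← algUn_inj _ hy']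
    exact hy
  intro x hx
  induction hx using Submodule.span_induction with
  | mem x hx =>
    obtain ⟨k, rfl⟩ := hx
    exact h1 k
  | zero =>
    rw [Matrix.mul_zero]
    exact Submodule.zero_mem _
  | add x y _ _ hx hy =>
    rw [Matrix.mul_add]
    exact Submodule.add_mem _ hx hy
  | smul a x _ hx =>
    rw [Matrix.mul_smul]
    exact Submodule.smul_mem _ a hx

theorem tv_mem_Aspan {I : Matrix (ι ⊕ ι) (ι ⊕ ι) ℝ} (hI : Generic I) (h : FixOK G I)
    (v : ι ⊕ ι → ℚ) (c : ℚ) : K (Fin 2) (1 + c • Nv v) ∈ Aspan ℚ G := by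
  obtain ⟨m, A, χ, hli, hsp, hχ, hplu⟩ := exists_basis G
  obtain ⟨hst, X, hXs, hX0, hX⟩ := h m χ hχ
  have hfix := tv_fix (Wsp (Fin m × Fin 2) ℂ G χ) (fun g hg => Generic.stable hI hst hg)
    hXs hX0 hX v c
  have hT : ∀ d, K (Fin m × Fin 2) (1 + c • Nv v) *ᵥ plu A d = plu A d := by
    intro d
    have h1 := hfix _ ((Wsp_map ℂ).2 (hplu d))
    rw [K_map] at h1
    funext a
    apply (algebraMap ℚ ℂ).injective
    rw [RingHom.map_mulVec]
    exact congrFun h1 a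
  have h2 := alg_span hli hT 1 (by rw [hsp]; exact one_mem_Aspan ℚ)
  rwa [Matrix.mul_one, hsp] at h2

end M4.FP
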