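import Pool.Agent.Lib.MP_33b3f9_ag.M4.FP.Plu
import Pool.Agent.Lib.MP_33b3f9_ag.M4.FP.Sg

/-!
The algebra spanned by the tensor squares of a group.
-/

set_option autoImplicit false

namespace M4.FP

open Matrix

variable {ι : Type} [Fintype ι] [DecidableEq ι] {G : Subgroup (symplecticGroup ι ℤ)}

/-- The span of the tensor squares of the elements of `G`. -/
def Aspan (R : Type) [CommRing R] (G : Subgroup (symplecticGroup ι ℤ)) :
    Submodule R (Matrix (Fin 2 → ι ⊕ ι) (Fin 2 → ι ⊕ ι) R) :=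
  Submodule.span R ((fun g => K (Fin 2) (cm R g)) '' (G : Set (symplecticGroup ι ℤ)))

theorem bas_mem (R : Type) [CommRing R] {g : symplecticGroup ι ℤ} (hg : g ∈ G) :
    K (Fin 2) (cm R g) ∈ Aspan R G := Submodule.subset_span ⟨g, hg, rfl⟩

theorem one_mem_Aspan (R : Type) [CommRing R] : 1 ∈ Aspan R G := by
  have h := bas_mem R (one_mem G)
  rwa [cm_one, K_one] at h

theorem mul_mem_Aspan {R : Type} [CommRing R] {x y : Matrix (Fin 2 → ι ⊕ ι) (Fin 2 → ι ⊕ ι) R}
    (hx : x ∈ Aspan R G) (hy : y ∈ Aspan R G) : x * y ∈ Aspan R G := by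
  refine Submodule.span_induction₂ (p := fun x y _ _ => x * y ∈ Aspan R G) ?_ ?_ ?_ ?_ ?_ ?_ ?_
    hx hy
  · rintro _ _ ⟨g, hg, rfl⟩ ⟨h, hh, rfl⟩
    beta_reduce
    rw [← K_mul, ← cm_mul]
    exact bas_mem R (mul_mem hg hh)
  · intro y _
    rw [zero_mul]
    exact zero_mem _
  · intro x _
    rw [mul_zero]
    exact zero_mem _
  · intro x y z _ _ _ h1 h2
    rw [add_mul]
    exact add_mem h1 h2
  · intro x y z _ _ _ h1 h2
    rw [mul_add]
    exact add_mem h1 h2
  · intro r x y _ _ h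
    rw [smul_mul_assoc]
    exact Submodule.smul_mem _ r h
  · intro r x y _ _ h
    rw [mul_smul_comm]
    exact Submodule.smul_mem _ r h

/-- Left multiplication on the integral span. -/
def bas_mul {g : symplecticGroup ι ℤ} (hg : g ∈ G) : Aspan ℤ G →ₗ[ℤ] Aspan ℤ G :=
  (LinearMap.mulLeft ℤ (K (Fin 2) (cm ℤ g))).restrict fun _ hx => mul_mem_Aspan (bas_mem ℤ hg) hx

theorem bas_det {g : symplecticGroup ι ℤ} (hg : g ∈ G) :
    LinearMap.det (bas_mul hg) = 1 ∨ LinearMap.det (bas_mul hg) = -1 := by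
  refine Int.eq_one_or_neg_one_of_mul_eq_one (v := LinearMap.det (bas_mul (inv_mem hg))) ?_
  have h : bas_mul hg ∘ₗ bas_mul (inv_mem hg) = LinearMap.id := by
    refine LinearMap.ext fun x => Subtype.ext ?_
    change K (Fin 2) (cm ℤ g) * (K (Fin 2) (cm ℤ g⁻¹) * x.1) = x.1
    rw [← mul_assoc, ← K_mul, ← cm_mul, mul_inv_cancel, cm_one, K_one, one_mul]
  rw [← LinearMap.det_comp, h, LinearMap.det_id]

/-- From integral to rational matrices. -/
def bas_cast {n : Type} : Matrix n n ℤ →ₗ[ℤ] Matrix n n ℚ := (Algebra.linearMap ℤ ℚ).mapMatrix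

theorem bas_cast_eq {n : Type} (x : Matrix n n ℤ) : bas_cast x = x.map (Int.castRingHom ℚ) := rfl

theorem bas_cast_K (g : symplecticGroup ι ℤ) :
    bas_cast (K (Fin 2) (cm ℤ g)) = K (Fin 2) (cm ℚ g) := by
  rw [bas_cast_eq, ← K_map, cm_map]

theorem bas_cast_mem {x : Matrix (Fin 2 → ι ⊕ ι) (Fin 2 → ι ⊕ ι) ℤ} (hx : x ∈ Aspan ℤ G) :
    bas_cast x ∈ Aspan ℚ G := by
  induction hx using Submodule.span_induction with
  | mem x hx =>
    obtain ⟨g, hg, rfl⟩ := hx
    rw [bas_cast_K]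
    exact bas_mem ℚ hg
  | zero => rw [map_zero]; exact zero_mem _
  | add x y _ _ h1 h2 => rw [map_add]; exact add_mem h1 h2
  | smul c x _ h => rw [map_smul]; exact zsmul_mem h c

/-- A basis over `ℤ` of the span; left multiplications have determinant `1` or `-1`. -/
theorem exists_basis (G : Subgroup (symplecticGroup ι ℤ)) :
    ∃ (m : ℕ) (A : Fin m → Matrix (Fin 2 → ι ⊕ ι) (Fin 2 → ι ⊕ ι) ℚ)
      (χ : symplecticGroup ι ℤ → ℤ), LinearIndependent ℚ A ∧
      Submodule.span ℚ (Set.range A) = Aspan ℚ G ∧ (∀ g ∈ G, χ g = 1 ∨ χ g = -1) ∧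
      ∀ c, plu A c ∈ Wsp (Fin m × Fin 2) ℚ G χ := by
  classical
  let b := Module.finBasis ℤ (Aspan ℤ G)
  have hb : ∀ x : Aspan ℤ G, x.1 = ∑ l, b.repr x l • (b l).1 := fun x => by
    conv_lhs => rw [← b.sum_repr x]
    simp only [Submodule.coe_sum, Submodule.coe_smul]
  refine ⟨_, fun k => bas_cast (b k).1,
    fun g => if hg : g ∈ G then LinearMap.det (bas_mul hg) else 1, ?_, ?_, fun g hg => ?_,
    fun c g hg => ?_⟩
  · rw [← LinearIndependent.iff_fractionRing ℤ ℚ]
    refine (b.linearIndependent.map' (Aspan ℤ G).subtype (Submodule.ker_subtype _)).map' bas_cast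
      (LinearMap.ker_eq_bot.2 fun x y h => ?_)
    ext i j
    exact Int.cast_injective (α := ℚ) (congrFun (congrFun h i) j)
  · refine le_antisymm (Submodule.span_le.2 ?_) (Submodule.span_le.2 ?_)
    · rintro _ ⟨k, rfl⟩
      exact bas_cast_mem (b k).2
    · rintro _ ⟨g, hg, rfl⟩
      have h := congrArg bas_cast (hb ⟨_, bas_mem ℤ hg⟩)
      rw [bas_cast_K, map_sum] at h
      beta_reduce
      rw [h]
      refine sum_mem fun l _ => ?_
      rw [map_smul]
      exact zsmul_mem (Submodule.subset_span (Set.mem_range_self l)) _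
  · beta_reduce
    rw [dif_pos hg]
    exact bas_det hg
  · have h : (fun k => K (Fin 2) (cm ℚ g) * bas_cast (b k).1) = fun k =>
        ∑ l, ((LinearMap.toMatrix b b (bas_mul hg))ᵀ.map (Int.castRingHom ℚ)) k l •
          bas_cast (b l).1 := by
      funext k
      have h1 := congrArg bas_cast (hb (bas_mul hg (b k)))
      rw [map_sum] at h1
      rw [← bas_cast_K, bas_cast_eq, bas_cast_eq, ← Matrix.map_mul]
      refine h1.trans (Finset.sum_congr rfl fun l _ => ?_)
      rw [map_smul, map_apply, transpose_apply, LinearMap.toMatrix_apply]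
      exact (Int.cast_smul_eq_zsmul ℚ _ _).symm
    beta_reduce
    rw [K_plu, h, plu_lin, dif_pos hg, ← LinearMap.det_toMatrix b, ← det_transpose
      (LinearMap.toMatrix b b _)]
    congr 1
    exact ((Int.castRingHom ℚ).map_det _).symm

end M4.FP
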