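import Pool.Agent.Lib.MP_33b3f9_ag.M4.FP.Open

/-!
The ideal of the germ is constant on connected sets.
-/

set_option autoImplicit false

namespace M4.FP

open Matrix Filter Topology Metric

variable {ι : Type} [Fintype ι] [DecidableEq ι] {W : Type} [NormedAddCommGroup W]
  [NormedSpace ℂ W] {Γ : Subgroup (symplecticGroup ι ℤ)} {Ω : Set W}
  {Y : Set (W × Matrix ι ι ℂ)} {n : ℕ}

/-- Identity theorem on a ball, along segments. -/
theorem zero_on_ball {f : W → ℂ} {a : W} {r : ℝ} (hf : DifferentiableOn ℂ f (ball a r)) {w : W}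
    (hw : w ∈ ball a r) (h0 : ∀ᶠ z in 𝓝 w, f z = 0) : ∀ z ∈ ball a r, f z = 0 := by
  intro z hz
  let l : ℂ → W := fun t => w + t • (z - w)
  have hl : Differentiable ℂ l := by fun_prop
  have hU : IsOpen (l ⁻¹' ball a r) := isOpen_ball.preimage hl.continuous
  have hc : Convex ℝ (l ⁻¹' ball a r) := by
    intro s hs t ht p q hp hq hpq
    have h1 := convex_ball a r hs ht hp hq hpq
    have h2 : l (p • s + q • t) = p • l s + q • l t := by
      simp only [l, smul_add, add_smul, smul_assoc]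
      rw [add_add_add_comm, ← add_smul, hpq, one_smul]
    show l (p • s + q • t) ∈ ball a r
    rw [h2]
    exact h1
  have ha : AnalyticOnNhd ℂ (fun t => f (l t)) (l ⁻¹' ball a r) :=
    (hf.comp hl.differentiableOn fun t ht => ht).analyticOnNhd hU
  have hl0 : l 0 = w := by simp [l]
  have hl1 : l 1 = z := by simp [l]
  have ht : Tendsto l (𝓝 0) (𝓝 w) := hl0 ▸ hl.continuous.tendsto 0
  have h3 := ha.eqOn_zero_of_preconnected_of_eventuallyEq_zero hc.isPreconnected (z₀ := 0)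
    (by show l 0 ∈ ball a r; rwa [hl0]) (ht.eventually h0)
  have h4 := h3 (show (1 : ℂ) ∈ l ⁻¹' ball a r by show l 1 ∈ ball a r; rwa [hl1])
  simpa [hl1] using h4

theorem HolF.az {F : Matrix ι ι ℂ → ℂ} (hF : HolF W F) (g : symplecticGroup ι ℤ) :
    HolF W (fun τ => F (az g τ)) := by
  intro σ s hs hσ hH
  exact hF (fun w => M4.FP.az g (σ w)) s hs (holOn_act (cm_mem ℝ g) hσ hH)
    fun w hw => inH_az g (hH w hw)

theorem Sheets.van_iff (hS : Sheets Γ Ω Y n) {σ : W → Matrix ι ι ℂ} {w : W} (hw : w ∈ Ω)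
    (hσ : ContinuousAt σ w) (hY : ∀ᶠ z in 𝓝 w, (z, σ z) ∈ Y) (F : Matrix ι ι ℂ → ℂ) :
    Van Y F (w, σ w) ↔ ∀ᶠ z in 𝓝 w, F (σ z) = 0 := by
  have ht : Tendsto (fun z => (z, σ z)) (𝓝 w) (𝓝[Y] (w, σ w)) :=
    tendsto_nhdsWithin_iff.2 ⟨continuousAt_id.prodMk hσ, hY⟩
  refine ⟨fun h => ht.eventually h, fun h => ?_⟩
  obtain ⟨r, hr, -, I, τ, hC⟩ := hS.loc w hw
  obtain ⟨i, hi, g, hg, e⟩ := hC.cover w (mem_ball_self hr) _ hY.self_of_nhds
  have h1 := hS.sheet_open isOpen_ball hC (mem_ball_self hr) hi hg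
  rw [← e] at h1
  have h2 : Tendsto (fun y : W × Matrix ι ι ℂ => y.1) (𝓝[Y] (w, σ w)) (𝓝 w) :=
    (continuous_fst.tendsto _).mono_left nhdsWithin_le_nhds
  filter_upwards [h1, h2.eventually ((ht.eventually h1).and h)] with y h3 h4
  rw [h3, ← h4.1]
  exact h4.2

theorem Sheets.van_az (hS : Sheets Γ Ω Y n) {g : symplecticGroup ι ℤ} (hg : g ∈ Γ)
    {y : W × Matrix ι ι ℂ} (hy : y ∈ Y) {F : Matrix ι ι ℂ → ℂ} (h : Van Y F (y.1, az g y.2)) :
    Van Y (fun τ => F (az g τ)) y := by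
  have hc : ContinuousAt (az g : Matrix ι ι ℂ → Matrix ι ι ℂ) y.2 :=
    continuousAt_act (cm_mem ℝ g) (hS.inH y hy)
  have ht : Tendsto (fun y' : W × Matrix ι ι ℂ => (y'.1, az g y'.2)) (𝓝[Y] y)
      (𝓝[Y] (y.1, az g y.2)) := by
    refine tendsto_nhdsWithin_iff.2 ⟨?_, ?_⟩
    · exact (continuousAt_fst.prodMk (hc.comp continuousAt_snd)).tendsto.mono_left
        nhdsWithin_le_nhds
    · filter_upwards [self_mem_nhdsWithin] with y' hy' using hS.stab g hg y' hy'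
  exact ht.eventually h

theorem Sheets.van_const (hS : Sheets Γ Ω Y n) {F : Matrix ι ι ℂ → ℂ} (hF : HolF W F)
    {C : Set (W × Matrix ι ι ℂ)} (hC : IsPreconnected C) (hs : C ⊆ Y ∩ Prod.fst ⁻¹' Ω)
    {y y' : W × Matrix ι ι ℂ} (hy : y ∈ C) (hy' : y' ∈ C) (h : Van Y F y) : Van Y F y' := by
  refine (hC.induction₂' (fun u v => Van Y F u ↔ Van Y F v) ?_
    (fun _ _ _ _ _ _ h1 h2 => h1.trans h2) hy hy').1 h
  rintro ⟨w, t⟩ hx
  obtain ⟨r, hr, hb, I, σ, hD⟩ := hS.loc w (hs hx).2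
  obtain ⟨i, hi, g, hg, rfl⟩ := hD.cover w (mem_ball_self hr) _ (hs hx).1
  have hH : ∀ z ∈ ball w r, InH (σ i z) := fun z hz => hS.inH _ (hD.mem i hi z hz)
  have hτ : HolOn (fun z => az g (σ i z)) (ball w r) := holOn_act (cm_mem ℝ g) (hD.hol i hi) hH
  have hd := hF _ _ isOpen_ball hτ fun z hz => inH_az g (hH z hz)
  have key : ∀ z ∈ ball w r, Van Y F (z, az g (σ i z)) ↔
      ∀ z' ∈ ball w r, F (az g (σ i z')) = 0 := fun z hz => by
    have hm := isOpen_ball.mem_nhds hz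
    rw [hS.van_iff (σ := fun z => az g (σ i z)) (hb hz) (hτ.continuousOn.continuousAt hm)
      (Filter.mem_of_superset hm fun z' hz' => hS.stab g hg _ (hD.mem i hi z' hz'))]
    exact ⟨zero_on_ball hd hz, fun h1 => Filter.mem_of_superset hm h1⟩
  have h1 := (hS.sheet_open isOpen_ball hD (mem_ball_self hr) hi hg).filter_mono
    (nhdsWithin_mono _ fun u (hu : u ∈ C) => (hs hu).1)
  have h2 : Tendsto (fun u : W × Matrix ι ι ℂ => u.1) (𝓝[C] (w, az g (σ i w))) (𝓝 w) :=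
    (continuous_fst.tendsto _).mono_left nhdsWithin_le_nhds
  filter_upwards [h1, h2.eventually (ball_mem_nhds w hr)] with u h3 h4
  have h5 : u = (u.1, az g (σ i u.1)) := Prod.ext rfl h3
  have h6 : Van Y F (w, az g (σ i w)) ↔ Van Y F u := by
    rw [h5, key _ (mem_ball_self hr), key _ h4]
  exact ⟨h6, h6.symm⟩

end M4.FP
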