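import Pool.Agent.Lib.MP_33b3f9_ag.M4.FP.Sg

/-!
Connected components.
-/

set_option autoImplicit false

namespace M4.FP

open Matrix Filter Topology Metric

variable {ι : Type} [Fintype ι] [DecidableEq ι] {W : Type} [NormedAddCommGroup W]
  [NormedSpace ℂ W] {Γ : Subgroup (symplecticGroup ι ℤ)} {Ω : Set W}
  {Y : Set (W × Matrix ι ι ℂ)} {n : ℕ}

theorem comp_sub {X : Type} [TopologicalSpace X] {F A : Set X} {y₀ y : X} (hA : IsPreconnected A)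
    (hF : A ⊆ F) (hy : y ∈ A) (hC : y ∈ connectedComponentIn F y₀) :
    A ⊆ connectedComponentIn F y₀ :=
  (hA.subset_connectedComponentIn hy hF).trans (connectedComponentIn_eq hC).ge

theorem comp_inv (g : symplecticGroup ι ℤ) {τ : Matrix ι ι ℂ} (hτ : InH τ) :
    az g⁻¹ (az g τ) = τ := by
  rw [← az_mul _ _ hτ, inv_mul_cancel, az_one]

theorem comp_move (hS : Sheets Γ Ω Y n) {y₀ y : W × Matrix ι ι ℂ} {g : symplecticGroup ι ℤ}
    (hg : g ∈ Γ) (hy : y ∈ connectedComponentIn (Y ∩ Prod.fst ⁻¹' Ω) y₀)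
    (hgy : (y.1, az g y.2) ∈ connectedComponentIn (Y ∩ Prod.fst ⁻¹' Ω) y₀) :
    ∀ z ∈ connectedComponentIn (Y ∩ Prod.fst ⁻¹' Ω) y₀,
      (z.1, az g z.2) ∈ connectedComponentIn (Y ∩ Prod.fst ⁻¹' Ω) y₀ := by
  have hsub := connectedComponentIn_subset (Y ∩ Prod.fst ⁻¹' Ω) y₀
  have hc : ContinuousOn (fun z : W × Matrix ι ι ℂ => (z.1, az g z.2))
      (connectedComponentIn (Y ∩ Prod.fst ⁻¹' Ω) y₀) := fun z hz =>
    (continuousAt_fst.prodMk ((continuousAt_act (cm_mem ℝ g) (hS.inH z (hsub hz).1)).comp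
      continuousAt_snd)).continuousWithinAt
  intro z hz
  refine comp_sub (isPreconnected_connectedComponentIn.image _ hc) ?_ ⟨y, hy, rfl⟩ hgy ⟨z, hz, rfl⟩
  rintro _ ⟨x, hx, rfl⟩
  exact ⟨hS.stab g hg x (hsub hx).1, (hsub hx).2⟩

theorem comp_graph (hS : Sheets Γ Ω Y n) {y₀ : W × Matrix ι ι ℂ} {s : Set W}
    (hs : IsPreconnected s) (hΩ : s ⊆ Ω) {I : Finset (Fin n)} {σ : Fin n → W → Matrix ι ι ℂ}
    (hC : Chart Γ Y s I σ) {i : Fin n} (hi : i ∈ I) {g : symplecticGroup ι ℤ} (hg : g ∈ Γ)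
    {w w' : W} (hw : w ∈ s) (hw' : w' ∈ s)
    (h : (w, az g (σ i w)) ∈ connectedComponentIn (Y ∩ Prod.fst ⁻¹' Ω) y₀) :
    (w', az g (σ i w')) ∈ connectedComponentIn (Y ∩ Prod.fst ⁻¹' Ω) y₀ := by
  have hc : ContinuousOn (fun z : W => (z, az g (σ i z))) s := continuousOn_id.prodMk
    (holOn_act (cm_mem ℝ g) (hC.hol i hi) fun z hz => hS.inH _ (hC.mem i hi z hz)).continuousOn
  refine comp_sub (hs.image _ hc) ?_ ⟨w, hw, rfl⟩ h ⟨w', hw', rfl⟩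
  rintro _ ⟨x, hx, rfl⟩
  exact ⟨hS.stab g hg _ (hC.mem i hi x hx), hΩ hx⟩

/-- The stabiliser of a subset of the Siegel space over `W`. -/
def compStab (Γ : Subgroup (symplecticGroup ι ℤ)) {W : Type} (C : Set (W × Matrix ι ι ℂ))
    (hC : ∀ y ∈ C, InH y.2) : Subgroup (symplecticGroup ι ℤ) where
  carrier := {g | g ∈ Γ ∧ (∀ y ∈ C, (y.1, az g y.2) ∈ C) ∧ ∀ y ∈ C, (y.1, az g⁻¹ y.2) ∈ C}
  one_mem' := ⟨Γ.one_mem, fun y hy => by rwa [az_one], fun y hy => by rwa [inv_one, az_one]⟩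
  mul_mem' := by
    rintro g h ⟨g1, g2, g3⟩ ⟨h1, h2, h3⟩
    refine ⟨Γ.mul_mem g1 h1, fun y hy => ?_, fun y hy => ?_⟩
    · rw [az_mul _ _ (hC y hy)]
      exact g2 _ (h2 y hy)
    · rw [_root_.mul_inv_rev, az_mul _ _ (hC y hy)]
      exact h3 _ (g3 y hy)
  inv_mem' := by
    rintro g ⟨g1, g2, g3⟩
    exact ⟨Γ.inv_mem g1, g3, by rwa [inv_inv]⟩

/-- The stabiliser of a component; a graph over a ball that meets the component lies in it. -/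
theorem Sheets.comp (hS : Sheets Γ Ω Y n) (y₀ : W × Matrix ι ι ℂ) :
    ∃ G ≤ Γ, Sheets G Ω (connectedComponentIn (Y ∩ Prod.fst ⁻¹' Ω) y₀) n := by
  classical
  have hsub := connectedComponentIn_subset (Y ∩ Prod.fst ⁻¹' Ω) y₀
  have hH : ∀ y ∈ connectedComponentIn (Y ∩ Prod.fst ⁻¹' Ω) y₀, InH y.2 :=
    fun y hy => hS.inH y (hsub hy).1
  refine ⟨compStab Γ _ hH, fun g hg => hg.1, fun g hg => hS.free g hg.1, hH, fun g hg => hg.2.1,
    fun w₀ hw₀ => ?_⟩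
  obtain ⟨r, hr, hb, I, σ, hC⟩ := hS.loc w₀ hw₀
  have hp : IsPreconnected (ball w₀ r) := (convex_ball w₀ r).isPreconnected
  let P : Fin n → Prop := fun i =>
    ∃ g ∈ Γ, (w₀, az g (σ i w₀)) ∈ connectedComponentIn (Y ∩ Prod.fst ⁻¹' Ω) y₀
  have hγ : ∀ i, ∃ g ∈ Γ, P i →
      (w₀, az g (σ i w₀)) ∈ connectedComponentIn (Y ∩ Prod.fst ⁻¹' Ω) y₀ := fun i => by
    by_cases h : P i
    · obtain ⟨g, h1, h2⟩ := h
      exact ⟨g, h1, fun _ => h2⟩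
    · exact ⟨1, Γ.one_mem, fun h' => absurd h' h⟩
  choose γ hγ1 hγ2 using hγ
  have hσ : ∀ i ∈ I, ∀ w ∈ ball w₀ r, InH (σ i w) := fun i hi w hw => hS.inH _ (hC.mem i hi w hw)
  have hmem : ∀ i ∈ I.filter P, ∀ w ∈ ball w₀ r,
      (w, az (γ i) (σ i w)) ∈ connectedComponentIn (Y ∩ Prod.fst ⁻¹' Ω) y₀ := fun i hi w hw =>
    comp_graph hS hp hb hC (Finset.mem_filter.1 hi).1 (hγ1 i) (mem_ball_self hr) hw
      (hγ2 i (Finset.mem_filter.1 hi).2)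
  refine ⟨r, hr, hb, I.filter P, fun i w => az (γ i) (σ i w), fun i hi => ?_, hmem,
    fun w hw τ hτ => ?_, fun w hw i hi j hj g hg h => ?_⟩
  · exact holOn_act (cm_mem ℝ _) (hC.hol i (Finset.mem_filter.1 hi).1)
      (hσ i (Finset.mem_filter.1 hi).1)
  · obtain ⟨i, hi, g, hg, rfl⟩ := hC.cover w hw τ (hsub hτ).1
    have hi' : i ∈ I.filter P := Finset.mem_filter.2
      ⟨hi, g, hg, comp_graph hS hp hb hC hi hg hw (mem_ball_self hr) hτ⟩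
    have e : az g (σ i w) = az (g * (γ i)⁻¹) (az (γ i) (σ i w)) := by
      rw [← az_mul _ _ (hσ i hi w hw), inv_mul_cancel_right]
    have h1 : g * (γ i)⁻¹ ∈ Γ := Γ.mul_mem hg (Γ.inv_mem (hγ1 i))
    have h2 := hmem i hi' w hw
    refine ⟨i, hi', g * (γ i)⁻¹, ⟨h1, comp_move hS h1 h2 (e ▸ hτ),
      comp_move hS (Γ.inv_mem h1) hτ ?_⟩, e⟩
    rw [e, comp_inv _ (hH _ h2)]
    exact h2
  · have hi' := (Finset.mem_filter.1 hi).1
    have hj' := (Finset.mem_filter.1 hj).1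
    refine hC.sep w hw i hi' j hj' ((γ j)⁻¹ * (g * γ i))
      (Γ.mul_mem (Γ.inv_mem (hγ1 j)) (Γ.mul_mem hg.1 (hγ1 i))) ?_
    rw [az_mul _ _ (hσ i hi' w hw), az_mul _ _ (hσ i hi' w hw), h, comp_inv _ (hσ j hj' w hw)]

end M4.FP
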