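import Pool.Agent.Lib.MP_33b3f9_ag.M4.FP.Open

/-!
The projection is a covering map; lifting.
-/

set_option autoImplicit false

namespace M4.FP

open Matrix Filter Topology Metric

variable {ι : Type} [Fintype ι] [DecidableEq ι] {W : Type} [NormedAddCommGroup W]
  [NormedSpace ℂ W] {Γ : Subgroup (symplecticGroup ι ℤ)} {Ω : Set W}
  {Y : Set (W × Matrix ι ι ℂ)} {n : ℕ}

theorem Sheets.cov (hS : Sheets Γ Ω Y n) : IsCoveringMapOn (fun y : Y => y.1.1) Ω := by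
  intro w hw
  obtain ⟨r, hr, -, I, σ, hC⟩ := hS.loc w hw
  rcases I.eq_empty_or_nonempty with rfl | ⟨i0, hi0⟩
  · refine (IsEvenlyCovered.of_preimage_eq_empty Empty (ball_mem_nhds w hr)
      (Set.eq_empty_of_forall_notMem fun y hy => ?_)).to_isEvenlyCovered_preimage
    obtain ⟨i, hi, -⟩ := hC.cover _ hy _ y.2
    exact Finset.notMem_empty i hi
  have hH : ∀ i ∈ I, ∀ x ∈ ball w r, InH (σ i x) := fun i hi x hx => hS.inH _ (hC.mem i hi x hx)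
  have hY : ∀ (p : Γ × I), ∀ x ∈ ball w r, (x, az p.1.1 (σ p.2 x)) ∈ Y := fun p x hx =>
    hS.stab _ p.1.2 _ (hC.mem _ p.2.2 x hx)
  have : Nonempty Y := ⟨⟨_, hC.mem i0 hi0 w (mem_ball_self hr)⟩⟩
  have : Nonempty (Γ × I) := ⟨(1, ⟨i0, hi0⟩)⟩
  let _ : TopologicalSpace (Γ × I) := ⊥
  have : DiscreteTopology (Γ × I) := ⟨rfl⟩
  have hf : Continuous fun y : Y => y.1.1 := continuous_fst.comp continuous_subtype_val
  refine (IsEvenlyCovered.of_trivialization (t := isOpen_ball.trivializationDiscrete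
    (f := fun y : Y => y.1.1)
    (fun p : Γ × I => {y : Y | y.1.1 ∈ ball w r ∧ y.1.2 = az p.1.1 (σ p.2 y.1.1)}) (ball w r)
    (fun p V hV => ⟨fun h => (h.preimage hf).inter ?_, fun h => ?_⟩) ?_ ?_ ?_ ?_)
    (mem_ball_self hr)).to_isEvenlyCovered_preimage
  · refine isOpen_iff_mem_nhds.2 fun y hy => ?_
    have h1 := hS.sheet_open isOpen_ball hC hy.1 p.2.2 p.1.2
    rw [← hy.2] at h1
    have h2 : Tendsto Subtype.val (𝓝 y) (𝓝[Y] y.1) :=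
      tendsto_nhdsWithin_iff.2 ⟨continuous_subtype_val.tendsto y, Eventually.of_forall fun z => z.2⟩
    filter_upwards [h2.eventually h1, (isOpen_ball.preimage hf).mem_nhds hy.1] with z a b
    exact ⟨b, a⟩
  · have h1 : ContinuousOn (fun x => az p.1.1 (σ p.2 x)) (ball w r) :=
      (holOn_act (cm_mem ℝ p.1.1) (hC.hol _ p.2.2) (hH _ p.2.2)).continuousOn
    have h2 : Continuous fun x : ball w r => (⟨(x.1, az p.1.1 (σ p.2 x.1)), hY p x.1 x.2⟩ : Y) :=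
      (continuous_subtype_val.prodMk h1.domRestrict).subtype_mk _
    have h3 := isOpen_ball.isOpenMap_subtype_val _ (h.preimage h2)
    refine (Set.ext fun x => ⟨?_, fun hx => ?_⟩ : _ = V) ▸ h3
    · rintro ⟨x, hx, rfl⟩
      exact hx.1
    · exact ⟨⟨x, hV hx⟩, ⟨hx, hV hx, rfl⟩, rfl⟩
  · intro p y hy y' hy' e
    have e' : y.1.1 = y'.1.1 := e
    exact Subtype.ext (Prod.ext e' (by rw [hy.2, hy'.2, e']))
  · intro p x hx
    exact ⟨⟨_, hY p x hx⟩, ⟨hx, rfl⟩, rfl⟩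
  · rintro ⟨g, i⟩ ⟨g', j⟩ hne
    refine Set.disjoint_left.2 fun y h1 h2 => hne ?_
    have e : az (g'⁻¹ * g : Γ).1 (σ i y.1.1) = σ j y.1.1 := by
      rw [Subgroup.coe_mul, az_mul _ _ (hH _ i.2 _ h1.1), ← h1.2, h2.2,
        ← az_mul _ _ (hH _ j.2 _ h1.1), Subgroup.coe_inv, inv_mul_cancel, az_one]
    obtain rfl : i = j := Subtype.ext (hC.sep _ h1.1 _ i.2 _ j.2 _ (g'⁻¹ * g).2 e)
    have e2 : g'⁻¹ * g = 1 := Subtype.ext (hS.free _ (g'⁻¹ * g).2 _ (hH _ i.2 _ h1.1) e)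
    rw [inv_mul_eq_one.1 e2]
  · intro y hy
    obtain ⟨i, hi, g, hg, e⟩ := hC.cover _ hy _ y.2
    exact Set.mem_iUnion.2 ⟨(⟨g, hg⟩, ⟨i, hi⟩), hy, e⟩

theorem Sheets.lift (hS : Sheets Γ Ω Y n) {e : ℂ → W} {s : Set ℂ} (hs : IsOpen s)
    (hc : Convex ℝ s) (he : DifferentiableOn ℂ e s) (hΩ : ∀ z ∈ s, e z ∈ Ω) {z₀ : ℂ}
    (hz : z₀ ∈ s) {τ₀ : Matrix ι ι ℂ} (h₀ : (e z₀, τ₀) ∈ Y) :
    ∃ f : ℂ → Matrix ι ι ℂ, HolOn f s ∧ f z₀ = τ₀ ∧ ∀ z ∈ s, (e z, f z) ∈ Y := by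
  classical
  have := hc.contractibleSpace ⟨z₀, hz⟩
  have := hs.locallyPathConnectedSpace
  obtain ⟨F, ⟨h1, h2⟩, -⟩ := hS.cov.existsUnique_continuousMap_lifts
    (⟨s.domRestrict e, he.continuousOn.domRestrict⟩ : C(s, W)) (a₀ := ⟨z₀, hz⟩) (e₀ := ⟨_, h₀⟩) rfl
    fun z => hΩ z z.2
  obtain ⟨f, hf⟩ : ∃ f : ℂ → Matrix ι ι ℂ, ∀ z : s, f z = (F z).1.2 :=
    ⟨fun z => if h : z ∈ s then (F ⟨z, h⟩).1.2 else 0, fun z => dif_pos z.2⟩
  have hY : ∀ z ∈ s, (e z, f z) ∈ Y := fun z h => by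
    have h3 : (F ⟨z, h⟩).1.1 = e z := congrFun h2 ⟨z, h⟩
    rw [hf ⟨z, h⟩, ← h3]
    exact (F ⟨z, h⟩).2
  refine ⟨f, hS.hol_of_cont hs he hΩ ?_ hY, by rw [hf ⟨z₀, hz⟩, h1], hY⟩
  rw [continuousOn_iff_continuous_domRestrict,
    show s.domRestrict f = fun z => (F z).1.2 from funext hf]
  exact continuous_snd.comp (continuous_subtype_val.comp F.continuous)

end M4.FP
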