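import Pool.Agent.Lib.MP_33b3f9_ag.M4.FP.Defs

/-!
Cauchy-Schwarz inequality for a nilpotent matrix.
-/

set_option autoImplicit false

namespace M4.FP

open Matrix

theorem cs_inner {α : Type} [Fintype α] (x y : α → ℂ) :
    star x ⬝ᵥ y = inner ℂ (WithLp.toLp 2 x : EuclideanSpace ℂ α) (WithLp.toLp 2 y) := by
  rw [EuclideanSpace.inner_toLp_toLp, dotProduct_comm]

theorem cs_norm {α : Type} [Fintype α] (x : α → ℂ) :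
    (star x ⬝ᵥ x).re = ‖(WithLp.toLp 2 x : EuclideanSpace ℂ α)‖ ^ 2 := by
  rw [cs_inner, ← inner_self_eq_norm_sq (𝕜 := ℂ)]
  rfl

theorem cs_adj {α : Type} [Fintype α] (T : Matrix α α ℂ) (x y : α → ℂ) :
    star x ⬝ᵥ T *ᵥ y = star (Tᴴ *ᵥ x) ⬝ᵥ y := by
  rw [star_mulVec, conjTranspose_conjTranspose, dotProduct_mulVec]

theorem cs_eig {α : Type} [Fintype α] [DecidableEq α] {T : Matrix α α ℂ} {t : α → ℂ} {r : ℂ}
    (h : T *ᵥ t = r • t) (n : ℕ) : T ^ n *ᵥ t = r ^ n • t := by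
  induction n with
  | zero => simp
  | succ n ih => rw [pow_succ, ← mulVec_mulVec, h, mulVec_smul, ih, smul_smul, pow_succ']

/-- Cauchy-Schwarz twice. In the case of equality `T t` is a multiple of `t`. -/
theorem cs_nilp {α : Type} [Fintype α] [DecidableEq α] {T : Matrix α α ℂ} (hT : IsNilpotent T)
    {t : α → ℂ} (ht : t ≠ 0) :
    2 * ‖star t ⬝ᵥ T *ᵥ t‖ ^ 2 ≤ (star t ⬝ᵥ t).re * (star t ⬝ᵥ (T * Tᴴ + Tᴴ * T) *ᵥ t).re ∧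
    (2 * ‖star t ⬝ᵥ T *ᵥ t‖ ^ 2 = (star t ⬝ᵥ t).re * (star t ⬝ᵥ (T * Tᴴ + Tᴴ * T) *ᵥ t).re →
      T *ᵥ t = 0 ∧ Tᴴ *ᵥ t = 0) := by
  have hS : (star t ⬝ᵥ (T * Tᴴ + Tᴴ * T) *ᵥ t).re =
      ‖(WithLp.toLp 2 (Tᴴ *ᵥ t) : EuclideanSpace ℂ α)‖ ^ 2 +
        ‖(WithLp.toLp 2 (T *ᵥ t) : EuclideanSpace ℂ α)‖ ^ 2 := by
    rw [add_mulVec, dotProduct_add, Complex.add_re, ← mulVec_mulVec, ← mulVec_mulVec, cs_adj T t (Tᴴ *ᵥ t),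
      cs_adj Tᴴ t (T *ᵥ t), conjTranspose_conjTranspose, cs_norm, cs_norm]
  have h1 : ‖star t ⬝ᵥ T *ᵥ t‖ ≤ ‖(WithLp.toLp 2 t : EuclideanSpace ℂ α)‖ *
      ‖(WithLp.toLp 2 (T *ᵥ t) : EuclideanSpace ℂ α)‖ := by
    rw [cs_inner]
    exact norm_inner_le_norm _ _
  have h2 : ‖star t ⬝ᵥ T *ᵥ t‖ ≤ ‖(WithLp.toLp 2 (Tᴴ *ᵥ t) : EuclideanSpace ℂ α)‖ *
      ‖(WithLp.toLp 2 t : EuclideanSpace ℂ α)‖ := by
    rw [cs_adj, cs_inner]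
    exact norm_inner_le_norm _ _
  have hx : (WithLp.toLp 2 t : EuclideanSpace ℂ α) ≠ 0 := fun h => ht (congrArg WithLp.ofLp h)
  have h3 := pow_le_pow_left₀ (norm_nonneg _) h1 2
  have h4 := pow_le_pow_left₀ (norm_nonneg _) h2 2
  rw [hS, cs_norm]
  refine ⟨by linarith, fun he => ?_⟩
  have h5 : ‖star t ⬝ᵥ T *ᵥ t‖ = ‖(WithLp.toLp 2 t : EuclideanSpace ℂ α)‖ *
      ‖(WithLp.toLp 2 (T *ᵥ t) : EuclideanSpace ℂ α)‖ :=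
    (pow_left_inj₀ (norm_nonneg _) (by positivity) two_ne_zero).1 (by linarith)
  have h6 : ‖star t ⬝ᵥ T *ᵥ t‖ = ‖(WithLp.toLp 2 (Tᴴ *ᵥ t) : EuclideanSpace ℂ α)‖ *
      ‖(WithLp.toLp 2 t : EuclideanSpace ℂ α)‖ :=
    (pow_left_inj₀ (norm_nonneg _) (by positivity) two_ne_zero).1 (by linarith)
  have h7 : T *ᵥ t = 0 := by
    by_contra hu
    have hu' : (WithLp.toLp 2 (T *ᵥ t) : EuclideanSpace ℂ α) ≠ 0 :=
      fun h => hu (congrArg WithLp.ofLp h)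
    rw [cs_inner] at h5
    obtain ⟨r, hr, h8⟩ := (norm_inner_eq_norm_iff hx hu').1 h5
    obtain ⟨n, hn⟩ := hT
    have h9 := cs_eig (show T *ᵥ t = r • t from congrArg WithLp.ofLp h8) n
    rw [hn, zero_mulVec] at h9
    exact smul_ne_zero (pow_ne_zero n hr) ht h9.symm
  refine ⟨h7, ?_⟩
  rw [h7, dotProduct_zero, norm_zero] at h6
  have h10 := (mul_eq_zero.1 h6.symm).resolve_right (norm_ne_zero_iff.2 hx)
  exact congrArg WithLp.ofLp (norm_eq_zero.1 h10)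

end M4.FP
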