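import Pool.Agent.Lib.MP_33b3f9_ag.M4.ThDefs
import Pool.Agent.Lib.MP_33b3f9_ag.Stmt

/-!
Fixed part theorem on a line: definitions.
-/

set_option autoImplicit false

namespace M4.FP

open Matrix Filter Topology Metric

noncomputable section

section tensor

variable {κ ν R : Type} [Fintype κ] [DecidableEq κ] [Fintype ν] [DecidableEq ν] [CommRing R]

/-- The tensor product of a family of matrices. -/
def Kf (g : κ → Matrix ν ν R) : Matrix (κ → ν) (κ → ν) R :=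
  Matrix.of fun a b => ∏ i, g i (a i) (b i)

variable (κ) in
/-- The tensor power of a matrix. -/
def K (g : Matrix ν ν R) : Matrix (κ → ν) (κ → ν) R := Kf fun _ : κ => g

/-- `X` acting in the slot `i`. -/
def phi (i : κ) (X : Matrix ν ν R) : Matrix (κ → ν) (κ → ν) R :=
  Kf (Function.update (fun _ : κ => (1 : Matrix ν ν R)) i X)

variable (κ) in
/-- The derived action on the tensor power. -/
def dK (X : Matrix ν ν R) : Matrix (κ → ν) (κ → ν) R := ∑ i : κ, phi i X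

end tensor

section jet

/-- Second order expansion at `0` in a real variable. -/
def Jet {F : Type} [NormedAddCommGroup F] [NormedSpace ℝ F] (f : ℝ → F) (a b c : F) : Prop :=
  (fun r : ℝ => f r - (a + r • b + r ^ 2 • c)) =o[𝓝 0] fun r : ℝ => r ^ 2

/-- Entrywise second order expansion of a matrix valued function. -/
def MJet {m n : Type} (f : ℝ → Matrix m n ℂ) (A B C : Matrix m n ℂ) : Prop :=
  ∀ i j, Jet (fun r => f r i j) (A i j) (B i j) (C i j)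

/-- The five point Laplacian of `u` at `s` is `c`. -/
def Lap (u : ℂ → ℝ) (s : ℂ) (c : ℝ) : Prop :=
  Tendsto (fun r : ℝ => (u (s + r) + u (s - r) + u (s + r * Complex.I) + u (s - r * Complex.I)
    - 4 * u s) / r ^ 2) (𝓝[≠] 0) (𝓝 c)

end jet

variable {ι : Type} [Fintype ι] [DecidableEq ι]

/-- An integral symplectic matrix as a matrix over `R`. -/
def cm (R : Type) [CommRing R] (g : symplecticGroup ι ℤ) : Matrix (ι ⊕ ι) (ι ⊕ ι) R :=
  (g : Matrix (ι ⊕ ι) (ι ⊕ ι) ℤ).map Int.cast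

/-- The action of the integral symplectic group. -/
def az (g : symplecticGroup ι ℤ) (τ : Matrix ι ι ℂ) : Matrix ι ι ℂ := act (cm ℝ g) τ

/-- The positive form of `τ`. -/
def Pm (τ : Matrix ι ι ℂ) : Matrix (ι ⊕ ι) (ι ⊕ ι) ℝ := J ι ℝ * cst τ

/-- `p + q I` as a complex matrix. -/
def hm {ν : Type} [DecidableEq ν] (p q : ℝ) (I : Matrix ν ν ℝ) : Matrix ν ν ℂ :=
  (p • (1 : Matrix ν ν ℝ) + q • I).map Complex.ofReal

/-- The square of the norm of a tensor at `τ`. -/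
def Nf (κ : Type) [Fintype κ] [DecidableEq κ] (τ : Matrix ι ι ℂ) (t : (κ → ι ⊕ ι) → ℂ) : ℝ :=
  (star t ⬝ᵥ K κ ((Pm τ).map Complex.ofReal) *ᵥ t).re

/-- The symplectic Lie algebra. -/
def InSp {R : Type} [CommRing R] (X : Matrix (ι ⊕ ι) (ι ⊕ ι) R) : Prop :=
  Xᵀ * J ι R + J ι R * X = 0

/-- The logarithm of a transvection. -/
def Nv {R : Type} [CommRing R] (v : ι ⊕ ι → R) : Matrix (ι ⊕ ι) (ι ⊕ ι) R :=
  vecMulVec v v * J ι R

/-- Tensors on which `G` acts through `χ`. -/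
def Wsp (κ : Type) [Fintype κ] [DecidableEq κ] (R : Type) [CommRing R]
    (G : Subgroup (symplecticGroup ι ℤ)) (χ : symplecticGroup ι ℤ → ℤ) :
    Submodule R ((κ → ι ⊕ ι) → R) where
  carrier := {t | ∀ g ∈ G, K κ (cm R g) *ᵥ t = (χ g : R) • t}
  zero_mem' := fun g _ => by simp
  add_mem' := fun {s t} hs ht g hg => by rw [mulVec_add, hs g hg, ht g hg, smul_add]
  smul_mem' := fun c t ht g hg => by rw [mulVec_smul, ht g hg, smul_comm]

/-- The Mumford-Tate group of `I` contains the rational symplectic group. -/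
def Generic (I : Matrix (ι ⊕ ι) (ι ⊕ ι) ℝ) : Prop :=
  ∀ g ∈ symplecticGroup ι ℚ, ∀ P ∈ Pool.Agent.Lib.MP_33b3f9_ag.mtEqns I,
    Pool.Agent.Lib.MP_33b3f9_ag.evalM g P = 0

/-- The adjoint action of `G` spans all endomorphisms of the symplectic Lie algebra. -/
def SpanOK (G : Subgroup (symplecticGroup ι ℤ)) : Prop :=
  ∀ v w : ι ⊕ ι → ℤ, ∃ c : ℤ, c ≠ 0 ∧ ∀ L : AddSubgroup (Matrix (ι ⊕ ι) (ι ⊕ ι) ℤ),
    (∀ g ∈ G, ∀ X ∈ L, (g : Matrix (ι ⊕ ι) (ι ⊕ ι) ℤ) * X * (g⁻¹ : symplecticGroup ι ℤ) ∈ L) →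
      ∀ X ∈ L, (c * (w ⬝ᵥ (J ι ℤ * X) *ᵥ w)) • Nv v ∈ L

section sheets

variable {W : Type} [NormedAddCommGroup W] [NormedSpace ℂ W]

/-- Entrywise holomorphic maps. -/
def HolOn {m n : Type} (σ : W → Matrix m n ℂ) (s : Set W) : Prop :=
  ∀ i j, DifferentiableOn ℂ (fun w => σ w i j) s

variable (W) in
/-- `F` is holomorphic along holomorphic maps into the Siegel space. -/
def HolF (F : Matrix ι ι ℂ → ℂ) : Prop :=
  ∀ (σ : W → Matrix ι ι ℂ) (s : Set W), IsOpen s → HolOn σ s → (∀ w ∈ s, InH (σ w)) →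
    DifferentiableOn ℂ (fun w => F (σ w)) s

/-- Over `s` the set `Y` is the union of the `Γ`-translates of the graphs of the `σ i`. -/
structure Chart (Γ : Subgroup (symplecticGroup ι ℤ)) (Y : Set (W × Matrix ι ι ℂ)) (s : Set W)
    {n : ℕ} (I : Finset (Fin n)) (σ : Fin n → W → Matrix ι ι ℂ) : Prop where
  hol : ∀ i ∈ I, HolOn (σ i) s
  mem : ∀ i ∈ I, ∀ w ∈ s, (w, σ i w) ∈ Y
  cover : ∀ w ∈ s, ∀ τ, (w, τ) ∈ Y → ∃ i ∈ I, ∃ g ∈ Γ, τ = az g (σ i w)
  sep : ∀ w ∈ s, ∀ i ∈ I, ∀ j ∈ I, ∀ g ∈ Γ, az g (σ i w) = σ j w → i = j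

/-- A multivalued holomorphic map from `Ω` to the Siegel space, with at most `n` values
modulo `Γ`. -/
structure Sheets (Γ : Subgroup (symplecticGroup ι ℤ)) (Ω : Set W) (Y : Set (W × Matrix ι ι ℂ))
    (n : ℕ) : Prop where
  free : ∀ g ∈ Γ, ∀ τ, InH τ → az g τ = τ → g = 1
  inH : ∀ y ∈ Y, InH y.2
  stab : ∀ g ∈ Γ, ∀ y ∈ Y, (y.1, az g y.2) ∈ Y
  loc : ∀ w ∈ Ω, ∃ r > 0, ball w r ⊆ Ω ∧
    ∃ (I : Finset (Fin n)) (σ : Fin n → W → Matrix ι ι ℂ), Chart Γ Y (ball w r) I σ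

/-- `F` vanishes on `Y` near `y`. -/
def Van (Y : Set (W × Matrix ι ι ℂ)) (F : Matrix ι ι ℂ → ℂ) (y : W × Matrix ι ι ℂ) : Prop :=
  ∀ᶠ y' in 𝓝[Y] y, F y'.2 = 0

end sheets

end

end M4.FP
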