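import Pool.Agent.Lib.MP_33b3f9_ag.M4.FP.LapZ

/-!
The fixed part theorem.
-/

set_option autoImplicit false

namespace M4.FP

open Matrix Filter Topology Metric

/-- A function with derivative zero along all real lines is constant on a ball. -/
theorem fix_ball {F : Type} [NormedAddCommGroup F] [NormedSpace ℝ F] {f : ℂ → F} {w : ℂ} {r : ℝ}
    (h : ∀ s ∈ ball w r, ∀ ω : ℂ, HasDerivAt (fun x : ℝ => f (s + x * ω)) 0 0) {z : ℂ}
    (hz : z ∈ ball w r) : f z = f w := by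
  have hw : w ∈ ball w r := mem_ball_self (pos_of_mem_ball hz)
  have hd : ∀ x ∈ Set.Icc (0 : ℝ) 1, HasDerivAt (fun x : ℝ => f (w + x * (z - w))) 0 x := by
    intro x hx
    have hm : w + x * (z - w) ∈ ball w r := by
      have := (convex_ball w r).add_smul_sub_mem hw hz hx
      simpa using this
    have h1 := h _ hm (z - w)
    rw [← sub_self x] at h1
    have h2 := HasDerivAt.comp_sub_const x x h1
    refine h2.congr_of_eventuallyEq (Eventually.of_forall fun y => ?_)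
    change f _ = f _
    congr 1
    push_cast
    ring
  have := constant_of_has_deriv_right_zero (fun x hx => (hd x hx).continuousAt.continuousWithinAt)
    (fun x hx => (hd x (Set.Ico_subset_Icc_self hx)).hasDerivWithinAt) 1 (by simp)
  simpa using this

variable {ι : Type} [Fintype ι] [DecidableEq ι] {G : Subgroup (symplecticGroup ι ℤ)}
  {Y : Set (ℂ × Matrix ι ι ℂ)} {n : ℕ}

/-- A function that is constant on all sheets over balls is constant on `Y`. -/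
theorem fix_glue {α : Type} {B : Finset ℂ} (hS : Sheets G (↑B)ᶜ Y n) (hB : ∀ y ∈ Y, y.1 ∉ B)
    (hc : IsPreconnected Y) (Φ : Matrix ι ι ℂ → α)
    (h : ∀ (w : ℂ) (r : ℝ) (I : Finset (Fin n)) (σ : Fin n → ℂ → Matrix ι ι ℂ),
      ball w r ⊆ (↑B)ᶜ → Chart G Y (ball w r) I σ → ∀ i ∈ I, ∀ g ∈ G, ∀ z ∈ ball w r,
        Φ (az g (σ i z)) = Φ (az g (σ i w)))
    {y y' : ℂ × Matrix ι ι ℂ} (hy : y ∈ Y) (hy' : y' ∈ Y) : Φ y.2 = Φ y'.2 := by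
  refine hc.induction₂' (fun a b => Φ a.2 = Φ b.2) ?_ (fun _ _ _ _ _ _ => Eq.trans) hy hy'
  rintro ⟨w, τ⟩ hx
  obtain ⟨r, hr, hsub, I, σ, hC⟩ := hS.loc w (hB _ hx)
  obtain ⟨i, hi, g, hg, rfl⟩ := hC.cover w (mem_ball_self hr) τ hx
  have h1 := hS.sheet_open isOpen_ball hC (mem_ball_self hr) hi hg
  have h2 : ∀ᶠ y in 𝓝[Y] (w, az g (σ i w)), y.1 ∈ ball w r :=
    mem_nhdsWithin_of_mem_nhds (continuous_fst.continuousAt.preimage_mem_nhds (ball_mem_nhds w hr))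
  filter_upwards [h1, h2] with y e1 e2
  have := h w r I σ hsub hC i hi g hg y.1 e2
  rw [← e1] at this
  exact ⟨this.symm, this⟩

variable {κ : Type} [Fintype κ] [DecidableEq κ] {χ : symplecticGroup ι ℤ → ℤ}

theorem fix_sq (hχ : ∀ g ∈ G, χ g = 1 ∨ χ g = -1) {g : symplecticGroup ι ℤ} (hg : g ∈ G) :
    (χ g : ℂ) * χ g = 1 := by
  rcases hχ g hg with h | h <;> simp [h]

/-- The transformation of the Hodge torus action on an invariant tensor. -/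
theorem fix_az (hχ : ∀ g ∈ G, χ g = 1 ∨ χ g = -1) {t : (κ → ι ⊕ ι) → ℂ} (ht : t ∈ Wsp κ ℂ G χ)
    (p q : ℝ) {g : symplecticGroup ι ℤ} (hg : g ∈ G) {τ : Matrix ι ι ℂ} (hτ : InH τ) :
    K κ (hm p q (cst (az g τ))) *ᵥ t =
      (χ g : ℂ) • (K κ (cm ℂ g) *ᵥ (K κ (hm p q (cst τ)) *ᵥ t)) := by
  have h1 := hm_act (cm_mem ℝ g) hτ p q
  rw [show (cm ℝ g).map Complex.ofReal = cm ℂ g from cm_map Complex.ofRealHom g] at h1
  rw [mulVec_mulVec, ← K_mul, ← h1, K_mul, ← mulVec_mulVec, ht g hg, mulVec_smul, smul_smul,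
    fix_sq hχ hg, one_smul]
  rfl

/-- The local computation on a sheet, for invariant tensors. -/
theorem fix_loc {B : Finset ℂ} (hS : Sheets G (↑B)ᶜ Y n) (hχ : ∀ g ∈ G, χ g = 1 ∨ χ g = -1)
    {s : Set ℂ} (hs : IsOpen s) (hB : s ⊆ (↑B)ᶜ) {I : Finset (Fin n)}
    {σ : Fin n → ℂ → Matrix ι ι ℂ} (hC : Chart G Y s I σ) {w : ℂ} (hw : w ∈ s) {i : Fin n}
    (hi : i ∈ I) : ∃ X : Matrix (ι ⊕ ι) (ι ⊕ ι) ℂ, InSp X ∧
      (X = 0 → ∀ (ω : ℂ) a b, HasDerivAt (fun r : ℝ => cst (σ i (w + r * ω)) a b) 0 0) ∧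
      ∀ t ∈ Wsp κ ℂ G χ, dK κ X *ᵥ t = 0 ∧ ∀ p q : ℝ, (p, q) ≠ 0 → ∀ (ω : ℂ) a,
        HasDerivAt (fun r : ℝ => (K κ (hm p q (cst (σ i (w + r * ω)))) *ᵥ t) a) 0 0 := by
  obtain ⟨X, hX, h0, h1⟩ := loc κ hs (hC.hol i hi) (fun z hz => hS.inH _ (hC.mem i hi z hz)) hw
  refine ⟨X, hX, h0, fun t ht => ?_⟩
  by_cases ht0 : t = 0
  · subst ht0
    refine ⟨mulVec_zero _, fun p q _ ω a => ?_⟩
    simpa using hasDerivAt_const (0 : ℝ) (0 : ℂ)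
  · obtain ⟨c, -, hc, h2⟩ := h1 t ht0
    exact h2 (hS.lap_zero hχ ht ht0 hs hB hC hw hi hc)

theorem Sheets.fix_const {B : Finset ℂ} (hS : Sheets G (↑B)ᶜ Y n) (hB : ∀ y ∈ Y, y.1 ∉ B)
    (hc : IsPreconnected Y) (hχ : ∀ g ∈ G, χ g = 1 ∨ χ g = -1) {t : (κ → ι ⊕ ι) → ℂ}
    (ht : t ∈ Wsp κ ℂ G χ) {p q : ℝ} (hpq : (p, q) ≠ 0) {y y' : ℂ × Matrix ι ι ℂ} (hy : y ∈ Y)
    (hy' : y' ∈ Y) : K κ (hm p q (cst y.2)) *ᵥ t = K κ (hm p q (cst y'.2)) *ᵥ t := by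
  refine fix_glue hS hB hc (fun τ => K κ (hm p q (cst τ)) *ᵥ t) ?_ hy hy'
  intro w r I σ hsub hC i hi g hg z hz
  have hw : w ∈ ball w r := mem_ball_self (pos_of_mem_ball hz)
  have key : K κ (hm p q (cst (σ i z))) *ᵥ t = K κ (hm p q (cst (σ i w))) *ᵥ t := by
    funext a
    refine fix_ball (f := fun z => (K κ (hm p q (cst (σ i z))) *ᵥ t) a) (fun s hs ω => ?_) hz
    obtain ⟨X, -, -, h⟩ := fix_loc (κ := κ) hS hχ isOpen_ball hsub hC hs hi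
    exact (h t ht).2 p q hpq ω a
  rw [fix_az hχ ht p q hg (hS.inH _ (hC.mem i hi z hz)),
    fix_az hχ ht p q hg (hS.inH _ (hC.mem i hi w hw)), key]

theorem Sheets.fix_lie {B : Finset ℂ} (hS : Sheets G (↑B)ᶜ Y n) (hB : ∀ y ∈ Y, y.1 ∉ B)
    (hc : IsPreconnected Y) (hχ : ∀ g ∈ G, χ g = 1 ∨ χ g = -1)
    (hne : ∃ y ∈ Y, ∃ y' ∈ Y, y.2 ≠ y'.2) :
    ∃ X : Matrix (ι ⊕ ι) (ι ⊕ ι) ℂ, InSp X ∧ X ≠ 0 ∧ ∀ t ∈ Wsp κ ℂ G χ, dK κ X *ᵥ t = 0 := by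
  by_contra hcon
  obtain ⟨y, hy, y', hy', hne⟩ := hne
  refine hne (fix_glue hS hB hc id ?_ hy hy')
  intro w r I σ hsub hC i hi g _ z hz
  have hw : w ∈ ball w r := mem_ball_self (pos_of_mem_ball hz)
  have key : cst (σ i z) = cst (σ i w) := by
    ext a b
    refine fix_ball (f := fun z => cst (σ i z) a b) (fun s hs ω => ?_) hz
    obtain ⟨X, hX, h0, h⟩ := fix_loc (κ := κ) hS hχ isOpen_ball hsub hC hs hi
    refine h0 ?_ ω a b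
    by_contra hX0
    exact hcon ⟨X, hX, hX0, fun t ht => (h t ht).1⟩
  have e : σ i z = σ i w :=
    cst_inj (hS.inH _ (hC.mem i hi z hz)) (hS.inH _ (hC.mem i hi w hw)) key
  rw [e]

theorem fix_cont {a : Matrix ι ι ℂ} (ha : InH a) (t : (κ → ι ⊕ ι) → ℂ) (p q : ℝ) :
    ContinuousAt (fun τ : Matrix ι ι ℂ => K κ (hm p q (cst τ)) *ᵥ t) a := by
  have h1 : Continuous fun I : Matrix (ι ⊕ ι) (ι ⊕ ι) ℝ => hm p q I :=
    (continuous_const.add (continuous_id.const_smul q)).matrix_map Complex.continuous_ofReal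
  have h2 : Continuous fun I : Matrix (ι ⊕ ι) (ι ⊕ ι) ℝ => K κ (hm p q I) *ᵥ t :=
    (continuous_K.comp h1).matrix_mulVec continuous_const
  exact h2.continuousAt.comp (continuousAt_cst ha)

theorem Sheets.fix_mem {B : Finset ℂ} (hS : Sheets G (↑B)ᶜ Y n) (hB : ∀ y ∈ Y, y.1 ∉ B)
    (hc : IsPreconnected Y) (hχ : ∀ g ∈ G, χ g = 1 ∨ χ g = -1) {a : Matrix ι ι ℂ} (ha : InH a)
    (hcl : a ∈ closure (Prod.snd '' Y)) {t : (κ → ι ⊕ ι) → ℂ} (ht : t ∈ Wsp κ ℂ G χ) {p q : ℝ}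
    (hpq : (p, q) ≠ 0) : K κ (hm p q (cst a)) *ᵥ t ∈ Wsp κ ℂ G χ := by
  obtain ⟨_, y, hy, -⟩ := closure_nonempty_iff.1 ⟨a, hcl⟩
  have h1 : K κ (hm p q (cst a)) *ᵥ t = K κ (hm p q (cst y.2)) *ᵥ t := by
    have h2 := (fix_cont ha t p q).continuousWithinAt.mem_closure_image hcl
    have h3 : (fun τ : Matrix ι ι ℂ => K κ (hm p q (cst τ)) *ᵥ t) '' (Prod.snd '' Y) ⊆
        {K κ (hm p q (cst y.2)) *ᵥ t} := by
      rintro _ ⟨_, ⟨y', hy', rfl⟩, rfl⟩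
      exact hS.fix_const hB hc hχ ht hpq hy' hy
    exact isClosed_singleton.closure_subset_iff.2 h3 h2
  rw [h1]
  intro g hg
  have h4 := hS.fix_const hB hc hχ ht hpq (hS.stab g hg y hy) hy
  rw [fix_az hχ ht p q hg (hS.inH y hy)] at h4
  rw [← h4, smul_smul, fix_sq hχ hg, one_smul, h4]

end M4.FP
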