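import Pool.Agent.Lib.MP_33b3f9_ag.M4.FP.Ten
import Pool.Agent.Lib.MP_33b3f9_ag.M4.FP.Sg

/-!
Rational spaces of tensors that are stable under a generic complex structure.
-/

set_option autoImplicit false

namespace M4.FP

open Matrix

variable {ι : Type} [Fintype ι] [DecidableEq ι] {κ : Type} [Fintype κ] [DecidableEq κ]
  {G : Subgroup (symplecticGroup ι ℤ)} {χ : symplecticGroup ι ℤ → ℤ}

theorem gen_K (Ω : Type) [Field Ω] [Algebra ℚ Ω] (g : symplecticGroup ι ℤ) :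
    K κ (cm Ω g) = (K κ (cm ℚ g)).map (algebraMap ℚ Ω) := by
  rw [← K_map, cm_map]

theorem gen_coord {Ω : Type} [Field Ω] [Algebra ℚ Ω] {t : (κ → ι ⊕ ι) → Ω}
    (ht : t ∈ Wsp κ Ω G χ) (φ : Ω →ₗ[ℚ] ℚ) : (fun a => φ (t a)) ∈ Wsp κ ℚ G χ := by
  intro g hg
  funext a
  have h := congrArg φ (congrFun (ht g hg) a)
  rw [gen_K] at h
  simp only [mulVec, dotProduct, map_apply, ← Algebra.smul_def, map_sum, map_smul, Pi.smul_apply,
    smul_eq_mul, ← zsmul_eq_mul, map_zsmul] at h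
  simpa only [mulVec, dotProduct, Pi.smul_apply, smul_eq_mul, ← zsmul_eq_mul] using h

/-- Coordinates in a basis of `Ω` over `ℚ`. -/
theorem Wsp_span (Ω : Type) [Field Ω] [Algebra ℚ Ω] {t : (κ → ι ⊕ ι) → Ω}
    (ht : t ∈ Wsp κ Ω G χ) :
    t ∈ Submodule.span Ω ((fun s : (κ → ι ⊕ ι) → ℚ => fun a => algebraMap ℚ Ω (s a)) ''
      (Wsp κ ℚ G χ : Set _)) := by
  classical
  let b := Module.Basis.ofVectorSpace ℚ Ω
  have e : t = ∑ j ∈ Finset.univ.biUnion (fun a => (b.repr (t a)).support),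
      b j • fun a => algebraMap ℚ Ω (b.coord j (t a)) := by
    funext a
    rw [Finset.sum_apply]
    conv_lhs => rw [← b.linearCombination_repr (t a), Finsupp.linearCombination_apply]
    rw [Finsupp.sum_of_support_subset _ (Finset.subset_biUnion_of_mem
      (fun a => (b.repr (t a)).support) (Finset.mem_univ a))
      (fun i (c : ℚ) => c • b i) fun _ _ => zero_smul _ _]
    refine Finset.sum_congr rfl fun j _ => ?_
    rw [Pi.smul_apply, smul_eq_mul, mul_comm, ← Algebra.smul_def, Module.Basis.coord_apply]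
  rw [e]
  exact Submodule.sum_mem _ fun j _ => Submodule.smul_mem _ _
    (Submodule.subset_span ⟨_, gen_coord ht (b.coord j), rfl⟩)

theorem Wsp_map (Ω : Type) [Field Ω] [Algebra ℚ Ω] {s : (κ → ι ⊕ ι) → ℚ} :
    (fun a => algebraMap ℚ Ω (s a)) ∈ Wsp κ Ω G χ ↔ s ∈ Wsp κ ℚ G χ := by
  have key : ∀ (g : symplecticGroup ι ℤ) (a : κ → ι ⊕ ι),
      (K κ (cm Ω g) *ᵥ fun a => algebraMap ℚ Ω (s a)) a =
        ((χ g : Ω) • fun a => algebraMap ℚ Ω (s a)) a ↔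
      (K κ (cm ℚ g) *ᵥ s) a = ((χ g : ℚ) • s) a := by
    intro g a
    rw [← (algebraMap ℚ Ω).injective.eq_iff, RingHom.map_mulVec, gen_K, Pi.smul_apply,
      Pi.smul_apply, smul_eq_mul, smul_eq_mul, map_mul, map_intCast]
    rfl
  exact ⟨fun h g hg => funext fun a => (key g a).1 (congrFun (h g hg) a),
    fun h g hg => funext fun a => (key g a).2 (congrFun (h g hg) a)⟩

open Pool.Agent.Lib.MP_33b3f9_ag in
theorem gen_evalM {ν Ω Ω' : Type} [Fintype ν] [DecidableEq ν] [Field Ω] [Field Ω'] [Algebra ℚ Ω]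
    [Algebra ℚ Ω'] (f : Ω →+* Ω') (x : Matrix ν ν Ω) (P : MvPolynomial (ν × ν) ℚ) :
    evalM (x.map f) P = f (evalM x P) :=
  (MvPolynomial.comp_aeval_apply (fun p : ν × ν => x p.1 p.2) f.toRatAlgHom P).symm

variable (κ) in
/-- The equations of the stabiliser. -/
noncomputable def genPol (χ : symplecticGroup ι ℤ → ℤ) (g : symplecticGroup ι ℤ)
    (s : (κ → ι ⊕ ι) → ℚ) : (κ → ι ⊕ ι) → MvPolynomial ((ι ⊕ ι) × (ι ⊕ ι)) ℚ :=
  K κ (cm _ g) *ᵥ (K κ (Matrix.of fun i j => MvPolynomial.X (i, j)) *ᵥ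
      fun a => MvPolynomial.C (s a)) -
    (χ g : MvPolynomial ((ι ⊕ ι) × (ι ⊕ ι)) ℚ) •
      (K κ (Matrix.of fun i j => MvPolynomial.X (i, j)) *ᵥ fun a => MvPolynomial.C (s a))

open Pool.Agent.Lib.MP_33b3f9_ag in
theorem gen_eval {Ω : Type} [Field Ω] [Algebra ℚ Ω] (x : Matrix (ι ⊕ ι) (ι ⊕ ι) Ω)
    (g : symplecticGroup ι ℤ) (s : (κ → ι ⊕ ι) → ℚ) (a : κ → ι ⊕ ι) :
    evalM x (genPol κ χ g s a) =
      (K κ (cm Ω g) *ᵥ (K κ x *ᵥ fun a => algebraMap ℚ Ω (s a))) a -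
        ((χ g : Ω) • (K κ x *ᵥ fun a => algebraMap ℚ Ω (s a))) a := by
  obtain ⟨φ, hφ⟩ : ∃ φ : MvPolynomial ((ι ⊕ ι) × (ι ⊕ ι)) ℚ →+* Ω, ∀ P, φ P = evalM x P :=
    ⟨(MvPolynomial.aeval fun p : (ι ⊕ ι) × (ι ⊕ ι) => x p.1 p.2).toRingHom, fun _ => rfl⟩
  have h1 : (Matrix.of fun i j => MvPolynomial.X (i, j)).map φ = x := by
    ext i j
    rw [map_apply, hφ, of_apply, evalM, MvPolynomial.aeval_X]
  have h2 : (φ ∘ fun a => MvPolynomial.C (s a)) = fun a => algebraMap ℚ Ω (s a) := by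
    funext a
    rw [Function.comp_apply, hφ, evalM, MvPolynomial.aeval_C]
  have h3 : φ ∘ (K κ (Matrix.of fun i j => MvPolynomial.X (i, j)) *ᵥ
      fun a => MvPolynomial.C (s a)) = K κ x *ᵥ fun a => algebraMap ℚ Ω (s a) := by
    funext a
    rw [Function.comp_apply, RingHom.map_mulVec, ← K_map, h1, h2]
  rw [← hφ, genPol, Pi.sub_apply, map_sub, RingHom.map_mulVec, ← K_map, cm_map, h3, Pi.smul_apply,
    Pi.smul_apply, smul_eq_mul, smul_eq_mul, map_mul, map_intCast, ← h3]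
  rfl

open Pool.Agent.Lib.MP_33b3f9_ag in
theorem gen_iff {Ω : Type} [Field Ω] [Algebra ℚ Ω] (x : Matrix (ι ⊕ ι) (ι ⊕ ι) Ω) :
    (∀ P ∈ {P | ∃ g ∈ G, ∃ s ∈ Wsp κ ℚ G χ, ∃ a, P = genPol κ χ g s a}, evalM x P = 0) ↔
      ∀ t ∈ Wsp κ Ω G χ, K κ x *ᵥ t ∈ Wsp κ Ω G χ := by
  constructor
  · intro h t ht
    have h1 : Submodule.span Ω ((fun s : (κ → ι ⊕ ι) → ℚ => fun a => algebraMap ℚ Ω (s a)) ''
        (Wsp κ ℚ G χ : Set _)) ≤ (Wsp κ Ω G χ).comap (K κ x).mulVecLin := by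
      rw [Submodule.span_le]
      rintro _ ⟨s, hs, rfl⟩ g hg
      funext a
      have h2 := h _ ⟨g, hg, s, hs, a, rfl⟩
      rw [gen_eval] at h2
      exact sub_eq_zero.1 h2
    exact h1 (Wsp_span Ω ht)
  · rintro h _ ⟨g, hg, s, hs, a, rfl⟩
    rw [gen_eval, h _ ((Wsp_map Ω).2 hs) g hg, sub_self]

/-- The stabiliser of the space of tensors. -/
def genStab (κ : Type) [Fintype κ] [DecidableEq κ] (Ω : Type) [Field Ω]
    (G : Subgroup (symplecticGroup ι ℤ)) (χ : symplecticGroup ι ℤ → ℤ) :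
    Subgroup (GL (ι ⊕ ι) Ω) where
  carrier := {x | ∀ t ∈ Wsp κ Ω G χ, K κ (x : Matrix (ι ⊕ ι) (ι ⊕ ι) Ω) *ᵥ t ∈ Wsp κ Ω G χ}
  one_mem' := fun t ht => by
    rw [Units.val_one, K_one, one_mulVec]
    exact ht
  mul_mem' := fun {x y} hx hy t ht => by
    rw [Units.val_mul, K_mul, ← mulVec_mulVec]
    exact hx _ (hy t ht)
  inv_mem' := fun {x} hx t ht => by
    have h1 : ∀ u : (κ → ι ⊕ ι) → Ω, K κ ((x⁻¹ : GL (ι ⊕ ι) Ω) : Matrix (ι ⊕ ι) (ι ⊕ ι) Ω) *ᵥ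
        (K κ (x : Matrix (ι ⊕ ι) (ι ⊕ ι) Ω) *ᵥ u) = u := fun u => by
      rw [mulVec_mulVec, ← K_mul, Units.inv_mul, K_one, one_mulVec]
    have h2 : Function.Injective ((K κ (x : Matrix (ι ⊕ ι) (ι ⊕ ι) Ω)).mulVecLin.restrict
        (p := Wsp κ Ω G χ) (q := Wsp κ Ω G χ) hx) := fun u v huv =>
      Subtype.ext ((h1 u).symm.trans ((congrArg _ (congrArg Subtype.val huv)).trans (h1 v)))
    obtain ⟨u, hu⟩ := LinearMap.injective_iff_surjective.1 h2 ⟨t, ht⟩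
    have h3 : K κ (x : Matrix (ι ⊕ ι) (ι ⊕ ι) Ω) *ᵥ u = t := congrArg Subtype.val hu
    rw [← h3, h1]
    exact u.2

/-- The polynomials `((K g - χ g) K x s) a`, `s` rational, cut out the stabiliser. -/
theorem Generic.stable {I : Matrix (ι ⊕ ι) (ι ⊕ ι) ℝ} (hI : Generic I)
    (h : ∀ t ∈ Wsp κ ℂ G χ, ∀ p q : ℝ, (p, q) ≠ 0 → K κ (hm p q I) *ᵥ t ∈ Wsp κ ℂ G χ)
    {g : Matrix (ι ⊕ ι) (ι ⊕ ι) ℚ} (hg : g ∈ symplecticGroup ι ℚ) :
    ∀ t ∈ Wsp κ ℂ G χ, K κ (g.map (algebraMap ℚ ℂ)) *ᵥ t ∈ Wsp κ ℂ G χ := by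
  refine (gen_iff _).1 fun P hP => ?_
  rw [gen_evalM, hI g hg P ?_, map_zero]
  refine ⟨_, ⟨⟨genStab κ _ G χ, Set.ext fun x => (gen_iff _).symm⟩, fun u v huv Q hQ => ?_⟩, hP⟩
  have h1 := (gen_iff (hm u v I)).2 (fun t ht => h t ht u v huv) Q hQ
  have h2 := gen_evalM Complex.ofRealHom (u • (1 : Matrix (ι ⊕ ι) (ι ⊕ ι) ℝ) + v • I) Q
  exact Complex.ofReal_eq_zero.1 (h2.symm.trans h1)

end M4.FP
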