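import Pool.Agent.Lib.MP_33b3f9_ag.M4.FP.HarnM
import Pool.Agent.Lib.MP_33b3f9_ag.M4.FP.Cov

/-!
Growth at a puncture; sums over the sheets.
-/

set_option autoImplicit false

namespace M4.FP

open Matrix Filter Topology Metric

variable {ι : Type} [Fintype ι] [DecidableEq ι] {G : Subgroup (symplecticGroup ι ℤ)}
  {Y : Set (ℂ × Matrix ι ι ℂ)} {n : ℕ}

theorem grow_az_inv (g : symplecticGroup ι ℤ) {τ : Matrix ι ι ℂ} (hτ : InH τ) :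
    az g⁻¹ (az g τ) = τ := by
  rw [← az_mul _ _ hτ, inv_mul_cancel, az_one]

/-- Lift `e` through the point, move the value at `-1` to one of the `σ i (e (-1))`. -/
theorem Sheets.grow {Ω : Set ℂ} (hS : Sheets G Ω Y n) {e : ℂ → ℂ}
    (he : DifferentiableOn ℂ e {z | z.re < 0}) (hΩ : ∀ z : ℂ, z.re < 0 → e z ∈ Ω) :
    ∃ C : ℝ, ∀ z : ℂ, z.re ≤ -1 → |z.im| ≤ Real.pi → ∀ τ, (e z, τ) ∈ Y →
      ∃ g ∈ G, (Pm (az g τ)).trace ≤ C * (-z.re) := by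
  have h1 : (-1 : ℂ).re < 0 := by simp
  obtain ⟨r, hr, -, I, σ, hC⟩ := hS.loc (e (-1)) (hΩ _ h1)
  refine ⟨14 * ∑ i ∈ I, |(Pm (σ i (e (-1)))).trace|, fun z hz hi τ hτ => ?_⟩
  have hz0 : z.re < 0 := by linarith
  obtain ⟨f, hf, hfz, hfY⟩ := hS.lift (e := e) (s := {z : ℂ | z.re < 0})
    (isOpen_lt Complex.continuous_re continuous_const) (convex_halfSpace_re_lt 0) he hΩ
    (z₀ := z) hz0 hτ
  have hH : ∀ w : ℂ, w.re < 0 → InH (f w) := fun w hw => hS.inH _ (hfY w hw)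
  obtain ⟨i, hiI, g, hg, hfg⟩ := hC.cover _ (mem_ball_self hr) _ (hfY (-1) h1)
  have hσ : InH (σ i (e (-1))) := hS.inH _ (hC.mem i hiI _ (mem_ball_self hr))
  refine ⟨g⁻¹, G.inv_mem hg, ?_⟩
  have h2 := harnack_trace (f := fun w => az g⁻¹ (f w)) (holOn_act (cm_mem ℝ g⁻¹) hf hH)
    (fun w hw => inH_az _ (hH w hw)) hz hi
  simp only [hfz, hfg, grow_az_inv g hσ] at h2
  have h3 : (Pm (σ i (e (-1)))).trace ≤ ∑ i ∈ I, |(Pm (σ i (e (-1)))).trace| :=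
    (le_abs_self _).trans (Finset.single_le_sum
      (f := fun i => |(Pm (σ i (e (-1)))).trace|) (fun _ _ => abs_nonneg _) hiI)
  have h4 : 0 ≤ -z.re := by linarith
  nlinarith [mul_le_mul_of_nonneg_left h3 h4]

theorem grow_sum_eq {Ω : Set ℂ} (hS : Sheets G Ω Y n) (u : Matrix ι ι ℂ → ℝ)
    (hu : ∀ g ∈ G, ∀ τ, InH τ → u (az g τ) = u τ) {s s' : Set ℂ} {I I' : Finset (Fin n)}
    {σ σ' : Fin n → ℂ → Matrix ι ι ℂ} (hC : Chart G Y s I σ) (hC' : Chart G Y s' I' σ') {w : ℂ}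
    (hw : w ∈ s) (hw' : w ∈ s') : ∑ i ∈ I, u (σ i w) = ∑ i ∈ I', u (σ' i w) := by
  choose j hj g hg hσ using fun i hi => hC'.cover w hw' _ (hC.mem i hi w hw)
  have hH : ∀ i ∈ I, InH (σ i w) := fun i hi => hS.inH _ (hC.mem i hi w hw)
  have hH' : ∀ i ∈ I', InH (σ' i w) := fun i hi => hS.inH _ (hC'.mem i hi w hw')
  refine Finset.sum_bij j hj (fun a ha b hb hab => ?_) (fun b hb => ?_) (fun a ha => ?_)
  · refine hC.sep w hw a ha b hb (g b hb * (g a ha)⁻¹)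
      (G.mul_mem (hg b hb) (G.inv_mem (hg a ha))) ?_
    rw [az_mul _ _ (hH a ha), hσ a ha, grow_az_inv _ (hH' _ (hj a ha)), hab, ← hσ b hb]
  · obtain ⟨a, ha, k, hk, hb'⟩ := hC.cover w hw _ (hC'.mem b hb w hw')
    refine ⟨a, ha, hC'.sep w hw' _ (hj a ha) b hb (k * g a ha) (G.mul_mem hk (hg a ha)) ?_⟩
    rw [az_mul _ _ (hH' _ (hj a ha)), ← hσ a ha, ← hb']
  · rw [hσ a ha, hu _ (hg a ha) _ (hH' _ (hj a ha))]

/-- The sum of an invariant function over the sheets. -/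
theorem Sheets.exists_sum {Ω : Set ℂ} (hS : Sheets G Ω Y n) (u : Matrix ι ι ℂ → ℝ)
    (hu : ∀ g ∈ G, ∀ τ, InH τ → u (az g τ) = u τ) :
    ∃ U : ℂ → ℝ, ∀ (s : Set ℂ) (I : Finset (Fin n)) (σ : Fin n → ℂ → Matrix ι ι ℂ),
      Chart G Y s I σ → ∀ w ∈ s, U w = ∑ i ∈ I, u (σ i w) := by
  have key : ∀ w : ℂ, ∃ c : ℝ, ∀ (s : Set ℂ) (I : Finset (Fin n))
      (σ : Fin n → ℂ → Matrix ι ι ℂ), Chart G Y s I σ → w ∈ s → c = ∑ i ∈ I, u (σ i w) := by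
    intro w
    by_cases h : ∃ (s : Set ℂ) (I : Finset (Fin n)) (σ : Fin n → ℂ → Matrix ι ι ℂ),
        Chart G Y s I σ ∧ w ∈ s
    · obtain ⟨s, I, σ, hC, hw⟩ := h
      exact ⟨_, fun s' I' σ' hC' hw' => grow_sum_eq hS u hu hC hC' hw hw'⟩
    · exact ⟨0, fun s I σ hC hw => absurd ⟨s, I, σ, hC, hw⟩ h⟩
  choose U hU using key
  exact ⟨U, fun s I σ hC w hw => hU w s I σ hC hw⟩

end M4.FP
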