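import Pool.Agent.Lib.MP_33b3f9_ag.M4.FP.Defs

/-!
Harnack inequality on a half plane.
-/

set_option autoImplicit false

namespace M4.FP

open Filter Topology Metric

theorem harn_ne {w : ℂ} (hw : ‖w‖ < 1) : w - 1 ≠ 0 := by
  intro h
  rw [sub_eq_zero.1 h, norm_one] at hw
  exact lt_irrefl _ hw

theorem harn_re {w : ℂ} (hw : ‖w‖ < 1) : ((w + 1) / (w - 1)).re < 0 := by
  have h1 : Complex.normSq w < 1 := by
    rw [Complex.normSq_eq_norm_sq]
    nlinarith [norm_nonneg w]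
  have h2 : 0 < Complex.normSq (w - 1) := Complex.normSq_pos.2 (harn_ne hw)
  rw [Complex.div_re, ← add_div]
  refine div_neg_of_neg_of_pos ?_ h2
  rw [Complex.normSq_apply] at h1
  simp only [Complex.add_re, Complex.sub_re, Complex.add_im, Complex.sub_im, Complex.one_re,
    Complex.one_im]
  nlinarith

theorem harn_conj_ne {a b : ℂ} (ha : 0 < a.im) (hb : 0 < b.im) : b - (starRingEnd ℂ) a ≠ 0 := by
  intro h
  have h1 := congrArg Complex.im h
  simp only [Complex.sub_im, Complex.conj_im, Complex.zero_im] at h1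
  linarith

theorem harn_le {a b : ℂ} (ha : 0 < a.im) (hb : 0 < b.im) :
    ‖(b - a) / (b - (starRingEnd ℂ) a)‖ ≤ 1 := by
  rw [norm_div]
  refine div_le_one_of_le₀ ?_ (norm_nonneg _)
  refine (abs_le_of_sq_le_sq' ?_ (norm_nonneg _)).2
  rw [← Complex.normSq_eq_norm_sq, ← Complex.normSq_eq_norm_sq, Complex.normSq_apply,
    Complex.normSq_apply]
  simp only [Complex.sub_re, Complex.sub_im, Complex.conj_re, Complex.conj_im]
  nlinarith [mul_pos ha hb]

theorem harn_schwarz {f : ℂ → ℂ} (hf : DifferentiableOn ℂ f {z | z.re < 0})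
    (hp : ∀ z : ℂ, z.re < 0 → 0 < (f z).im) {w : ℂ} (hw : ‖w‖ < 1) :
    ‖(f ((w + 1) / (w - 1)) - f (-1)) / (f ((w + 1) / (w - 1)) - (starRingEnd ℂ) (f (-1)))‖ ≤
      ‖w‖ := by
  have ha : 0 < (f (-1)).im := hp _ (by simp)
  have h1 : DifferentiableOn ℂ (fun w : ℂ => f ((w + 1) / (w - 1))) (ball 0 1) := by
    refine hf.comp (f := fun w : ℂ => (w + 1) / (w - 1)) ?_
      fun w hw => harn_re (mem_ball_zero_iff.1 hw)
    exact DifferentiableOn.div (by fun_prop) (by fun_prop)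
      fun w hw => harn_ne (mem_ball_zero_iff.1 hw)
  refine Complex.norm_le_norm_of_mapsTo_ball (R := 1) (f := fun w : ℂ =>
    (f ((w + 1) / (w - 1)) - f (-1)) / (f ((w + 1) / (w - 1)) - (starRingEnd ℂ) (f (-1))))
    ?_ ?_ ?_ hw
  · exact (h1.sub_const _).div (h1.sub_const _)
      fun w hw => harn_conj_ne ha (hp _ (harn_re (mem_ball_zero_iff.1 hw)))
  · intro w hw
    exact mem_closedBall_zero_iff.2 (harn_le ha (hp _ (harn_re (mem_ball_zero_iff.1 hw))))
  · have e : ((0 : ℂ) + 1) / (0 - 1) = -1 := by norm_num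
    simp only [e, sub_self, zero_div]

/-- Schwarz lemma for the Cayley transforms. With `q = ‖z + 1‖ / ‖z - 1‖` the constant is
`(1 + q) / (1 - q)`. -/
theorem harnack {f : ℂ → ℂ} (hf : DifferentiableOn ℂ f {z | z.re < 0})
    (hp : ∀ z : ℂ, z.re < 0 → 0 < (f z).im) {z : ℂ} (hz : z.re ≤ -1) (hi : |z.im| ≤ Real.pi) :
    (f (-1)).im ≤ 14 * (-z.re) * (f z).im := by
  have ha : 0 < (f (-1)).im := hp _ (by simp)
  have hb : 0 < (f z).im := hp _ (by linarith)
  have hz1 : z - 1 ≠ 0 := by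
    intro h
    rw [sub_eq_zero.1 h, Complex.one_re] at hz
    linarith
  have hD : 0 < ‖z - 1‖ := norm_pos_iff.2 hz1
  have e1 : ‖z - 1‖ ^ 2 = (z.re - 1) ^ 2 + z.im ^ 2 := by
    rw [← Complex.normSq_eq_norm_sq, Complex.normSq_apply]
    simp only [Complex.sub_re, Complex.sub_im, Complex.one_re, Complex.one_im]
    ring
  have e2 : ‖z + 1‖ ^ 2 = (z.re + 1) ^ 2 + z.im ^ 2 := by
    rw [← Complex.normSq_eq_norm_sq, Complex.normSq_apply]
    simp only [Complex.add_re, Complex.add_im, Complex.one_re, Complex.one_im]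
    ring
  have hw : ‖(z + 1) / (z - 1)‖ < 1 := by
    rw [norm_div, div_lt_one hD]
    refine (abs_lt_of_sq_lt_sq' ?_ hD.le).2
    rw [e1, e2]
    nlinarith
  have h1 := harn_schwarz hf hp hw
  have e3 : ((z + 1) / (z - 1) + 1) / ((z + 1) / (z - 1) - 1) = z := by
    rw [div_eq_iff (harn_ne hw)]
    field_simp
    ring
  rw [e3, norm_div, norm_div, div_le_div_iff₀ (norm_pos_iff.2 (harn_conj_ne ha hb)) hD] at h1
  have h2 := pow_le_pow_left₀ (by positivity) h1 2
  rw [mul_pow, mul_pow, e1, e2, ← Complex.normSq_eq_norm_sq, ← Complex.normSq_eq_norm_sq,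
    Complex.normSq_apply, Complex.normSq_apply] at h2
  simp only [Complex.sub_re, Complex.sub_im, Complex.conj_re, Complex.conj_im] at h2
  have hy : z.im ^ 2 ≤ 10 := by
    have a1 : z.im ^ 2 ≤ Real.pi ^ 2 := sq_le_sq' (abs_le.1 hi).1 (abs_le.1 hi).2
    nlinarith [Real.pi_lt_d2, Real.pi_pos]
  generalize (f (-1)).im = A at ha h2 ⊢
  generalize (f z).im = B at hb h2 ⊢
  generalize (f z).re - (f (-1)).re = x at h2
  obtain ⟨s, hs⟩ : ∃ s, z.re = -s := ⟨-z.re, by ring⟩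
  rw [hs] at hz h2 ⊢
  generalize z.im ^ 2 = y at hy h2
  have hs1 : 1 ≤ s := by linarith
  have h3 : s * (x * x + (A + B) ^ 2) ≤ ((s + 1) ^ 2 + y) * (A * B) := by linarith
  have h4 : (s + 1) ^ 2 + y ≤ 14 * s ^ 2 := by nlinarith
  have h5 : s * (A * A) ≤ s * (x * x + (A + B) ^ 2) :=
    mul_le_mul_of_nonneg_left (by nlinarith [mul_self_nonneg x, mul_pos ha hb]) (by linarith)
  have h6 := h5.trans (h3.trans (mul_le_mul_of_nonneg_right h4 (mul_pos ha hb).le))
  refine le_of_mul_le_mul_left ?_ (mul_pos (by linarith : 0 < s) ha)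
  linarith

end M4.FP
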