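import Pool.Agent.Lib.MP_33b3f9_ag.M4.FP.Sg

/-!
The positive form of a point of the Siegel space; proper discontinuity.
-/

set_option autoImplicit false

namespace M4.FP

open Matrix Filter Topology

variable {ι : Type} [Fintype ι] [DecidableEq ι]

theorem Pm_eq (τ : Matrix ι ι ℂ) : Pm τ =
    fromBlocks (τ.map Complex.im + τ.map Complex.re * (τ.map Complex.im)⁻¹ * τ.map Complex.re)
      (τ.map Complex.re * (τ.map Complex.im)⁻¹) ((τ.map Complex.im)⁻¹ * τ.map Complex.re)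
      (τ.map Complex.im)⁻¹ := by
  rw [Pm, cst, Matrix.J, fromBlocks_multiply]
  simp only [Matrix.zero_mul, Matrix.neg_mul, Matrix.one_mul, neg_neg, zero_add, add_zero]

theorem cst_eq (τ : Matrix ι ι ℂ) : cst τ = -(J ι ℝ * Pm τ) := by
  rw [Pm, ← Matrix.mul_assoc, J_squared, Matrix.neg_mul, Matrix.one_mul, neg_neg]

theorem Pm_I : Pm (Complex.I • (1 : Matrix ι ι ℂ)) = 1 := by
  have h1 : (Complex.I • (1 : Matrix ι ι ℂ)).map Complex.im = 1 := by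
    ext i j
    by_cases h : i = j <;> simp [h, Matrix.one_apply]
  have h2 : (Complex.I • (1 : Matrix ι ι ℂ)).map Complex.re = 0 := by
    ext i j
    by_cases h : i = j <;> simp [h]
  rw [Pm_eq, h1, h2]
  simp

theorem Pm_act {g : Matrix (ι ⊕ ι) (ι ⊕ ι) ℝ} (hg : g ∈ symplecticGroup ι ℝ) {τ : Matrix ι ι ℂ}
    (hτ : InH τ) : gᵀ * Pm (act g τ) * g = Pm τ := by
  rw [Pm, Pm, Matrix.mul_assoc, Matrix.mul_assoc, cst_act hg hτ, ← Matrix.mul_assoc,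
    ← Matrix.mul_assoc, SymplecticGroup.mem_iff'.1 hg]

theorem Pm_fac {τ : Matrix ι ι ℂ} (hτ : InH τ) : ∃ g ∈ symplecticGroup ι ℝ, Pm τ = gᵀ * g := by
  obtain ⟨g, hg, e⟩ := exists_act_I hτ
  exact ⟨g, hg, by rw [← Pm_act hg hτ, e, Pm_I, Matrix.mul_one]⟩

theorem continuousAt_Pm {τ : Matrix ι ι ℂ} (hτ : InH τ) :
    ContinuousAt (Pm : Matrix ι ι ℂ → _) τ := by
  have h : Continuous fun M : Matrix (ι ⊕ ι) (ι ⊕ ι) ℝ => J ι ℝ * M :=
    continuous_const.matrix_mul continuous_id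
  exact h.continuousAt.comp (continuousAt_cst hτ)

omit [DecidableEq ι] in
theorem pm_trace_nonneg (A : Matrix (ι ⊕ ι) (ι ⊕ ι) ℝ) : 0 ≤ (Aᵀ * A).trace :=
  Finset.sum_nonneg fun _ _ => Finset.sum_nonneg fun _ _ => mul_self_nonneg _

omit [DecidableEq ι] in
theorem pm_col_le (A : Matrix (ι ⊕ ι) (ι ⊕ ι) ℝ) (j : ι ⊕ ι) :
    ∑ a, A a j ^ 2 ≤ (Aᵀ * A).trace := by
  have h : ∀ b, (Aᵀ * A).diag b = ∑ a, A a b ^ 2 := fun b => by
    simp [Matrix.mul_apply, pow_two]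
  simp only [Matrix.trace, h]
  exact Finset.single_le_sum (f := fun b => ∑ a, A a b ^ 2)
    (fun _ _ => Finset.sum_nonneg fun _ _ => sq_nonneg _) (Finset.mem_univ j)

omit [DecidableEq ι] in
theorem pm_cs (A B : Matrix (ι ⊕ ι) (ι ⊕ ι) ℝ) (i j : ι ⊕ ι) :
    (A * B) i j ^ 2 ≤ (Bᵀ * B).trace * (A * Aᵀ).trace := by
  rw [Matrix.mul_apply, mul_comm]
  exact (Finset.sum_mul_sq_le_sq_mul_sq _ _ _).trans (mul_le_mul (pm_col_le Aᵀ i) (pm_col_le B j)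
    (Finset.sum_nonneg fun _ _ => sq_nonneg _) (pm_trace_nonneg Aᵀ))

/-- With `Pm τ = hᵀ h`, `Pm (g τ) = kᵀ k`: `k g h⁻¹` is orthogonal, the trace of `hᵀ h` is the
square of the Frobenius norm of `h`, which is also that of `h⁻¹ = - J hᵀ J`. -/
theorem entry_sq_le {g : Matrix (ι ⊕ ι) (ι ⊕ ι) ℝ} (hg : g ∈ symplecticGroup ι ℝ)
    {τ : Matrix ι ι ℂ} (hτ : InH τ) (i j : ι ⊕ ι) :
    g i j ^ 2 ≤ (Pm τ).trace * (Pm (act g τ)).trace := by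
  obtain ⟨k, hk, e⟩ := Pm_fac (inH_act hg hτ)
  have h1 : -(J ι ℝ * kᵀ * J ι ℝ) * (k * g) = g := by
    rw [← Matrix.mul_assoc, Matrix.neg_mul, Matrix.mul_assoc, Matrix.mul_assoc,
      ← Matrix.mul_assoc kᵀ, SymplecticGroup.mem_iff'.1 hk, J_squared, neg_neg, Matrix.one_mul]
  have h2 : (k * g)ᵀ * (k * g) = Pm τ := by
    rw [← Pm_act hg hτ, e, transpose_mul]
    simp only [Matrix.mul_assoc]
  have h3 : (-(J ι ℝ * kᵀ * J ι ℝ) * (-(J ι ℝ * kᵀ * J ι ℝ))ᵀ).trace = (Pm (act g τ)).trace := by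
    have h4 : -(J ι ℝ * kᵀ * J ι ℝ) * (-(J ι ℝ * kᵀ * J ι ℝ))ᵀ =
        J ι ℝ * (kᵀ * (J ι ℝ * J ι ℝ) * k * J ι ℝ) := by
      simp only [transpose_neg, transpose_mul, transpose_transpose, J_transpose, Matrix.neg_mul,
        Matrix.mul_neg, neg_neg, Matrix.mul_assoc]
    rw [h4, trace_mul_comm, Matrix.mul_assoc, J_squared, e]
    simp
  have h5 := pm_cs (-(J ι ℝ * kᵀ * J ι ℝ)) (k * g) i j
  rwa [h1, h2, h3] at h5

/-- Proper discontinuity. -/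
theorem pd {τ₀ τ₁ : Matrix ι ι ℂ} (h₀ : InH τ₀) (h₁ : InH τ₁) :
    ∃ S : Set (symplecticGroup ι ℤ), S.Finite ∧ ∀ᶠ p in 𝓝 (τ₀, τ₁), InH p.1 →
      ∀ g : symplecticGroup ι ℤ, az g p.1 = p.2 → g ∈ S := by
  have ht : Continuous fun M : Matrix (ι ⊕ ι) (ι ⊕ ι) ℝ => M.trace := continuous_id.matrix_trace
  have e0 : ∀ᶠ τ in 𝓝 τ₀, (Pm τ).trace < (Pm τ₀).trace + 1 :=
    (ht.continuousAt.comp (continuousAt_Pm h₀)).eventually_lt continuousAt_const (lt_add_one _)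
  have e1 : ∀ᶠ τ in 𝓝 τ₁, (Pm τ).trace < (Pm τ₁).trace + 1 :=
    (ht.continuousAt.comp (continuousAt_Pm h₁)).eventually_lt continuousAt_const (lt_add_one _)
  have hp : ∀ {τ : Matrix ι ι ℂ}, InH τ → 0 ≤ (Pm τ).trace := fun h => by
    obtain ⟨k, -, e⟩ := Pm_fac h
    rw [e]
    exact pm_trace_nonneg k
  obtain ⟨N, hN⟩ : ∃ N : ℤ, ((Pm τ₀).trace + 1) * ((Pm τ₁).trace + 1) ≤ N := ⟨_, Int.le_ceil _⟩
  refine ⟨Subtype.val ⁻¹' {M | ∀ i j, M i j ∈ Set.Icc (-N) N},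
    Set.Finite.preimage Subtype.val_injective.injOn
      (Set.Finite.pi' fun i => Set.Finite.pi' fun j => Set.finite_Icc (-N) N), ?_⟩
  filter_upwards [e0.prod_nhds e1] with p hp' h g e i j
  have h2 := entry_sq_le (cm_mem ℝ g) h i j
  have h3 : act (cm ℝ g) p.1 = p.2 := e
  have h4 := hp (inH_act (cm_mem ℝ g) h)
  rw [h3] at h2 h4
  have h5 : ((g.1 i j : ℤ) : ℝ) ^ 2 ≤ N :=
    (h2.trans (mul_le_mul hp'.1.le hp'.2.le h4 (add_nonneg (hp h₀) zero_le_one))).trans hN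
  have h6 : g.1 i j ^ 2 ≤ N := by exact_mod_cast h5
  have h7 : |g.1 i j| ≤ N := by
    rw [← sq_abs] at h6
    exact (Int.le_self_sq _).trans h6
  exact abs_le.1 h7

end M4.FP
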