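import Pool.Agent.Lib.MP_33b3f9_ag.M4.FP.Harn
import Pool.Agent.Lib.MP_33b3f9_ag.M4.FP.Pm

/-!
Harnack inequality for maps into the Siegel space.
-/

set_option autoImplicit false

namespace M4.FP

open Matrix Filter Topology Metric

/-- Inversion reverses the order of positive forms. -/
theorem inv_diag_le {α : Type} [Fintype α] [DecidableEq α] {Y Y₀ : Matrix α α ℝ} (hY : Y.PosDef)
    (hY₀ : Y₀.PosDef) {k : ℝ} (h : ∀ v : α → ℝ, v ⬝ᵥ Y₀ *ᵥ v ≤ k * (v ⬝ᵥ Y *ᵥ v)) (j : α) :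
    Y⁻¹ j j ≤ k * Y₀⁻¹ j j := by
  have hdY : IsUnit Y.det := hY.det_pos.ne'.isUnit
  have hdY₀ : IsUnit Y₀.det := hY₀.det_pos.ne'.isUnit
  have hs₀ : Y₀ᵀ = Y₀ := by simpa using hY₀.isHermitian.eq
  set e : α → ℝ := Pi.single j 1 with he
  have he0 : e ≠ 0 := fun h0 => by simpa [he] using congrFun h0 j
  have hk : 0 < k := by
    have h1 := hY₀.dotProduct_mulVec_pos he0
    have h2 := hY.dotProduct_mulVec_pos he0
    rw [star_trivial] at h1 h2
    exact (mul_pos_iff_of_pos_right h2).1 (h1.trans_le (h e))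
  set u := Y⁻¹ *ᵥ e with hu
  set w := Y₀⁻¹ *ᵥ e with hw
  have hYu : Y *ᵥ u = e := by rw [hu, mulVec_mulVec, mul_nonsing_inv _ hdY, one_mulVec]
  have hYw : Y₀ *ᵥ w = e := by rw [hw, mulVec_mulVec, mul_nonsing_inv _ hdY₀, one_mulVec]
  have hue : u ⬝ᵥ e = Y⁻¹ j j := by simp [hu, he]
  have hwe : w ⬝ᵥ e = Y₀⁻¹ j j := by simp [hw, he]
  have hwu : w ⬝ᵥ Y₀ *ᵥ u = Y⁻¹ j j := by
    rw [dotProduct_mulVec, ← mulVec_transpose, hs₀, hYw, dotProduct_comm, hue]
  have h1 := hY₀.posSemidef.dotProduct_mulVec_nonneg (u - k • w)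
  rw [star_trivial, mulVec_sub, mulVec_smul, hYw, sub_dotProduct, dotProduct_sub, dotProduct_sub,
    smul_dotProduct, smul_dotProduct, dotProduct_smul, dotProduct_smul, hue, hwe, hwu] at h1
  have h2 := h u
  rw [hYu, hue] at h2
  simp only [smul_eq_mul] at h1
  have h3 : k * Y⁻¹ j j ≤ k * (k * Y₀⁻¹ j j) := by linarith
  exact le_of_mul_le_mul_left h3 hk

variable {ι : Type} [Fintype ι] [DecidableEq ι]

theorem harnm_inv {f : ℂ → Matrix ι ι ℂ} (hf : HolOn f {z | z.re < 0})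
    (hH : ∀ z : ℂ, z.re < 0 → InH (f z)) {z : ℂ} (hz : z.re ≤ -1) (hi : |z.im| ≤ Real.pi) (j : ι) :
    ((f z).map Complex.im)⁻¹ j j ≤ 14 * (-z.re) * ((f (-1)).map Complex.im)⁻¹ j j := by
  refine inv_diag_le (hH z (by linarith)).2 (hH (-1) (by simp)).2 (fun v => ?_) j
  by_cases hv : v = 0
  · simp [hv]
  have him : ∀ w, (∑ a, (v a : ℂ) * ∑ b, f w a b * (v b : ℂ)).im =
      v ⬝ᵥ (f w).map Complex.im *ᵥ v := by
    intro w
    simp [dotProduct, mulVec, Complex.im_sum]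
  have key := harnack (f := fun w => ∑ a, (v a : ℂ) * ∑ b, f w a b * (v b : ℂ))
    (DifferentiableOn.fun_sum fun a _ => (DifferentiableOn.fun_sum fun b _ =>
      (hf a b).mul_const _).const_mul _)
    (fun w hw => by
      rw [him]
      simpa using (hH w hw).2.dotProduct_mulVec_pos hv) hz hi
  rwa [him, him] at key

theorem harnm_trace {τ : Matrix ι ι ℂ} (hτ : InH τ) : (Pm τ).trace =
    ∑ j, ((act (J ι ℝ) τ).map Complex.im)⁻¹ j j + ∑ j, (τ.map Complex.im)⁻¹ j j := by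
  rw [trace, Fintype.sum_sum_type]
  congr 1
  · refine Finset.sum_congr rfl fun j _ => ?_
    rw [← Pm_act (SymplecticGroup.J_mem ι ℝ) hτ, Pm_eq]
    simp [J, fromBlocks_transpose, fromBlocks_multiply]
  · refine Finset.sum_congr rfl fun j _ => ?_
    rw [Pm_eq]
    simp

/-- Apply `harnack` to `v ⬝ᵥ f z *ᵥ v`, and to the same expression for `act J (f z)`. -/
theorem harnack_trace {f : ℂ → Matrix ι ι ℂ} (hf : HolOn f {z | z.re < 0})
    (hH : ∀ z : ℂ, z.re < 0 → InH (f z)) {z : ℂ} (hz : z.re ≤ -1) (hi : |z.im| ≤ Real.pi) :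
    (Pm (f z)).trace ≤ 14 * (-z.re) * (Pm (f (-1))).trace := by
  have hJ := SymplecticGroup.J_mem ι ℝ
  rw [harnm_trace (hH z (by linarith)), harnm_trace (hH (-1) (by simp)), mul_add, Finset.mul_sum,
    Finset.mul_sum]
  exact add_le_add
    (Finset.sum_le_sum fun j _ => harnm_inv (holOn_act hJ hf hH)
      (fun w hw => inH_act hJ (hH w hw)) hz hi j)
    (Finset.sum_le_sum fun j _ => harnm_inv hf hH hz hi j)

end M4.FP
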