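import Pool.Agent.Lib.MP_33b3f9_ag.M4.FP.Defs

/-!
Second order expansions in one real variable.
-/

set_option autoImplicit false

namespace M4.FP

open Filter Topology Asymptotics

variable {F G : Type} [NormedAddCommGroup F] [NormedSpace ℝ F] [NormedAddCommGroup G]
  [NormedSpace ℝ G]

theorem Jet.const (a : F) : Jet (fun _ => a) a 0 0 := by
  simp [Jet]

theorem Jet.poly (a b c : F) : Jet (fun r => a + r • b + r ^ 2 • c) a b c := by
  simp [Jet]

theorem Jet.congr {f g : ℝ → F} {a b c : F} (h : Jet f a b c) (e : f =ᶠ[𝓝 0] g) :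
    Jet g a b c :=
  IsLittleO.congr' h (e.mono fun r hr => by simp only [hr]) EventuallyEq.rfl

theorem Jet.add {f g : ℝ → F} {a b c a' b' c' : F} (h : Jet f a b c) (h' : Jet g a' b' c') :
    Jet (fun r => f r + g r) (a + a') (b + b') (c + c') :=
  (IsLittleO.add h h').congr_left fun r => by module

theorem Jet.sum {α : Type} (s : Finset α) {f : α → ℝ → F} {a b c : α → F}
    (h : ∀ i ∈ s, Jet (f i) (a i) (b i) (c i)) :
    Jet (fun r => ∑ i ∈ s, f i r) (∑ i ∈ s, a i) (∑ i ∈ s, b i) (∑ i ∈ s, c i) :=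
  (IsLittleO.fun_sum h).congr_left fun r => by
    simp only [Finset.sum_sub_distrib, Finset.sum_add_distrib, Finset.smul_sum]

theorem Jet.clm (L : F →L[ℝ] G) {f : ℝ → F} {a b c : F} (h : Jet f a b c) :
    Jet (fun r => L (f r)) (L a) (L b) (L c) :=
  ((L.isBigO_comp _ _).trans_isLittleO h).congr_left fun r => by
    simp only [map_sub, map_add, map_smul]

theorem Jet.val {f : ℝ → F} {a b c : F} (h : Jet f a b c) : f 0 = a := by
  have h1 := (IsLittleO.isBigO h).eq_zero_imp.self_of_nhds (by simp)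
  simpa [sub_eq_zero] using h1

theorem Jet.hasDerivAt {f : ℝ → F} {a b c : F} (h : Jet f a b c) : HasDerivAt f b 0 := by
  have h1 : (fun r : ℝ => r ^ 2) =o[𝓝 0] fun r : ℝ => r := isLittleO_pow_id one_lt_two
  have h2 : (fun r : ℝ => r ^ 2 • c) =o[𝓝 0] fun r : ℝ => r := by
    simpa using h1.smul_isBigO (isBigO_const_const c (one_ne_zero' ℝ) _)
  refine hasDerivAt_iff_isLittleO_nhds_zero.2
    (((IsLittleO.trans h h1).add h2).congr_left fun r => ?_)
  rw [zero_add, h.val]
  abel

/-- An error term `o(r^2)` does not change the expansion. -/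
theorem Jet.of_sub {f g : ℝ → F} {a b c : F} (h : Jet f a b c)
    (e : (fun r => g r - f r) =o[𝓝 0] fun r : ℝ => r ^ 2) : Jet g a b c :=
  (e.add h).congr_left fun r => by abel

theorem Jet.isBigO {f : ℝ → F} {a b c : F} (h : Jet f a b c) :
    (fun r => f r - a) =O[𝓝 0] fun r : ℝ => r := by
  simpa only [h.val, sub_zero] using h.hasDerivAt.isBigO_sub

theorem jet_mul {R : Type} [NormedCommRing R] [NormedAlgebra ℝ R] {f g : ℝ → R}
    {a b c a' b' c' : R} (h : Jet f a b c) (h' : Jet g a' b' c') :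
    Jet (fun r => f r * g r) (a * a') (a * b' + b * a') (a * c' + b * b' + c * a') := by
  have h1 := IsLittleO.mul_isBigO h (h'.hasDerivAt.continuousAt.tendsto.isBigO_one ℝ)
  have h2 := ((Jet.poly a b c).hasDerivAt.continuousAt.tendsto.isBigO_one ℝ).mul_isLittleO h'
  have h3 : Continuous fun r : ℝ => b * c' + c * b' + r • (c * c') := by fun_prop
  have h4 := (isLittleO_pow_pow (𝕜 := ℝ) (show 2 < 3 by norm_num)).smul_isBigO
    ((h3.tendsto 0).isBigO_one ℝ)
  simp only [mul_one, one_mul, smul_eq_mul] at h1 h2 h4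
  refine ((h1.add h2).add h4).congr_left fun r => ?_
  simp only [Algebra.smul_def, map_pow]
  ring

theorem Jet.mul {f g : ℝ → ℂ} {a b c a' b' c' : ℂ} (h : Jet f a b c) (h' : Jet g a' b' c') :
    Jet (fun r => f r * g r) (a * a') (a * b' + b * a') (a * c' + b * b' + c * a') :=
  jet_mul h h'

/-- A holomorphic function along a real line. Use `f z = f s + (z - s) dslope f s z` twice, or the
power series of `f`. -/
theorem Jet.hol {f : ℂ → ℂ} {s : ℂ} (hf : AnalyticAt ℂ f s) :
    ∃ η : ℂ, ∀ ω : ℂ, Jet (fun r : ℝ => f (s + r * ω)) (f s) (ω * deriv f s) (ω ^ 2 * η) := by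
  obtain ⟨p, hp⟩ := hf
  have h1 := hasDerivAt_iff_isLittleO_nhds_zero.1
    hp.has_fpower_series_dslope_fslope.analyticAt.differentiableAt.hasDerivAt
  refine ⟨deriv (dslope f s) s, fun ω => ?_⟩
  have h2 : Tendsto (fun r : ℝ => (r : ℂ) * ω) (𝓝 0) (𝓝 0) :=
    Continuous.tendsto' (by fun_prop) _ _ (by simp)
  have h3 : (fun r : ℝ => (r : ℂ) * ω) =O[𝓝 0] fun r : ℝ => r :=
    IsBigO.of_bound ‖ω‖ (Eventually.of_forall fun r => by simp [mul_comm])
  refine (h3.mul_isLittleO ((h1.comp_tendsto h2).trans_isBigO h3)).congr (fun r => ?_)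
    fun r => (sq r).symm
  have h4 := sub_smul_dslope f s (s + r * ω)
  simp only [Function.comp, dslope_same, smul_eq_mul, Complex.real_smul, add_sub_cancel_left,
    Complex.ofReal_pow] at h4 ⊢
  linear_combination h4

theorem jet_log_aux :
    (fun x : ℝ => x + x ^ 2 / 2 + Real.log (1 - x)) =O[𝓝 0] fun x : ℝ => x ^ 3 := by
  refine IsBigO.of_bound 2 ?_
  filter_upwards [Metric.ball_mem_nhds (0 : ℝ) (show (0 : ℝ) < 1 / 2 by norm_num)] with x hx
  rw [mem_ball_zero_iff, Real.norm_eq_abs] at hx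
  have h := Real.abs_log_sub_add_sum_range_le (x := x) (by linarith) 2
  have e : (∑ i ∈ Finset.range 2, x ^ (i + 1) / (i + 1)) = x + x ^ 2 / 2 := by
    simp only [Finset.sum_range_succ, Finset.sum_range_zero]
    norm_num
  rw [e] at h
  rw [Real.norm_eq_abs, Real.norm_eq_abs, abs_pow]
  refine h.trans ?_
  rw [div_le_iff₀ (by linarith)]
  have h1 : 0 ≤ |x| ^ 3 * (1 - 2 * |x|) := mul_nonneg (by positivity) (by linarith)
  change |x| ^ 3 ≤ _
  linarith

/-- `log (1 + x) = x - x^2/2 + O(x^3)` (`Real.abs_log_sub_add_sum_range_le`). -/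
theorem Jet.log {f : ℝ → ℝ} {a b c : ℝ} (h : Jet f a b c) (ha : 0 < a) :
    Jet (fun r => Real.log (f r)) (Real.log a) (b / a) (c / a - b ^ 2 / (2 * a ^ 2)) := by
  have hx : Jet (fun r => 1 - f r / a) 0 (-(b / a)) (-(c / a)) :=
    (IsLittleO.const_mul_left h (-a⁻¹)).congr_left fun r => by
      simp only [smul_eq_mul]
      field_simp
      ring
  have h0 : Tendsto (fun r => 1 - f r / a) (𝓝 0) (𝓝 0) := by
    simpa only [hx.val] using hx.hasDerivAt.continuousAt.tendsto
  have h1 : (fun r => 1 - f r / a) =O[𝓝 0] fun r : ℝ => r := by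
    simpa only [sub_zero] using hx.isBigO
  have h2 := ((jet_log_aux.comp_tendsto h0).trans (h1.pow 3)).trans_isLittleO
    (isLittleO_pow_pow (𝕜 := ℝ) (show 2 < 3 by norm_num))
  have h3 := IsLittleO.const_mul_left (jet_mul hx hx) (-1 / 2)
  have h4 : ∀ᶠ r in 𝓝 0, f r ≠ 0 :=
    h.hasDerivAt.continuousAt.eventually_ne (by rw [h.val]; exact ha.ne')
  refine ((h2.sub hx).add h3).congr' (h4.mono fun r hr => ?_) EventuallyEq.rfl
  simp only [Function.comp, sub_sub_cancel, Real.log_div hr ha.ne', smul_eq_mul]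
  field_simp
  ring

end M4.FP
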