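import Pool.Agent.Lib.MP_33b3f9_ag.M4.FP.Jet

/-!
The five point Laplacian.
-/

set_option autoImplicit false

namespace M4.FP

open Filter Topology Asymptotics

theorem lap_sym {f : ℝ → ℝ} {a b c : ℝ} (h : Jet f a b c) :
    Tendsto (fun r : ℝ => (f r + f (-r) - 2 * f 0) / r ^ 2) (𝓝[≠] 0) (𝓝 (2 * c)) := by
  have h0 : Tendsto (fun r : ℝ => -r) (𝓝 0) (𝓝 0) := by
    simpa using (continuous_neg (G := ℝ)).tendsto 0
  have h1 := h.tendsto_div_nhds_zero
  have h2 := ((h1.add (h1.comp h0)).add_const (2 * c)).mono_left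
    (nhdsWithin_le_nhds (s := {0}ᶜ))
  rw [add_zero, zero_add] at h2
  refine h2.congr' (eventually_nhdsWithin_of_forall fun r hr => ?_)
  have hr : r ≠ 0 := hr
  simp only [Function.comp_apply, smul_eq_mul, h.val]
  field_simp
  ring

theorem lap_ev {p : ℂ → Prop} {s : ℂ} (e : ∀ᶠ z in 𝓝 s, p z) : ∀ᶠ r : ℝ in 𝓝[≠] 0,
    p (s + r) ∧ p (s - r) ∧ p (s + r * Complex.I) ∧ p (s - r * Complex.I) := by
  have h : ∀ f : ℝ → ℂ, Continuous f → f 0 = s → ∀ᶠ r : ℝ in 𝓝[≠] 0, p (f r) := fun f hf h0 =>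
    ((hf.tendsto' 0 s h0).mono_left nhdsWithin_le_nhds).eventually e
  exact (h _ (by fun_prop) (by simp)).and ((h _ (by fun_prop) (by simp)).and
    ((h _ (by fun_prop) (by simp)).and (h _ (by fun_prop) (by simp))))

theorem Lap.of_jet {u : ℂ → ℝ} {s : ℂ} {a b c a' b' c' : ℝ}
    (h : Jet (fun r : ℝ => u (s + r * 1)) a b c)
    (h' : Jet (fun r : ℝ => u (s + r * Complex.I)) a' b' c') : Lap u s (2 * (c + c')) := by
  have h1 := (lap_sym h).add (lap_sym h')
  rw [← mul_add] at h1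
  refine h1.congr fun r => ?_
  simp only [mul_one, Complex.ofReal_neg, Complex.ofReal_zero, neg_mul, zero_mul, add_zero,
    ← sub_eq_add_neg]
  ring

theorem Lap.unique {u : ℂ → ℝ} {s : ℂ} {c d : ℝ} (h : Lap u s c) (h' : Lap u s d) : c = d := by
  exact tendsto_nhds_unique h h'

theorem Lap.congr {u v : ℂ → ℝ} {s : ℂ} {c : ℝ} (h : Lap u s c) (e : u =ᶠ[𝓝 s] v) :
    Lap v s c := by
  refine Tendsto.congr' ?_ h
  filter_upwards [lap_ev e] with r hr
  rw [hr.1, hr.2.1, hr.2.2.1, hr.2.2.2, e.self_of_nhds]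

theorem Lap.add {u v : ℂ → ℝ} {s : ℂ} {c d : ℝ} (h : Lap u s c) (h' : Lap v s d) :
    Lap (fun z => u z + v z) s (c + d) := by
  refine (Tendsto.add h h').congr fun r => ?_
  ring

theorem Lap.const_mul {u : ℂ → ℝ} {s : ℂ} {c : ℝ} (h : Lap u s c) (k : ℝ) :
    Lap (fun z => k * u z) s (k * c) := by
  refine (Tendsto.const_mul k h).congr fun r => ?_
  ring

theorem Lap.sum {α : Type} (t : Finset α) {u : α → ℂ → ℝ} {s : ℂ} {c : α → ℝ}
    (h : ∀ i ∈ t, Lap (u i) s (c i)) : Lap (fun z => ∑ i ∈ t, u i z) s (∑ i ∈ t, c i) := by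
  refine (tendsto_finsetSum t h).congr fun r => ?_
  simp only [← Finset.sum_div, Finset.sum_sub_distrib, Finset.sum_add_distrib, Finset.mul_sum]

theorem Lap.eq_zero {u : ℂ → ℝ} {s : ℂ} {c : ℝ} (h : Lap u s c) (e : ∀ᶠ z in 𝓝 s, u z = u s) :
    c = 0 := by
  refine tendsto_nhds_unique h (tendsto_const_nhds.congr' ?_)
  filter_upwards [lap_ev e] with r hr
  rw [hr.1, hr.2.1, hr.2.2.1, hr.2.2.2]
  ring

theorem Lap.nonpos {u : ℂ → ℝ} {s : ℂ} {c : ℝ} (h : Lap u s c) (e : IsLocalMax u s) : c ≤ 0 := by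
  refine le_of_tendsto h ?_
  filter_upwards [lap_ev e] with r hr
  exact div_nonpos_of_nonpos_of_nonneg (by linarith [hr.1, hr.2.1, hr.2.2.1, hr.2.2.2])
    (sq_nonneg r)

theorem lap_normSq (s : ℂ) : Lap (fun z => ‖z‖ ^ 2) s 4 := by
  refine tendsto_const_nhds.congr' (eventually_nhdsWithin_of_forall fun r hr => ?_)
  have hr : r ≠ 0 := hr
  simp only [Complex.sq_norm, Complex.normSq_apply]
  rw [eq_div_iff (pow_ne_zero 2 hr)]
  simp
  ring

theorem lap_log {s b : ℂ} (h : s ≠ b) : Lap (fun z => Real.log ‖z - b‖) s 0 := by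
  have hN : 0 < (s - b).re ^ 2 + (s - b).im ^ 2 := by
    rw [sq, sq, ← Complex.normSq_apply]
    exact Complex.normSq_pos.2 (sub_ne_zero.2 h)
  have h1 := (Jet.poly _ (2 * (s - b).re) 1).log hN
  have h2 := (Jet.poly _ (2 * (s - b).im) 1).log hN
  have h3 := (Lap.of_jet (u := fun z => Real.log (‖z - b‖ ^ 2)) (s := s)
    (h1.congr (Eventually.of_forall fun r => congrArg Real.log ?_))
    (h2.congr (Eventually.of_forall fun r => congrArg Real.log ?_))).const_mul (1 / 2)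
  · convert h3 using 1
    · funext z
      rw [Real.log_pow]
      ring
    · field_simp
      ring
  · simp only [Complex.sq_norm, Complex.normSq_apply]
    simp
    ring
  · simp only [Complex.sq_norm, Complex.normSq_apply]
    simp
    ring

end M4.FP
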