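import Pool.Agent.Lib.MP_33b3f9_ag.M4.FP.Lap

/-!
Maximum principle and the theorem of Liouville for subharmonic functions of slow growth.
-/

set_option autoImplicit false

namespace M4.FP

open Filter Topology Metric

/-- Weak maximum principle: add `ε ‖z‖ ^ 2`. -/
theorem weak_max {u : ℂ → ℝ} {A : Set ℂ} (hA : IsCompact A) (hu : ContinuousOn u A)
    (hL : ∀ s ∈ interior A, ∃ c, 0 ≤ c ∧ Lap u s c) {M : ℝ}
    (hM : ∀ s ∈ A, s ∉ interior A → u s ≤ M) : ∀ s ∈ A, u s ≤ M := by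
  intro s hs
  obtain ⟨R, hR⟩ := hA.isBounded.exists_norm_le
  have key : ∀ ε > 0, u s ≤ M + ε * R ^ 2 := by
    intro ε hε
    have hc : ContinuousOn (fun z : ℂ => u z + ε * ‖z‖ ^ 2) A := hu.add (by fun_prop)
    obtain ⟨z, hz, hmax⟩ := hA.exists_isMaxOn ⟨s, hs⟩ hc
    have hzi : z ∉ interior A := by
      intro hi
      obtain ⟨c, hc0, hc1⟩ := hL z hi
      have h1 := (hc1.add ((lap_normSq z).const_mul ε)).nonpos
        (hmax.isLocalMax (mem_interior_iff_mem_nhds.1 hi))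
      linarith
    have h1 : u s + ε * ‖s‖ ^ 2 ≤ u z + ε * ‖z‖ ^ 2 := hmax hs
    have h2 : ‖z‖ ^ 2 ≤ R ^ 2 := pow_le_pow_left₀ (norm_nonneg _) (hR z hz) 2
    have h3 := hM z hz hzi
    have h4 : 0 ≤ ε * ‖s‖ ^ 2 := by positivity
    have h5 := mul_le_mul_of_nonneg_left h2 hε.le
    linarith
  refine le_of_forall_pos_le_add fun δ hδ => ?_
  have hp : 0 < R ^ 2 + 1 := by positivity
  have h1 := key (δ / (R ^ 2 + 1)) (by positivity)
  have h2 : δ / (R ^ 2 + 1) * R ^ 2 ≤ δ := by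
    rw [div_mul_eq_mul_div, div_le_iff₀ hp]
    nlinarith
  linarith

theorem liou_ext {g : ℂ → ℝ} (B : Finset ℂ) (s₁ : ℂ) {ρ M : ℝ} (hρ : 0 < ρ)
    (hg : ∀ z ∉ B, z ≠ s₁ → ContinuousAt g z)
    (hL : ∀ z ∉ B, z ≠ s₁ → ∃ c, 0 ≤ c ∧ Lap g z c)
    (hb : ∀ b ∈ B, ∀ᶠ z in 𝓝[≠] b, g z ≤ M) (hi : ∀ᶠ z in cocompact ℂ, g z ≤ M)
    (hs : ∀ z, ‖z - s₁‖ = ρ → g z ≤ M) : ∀ s ∉ B, ρ ≤ ‖s - s₁‖ → g s ≤ M := by
  have hb' : ∀ b ∈ B, ∃ r > 0, ∀ z, ‖z - b‖ ≤ r → z ≠ b → g z ≤ M := by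
    intro b hbB
    have := hb b hbB
    rw [eventually_nhdsWithin_iff, Metric.eventually_nhds_iff] at this
    obtain ⟨r, hr, h⟩ := this
    exact ⟨r / 2, by positivity, fun z hz hne => h (by rw [dist_eq_norm]; linarith) hne⟩
  choose! r hr0 hr using hb'
  obtain ⟨K, hK, hK'⟩ := mem_cocompact.1 hi
  obtain ⟨R, hR⟩ := hK.isBounded.exists_norm_le
  have hout : ∀ z : ℂ, R + 1 ≤ ‖z‖ → g z ≤ M := fun z hz =>
    hK' (fun h => by have := hR z h; linarith)
  set A : Set ℂ := closedBall 0 (R + 1) ∩ ({z | ρ ≤ ‖z - s₁‖} ∩ ⋂ b ∈ B, {z | r b ≤ ‖z - b‖})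
    with hAdef
  have hmem : ∀ z, z ∈ A ↔ ‖z‖ ≤ R + 1 ∧ ρ ≤ ‖z - s₁‖ ∧ ∀ b ∈ B, r b ≤ ‖z - b‖ := by
    intro z; simp [hAdef]
  have hA : IsCompact A := (isCompact_closedBall _ _).inter_right
    ((isClosed_le continuous_const (by fun_prop)).inter
      (isClosed_biInter fun b _ => isClosed_le continuous_const (by fun_prop)))
  have hAB : ∀ z ∈ A, z ∉ B ∧ z ≠ s₁ := by
    intro z hz
    obtain ⟨-, h2, h3⟩ := (hmem z).1 hz
    refine ⟨fun h => ?_, fun h => ?_⟩
    · have := h3 z h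
      have := hr0 z h
      simp at *; linarith
    · rw [h] at h2; simp at h2; linarith
  have hmain := weak_max hA (fun z hz => (hg z (hAB z hz).1 (hAB z hz).2).continuousWithinAt)
    (fun z hz => hL z (hAB z (interior_subset hz)).1 (hAB z (interior_subset hz)).2) (M := M) (by
      intro z hz hzi
      obtain ⟨h1, h2, h3⟩ := (hmem z).1 hz
      by_contra hlt
      apply hzi
      have hO : IsOpen ({z : ℂ | ‖z‖ < R + 1} ∩ ({z | ρ < ‖z - s₁‖} ∩
          ⋂ b ∈ B, {z | r b < ‖z - b‖})) :=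
        (isOpen_lt (by fun_prop) continuous_const).inter
          ((isOpen_lt continuous_const (by fun_prop)).inter
            (isOpen_biInter_finset fun b _ => isOpen_lt continuous_const (by fun_prop)))
      refine interior_maximal (fun w hw => ?_) hO ⟨?_, ?_, ?_⟩
      · simp only [Set.mem_inter_iff, Set.mem_ofPred_eq, Set.mem_iInter] at hw
        exact (hmem w).2 ⟨hw.1.le, hw.2.1.le, fun b hb => (hw.2.2 b hb).le⟩
      · exact lt_of_not_ge fun h => hlt (hout z h)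
      · exact lt_of_le_of_ne h2 fun h => hlt (hs z h.symm)
      · simp only [Set.mem_ofPred_eq, Set.mem_iInter]
        exact fun b hb => lt_of_not_ge fun h => hlt (hr b hb z h fun e => (hAB z hz).1 (e ▸ hb)))
  intro s hsB hsρ
  by_cases hsA : s ∈ A
  · exact hmain s hsA
  · rw [hmem] at hsA
    by_contra hlt
    exact hsA ⟨(lt_of_not_ge fun h => hlt (hout s h)).le, hsρ, fun b hb =>
      (lt_of_not_ge fun h => hlt (hr b hb s h fun e => hsB (e ▸ hb))).le⟩

theorem liou_cont_log {z b : ℂ} (h : z ≠ b) : ContinuousAt (fun w => Real.log ‖w - b‖) z :=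
  ContinuousAt.log (by fun_prop) (norm_ne_zero_iff.2 (sub_ne_zero.2 h))

/-- Barrier `η ∑ log ‖z - b‖ - η (card B + 1) log ‖z - s₁‖` outside a small disc around `s₁`. -/
theorem liouville {u : ℂ → ℝ} (B : Finset ℂ) (hu : ContinuousOn u (↑B)ᶜ)
    (hL : ∀ s ∉ B, ∃ c, 0 ≤ c ∧ Lap u s c)
    (hb : ∀ b ∈ B, ∀ η > 0, ∃ C : ℝ, ∀ᶠ z in 𝓝[≠] b, u z ≤ C - η * Real.log ‖z - b‖)
    (hi : ∀ η > 0, ∃ C : ℝ, ∀ᶠ z in cocompact ℂ, u z ≤ C + η * Real.log ‖z‖) :
    ∀ s ∉ B, ∀ s₁ ∉ B, u s ≤ u s₁ := by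
  classical
  intro s hs s₁ hs₁
  rcases eq_or_ne s s₁ with rfl | hne
  · exact le_rfl
  have hO : IsOpen ((↑B)ᶜ : Set ℂ) := B.finite_toSet.isClosed.isOpen_compl
  have hua : ∀ z ∉ B, ContinuousAt u z := fun z hz => hu.continuousAt (hO.mem_nhds hz)
  let h : ℂ → ℝ := fun z => ∑ b ∈ B, Real.log ‖z - b‖ + -((B.card : ℝ) + 1) * Real.log ‖z - s₁‖
  have hhc : ∀ z ∉ B, z ≠ s₁ → ContinuousAt h z := fun z hz hz1 =>
    (tendsto_finsetSum _ fun b hb => liou_cont_log (z := z) (b := b) fun e => hz (e ▸ hb)).add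
      ((liou_cont_log hz1).const_mul _)
  have hhL : ∀ z ∉ B, z ≠ s₁ → Lap h z 0 := by
    intro z hz hz1
    have := (Lap.sum B (c := fun _ => 0) fun b hb => lap_log (s := z) (b := b)
      fun e => hz (e ▸ hb)).add ((lap_log hz1).const_mul (-((B.card : ℝ) + 1)))
    rwa [Finset.sum_const_zero, mul_zero, add_zero] at this
  refine le_of_forall_pos_le_add fun δ hδ => ?_
  have hev : ∀ᶠ z in 𝓝 s₁, z ∉ B ∧ u z < u s₁ + δ :=
    (show ∀ᶠ z in 𝓝 s₁, z ∉ B from hO.mem_nhds hs₁).and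
      ((hua s₁ hs₁).eventually_lt_const (by linarith))
  obtain ⟨r, hr0, hr⟩ := Metric.eventually_nhds_iff.1 hev
  have hss : 0 < ‖s - s₁‖ := norm_pos_iff.2 (sub_ne_zero.2 hne)
  set ρ := min (r / 2) ‖s - s₁‖ with hρdef
  have hρ : 0 < ρ := lt_min (by positivity) hss
  have hsph : ∀ z ∈ sphere s₁ ρ, z ∉ B ∧ z ≠ s₁ ∧ u z < u s₁ + δ := by
    intro z hz
    have h1 : dist z s₁ = ρ := hz
    have h2 : dist z s₁ < r := by
      have : ρ ≤ r / 2 := min_le_left _ _
      linarith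
    refine ⟨(hr h2).1, fun e => ?_, (hr h2).2⟩
    rw [e, dist_self] at h1
    exact hρ.ne h1
  obtain ⟨Kc, hKc⟩ := (isCompact_sphere s₁ ρ).bddAbove_image (f := h)
    fun z hz => (hhc z (hsph z hz).1 (hsph z hz).2.1).continuousWithinAt
  have key : ∀ η > 0, u s + η * h s ≤ u s₁ + δ + η * Kc := by
    intro η hη
    refine liou_ext (g := fun z => u z + η * h z) B s₁ hρ
      (fun z hz hz1 => (hua z hz).add ((hhc z hz hz1).const_mul η)) (fun z hz hz1 => ?_)
      (fun b hbB => ?_) ?_ (fun z hz => ?_) s hs (min_le_right _ _)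
    · obtain ⟨c, hc0, hc⟩ := hL z hz
      exact ⟨c + η * 0, by simpa using hc0, hc.add ((hhL z hz hz1).const_mul η)⟩
    · obtain ⟨C, hC⟩ := hb b hbB (η / 2) (by positivity)
      let w : ℂ → ℝ := fun z => ∑ b' ∈ B.erase b, Real.log ‖z - b'‖ +
        -((B.card : ℝ) + 1) * Real.log ‖z - s₁‖
      have hw : ContinuousAt w b :=
        (tendsto_finsetSum _ fun b' hb' => liou_cont_log (Finset.ne_of_mem_erase hb').symm).add
          ((liou_cont_log (z := b) (b := s₁) fun e => hs₁ (e ▸ hbB)).const_mul _)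
      have hw' : ∀ᶠ z in 𝓝[≠] b, w z < w b + 1 :=
        (hw.eventually_lt_const (by linarith)).filter_mono nhdsWithin_le_nhds
      have hl : Tendsto (fun z => Real.log ‖z - b‖) (𝓝[≠] b) atBot :=
        Real.tendsto_log_nhdsGT_zero.comp (tendsto_norm_sub_self_nhdsNE b)
      filter_upwards [hC, hw', hl.eventually_le_atBot
        ((u s₁ + δ + η * Kc - C - η * (w b + 1)) / (η / 2))] with z h1 h2 h3
      have h4 : h z = Real.log ‖z - b‖ + w z := by
        simp only [h, w]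
        rw [← Finset.add_sum_erase B _ hbB, add_assoc]
      rw [le_div_iff₀ (by positivity)] at h3
      have h5 := mul_le_mul_of_nonneg_left h2.le hη.le
      rw [h4]
      nlinarith
    · obtain ⟨C, hC⟩ := hi (η / 2) (by positivity)
      have hn : Tendsto (fun z : ℂ => ‖z‖) (cocompact ℂ) atTop := tendsto_norm_cocompact_atTop
      have hl : Tendsto (fun z : ℂ => Real.log ‖z‖) (cocompact ℂ) atTop :=
        Real.tendsto_log_atTop.comp hn
      have hB : ∀ᶠ z : ℂ in cocompact ℂ, ∀ b ∈ B, ‖b‖ < ‖z‖ :=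
        (eventually_all_finset B).2 fun b _ => hn.eventually_gt_atTop _
      filter_upwards [hC, hB, hn.eventually_gt_atTop (2 * ‖s₁‖), hl.eventually_ge_atTop
        ((C + η * ((2 * B.card + 1) * Real.log 2) - (u s₁ + δ + η * Kc)) / (η / 2))]
        with z h1 h2 h3 h4
      have hz0 : 0 < ‖z‖ := lt_of_le_of_lt (by positivity) h3
      have h5 : ∑ b ∈ B, Real.log ‖z - b‖ ≤ B.card * (Real.log 2 + Real.log ‖z‖) := by
        rw [← nsmul_eq_mul]
        refine Finset.sum_le_card_nsmul _ _ _ fun b hbB => ?_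
        rw [← Real.log_mul two_ne_zero hz0.ne']
        have := h2 b hbB
        refine Real.log_le_log (norm_pos_iff.2 (sub_ne_zero.2 fun e => ?_)) ?_
        · rw [e] at this; exact lt_irrefl _ this
        · have := norm_sub_le z b
          linarith
      have h6 : Real.log ‖z‖ - Real.log 2 ≤ Real.log ‖z - s₁‖ := by
        rw [← Real.log_div hz0.ne' two_ne_zero]
        refine Real.log_le_log (by positivity) ?_
        have := norm_sub_norm_le z s₁
        linarith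
      have h7 : h z ≤ (2 * B.card + 1) * Real.log 2 - Real.log ‖z‖ := by
        have h8 := mul_le_mul_of_nonneg_left h6 (show (0 : ℝ) ≤ B.card + 1 by positivity)
        simp only [h]
        linarith
      rw [div_le_iff₀ (by positivity)] at h4
      have h9 := mul_le_mul_of_nonneg_left h7 hη.le
      nlinarith
    · have hz' : z ∈ sphere s₁ ρ := by rwa [mem_sphere, dist_eq_norm]
      have h1 := (hsph z hz').2.2
      have h2 := mul_le_mul_of_nonneg_left (hKc ⟨z, hz', rfl⟩) hη.le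
      linarith
  refine le_of_forall_pos_le_add fun ε hε => ?_
  have hp : 0 < |Kc - h s| + 1 := by positivity
  have h1 := key (ε / (|Kc - h s| + 1)) (by positivity)
  have h2 : ε / (|Kc - h s| + 1) * (Kc - h s) ≤ ε := by
    rw [div_mul_eq_mul_div, div_le_iff₀ hp]
    have := le_abs_self (Kc - h s)
    nlinarith
  linarith

end M4.FP
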