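import Pool.Agent.Lib.MP_33b3f9_ag.M4.FP.Defs

/-!
Algebra of tensor powers of matrices.
-/

set_option autoImplicit false

namespace M4.FP

open Matrix

variable {κ ν R : Type} [Fintype κ] [DecidableEq κ] [Fintype ν] [DecidableEq ν] [CommRing R]

/-- `Finset.prod_univ_sum`, `Fintype.piFinset_univ`. -/
theorem Kf_mul (g h : κ → Matrix ν ν R) : Kf g * Kf h = Kf (fun i => g i * h i) := by
  ext a b
  simp only [Kf, mul_apply, of_apply, Finset.prod_univ_sum, Fintype.piFinset_univ,
    Finset.prod_mul_distrib]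

theorem Kf_one : Kf (fun _ : κ => (1 : Matrix ν ν R)) = 1 := by
  ext a b
  simp only [Kf, of_apply, one_apply, Finset.prod_ite_zero, Finset.prod_const_one,
    Finset.mem_univ, true_imp_iff, funext_iff]

theorem K_mul (g h : Matrix ν ν R) : K κ (g * h) = K κ g * K κ h := by
  exact (Kf_mul _ _).symm

theorem K_one : K κ (1 : Matrix ν ν R) = 1 := by
  exact Kf_one

theorem K_transpose (g : Matrix ν ν R) : K κ gᵀ = (K κ g)ᵀ := by
  rfl

theorem K_map {S : Type} [CommRing S] (f : R →+* S) (g : Matrix ν ν R) :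
    K κ (g.map f) = (K κ g).map f := by
  ext a b
  simp only [K, Kf, of_apply, map_apply, map_prod]

theorem K_conjTranspose (g : Matrix ν ν ℂ) : K κ gᴴ = (K κ g)ᴴ := by
  ext a b
  simp only [K, Kf, of_apply, conjTranspose_apply, star_prod]

theorem phi_mul (i : κ) (X Y : Matrix ν ν R) : phi i (X * Y) = phi i X * phi i Y := by
  rw [phi, phi, phi, Kf_mul]
  congr 1
  funext j
  rcases eq_or_ne j i with rfl | h
  · simp
  · simp [h]

theorem phi_one (i : κ) : phi i (1 : Matrix ν ν R) = 1 := by
  rw [phi, Function.update_eq_self, Kf_one]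

/-- The entries of `phi i X`. -/
theorem phi_apply (i : κ) (X : Matrix ν ν R) (a b : κ → ν) :
    phi i X a b = X (a i) (b i) * ∏ j ∈ Finset.univ.erase i, (1 : Matrix ν ν R) (a j) (b j) := by
  rw [phi, Kf, of_apply, ← Finset.mul_prod_erase _ _ (Finset.mem_univ i), Function.update_self]
  congr 1
  exact Finset.prod_congr rfl fun j hj => by rw [Function.update_of_ne (Finset.ne_of_mem_erase hj)]

theorem phi_add (i : κ) (X Y : Matrix ν ν R) : phi i (X + Y) = phi i X + phi i Y := by
  ext a b
  simp only [phi_apply, Matrix.add_apply, add_mul]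

theorem phi_smul (i : κ) (c : R) (X : Matrix ν ν R) : phi i (c • X) = c • phi i X := by
  ext a b
  simp only [phi_apply, Matrix.smul_apply, smul_eq_mul, mul_assoc]

theorem phi_comm {i j : κ} (h : i ≠ j) (X Y : Matrix ν ν R) : Commute (phi i X) (phi j Y) := by
  rw [Commute, SemiconjBy, phi, phi, Kf_mul, Kf_mul]
  congr 1
  funext k
  rcases eq_or_ne k i with rfl | h1
  · simp [h]
  · simp [h1]

/-- Splitting off one slot. -/
theorem Kf_insert (s : Finset κ) {i : κ} (hi : i ∉ s) (g : Matrix ν ν R) :
    Kf (fun j => if j ∈ insert i s then g else 1) =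
      phi i g * Kf (fun j => if j ∈ s then g else 1) := by
  rw [phi, Kf_mul]
  congr 1
  funext j
  rcases eq_or_ne j i with rfl | h
  · simp [hi]
  · simp [h]

theorem dK_add (X Y : Matrix ν ν R) : dK κ (X + Y) = dK κ X + dK κ Y := by
  simp only [dK, phi_add, Finset.sum_add_distrib]

theorem dK_smul (c : R) (X : Matrix ν ν R) : dK κ (c • X) = c • dK κ X := by
  simp only [dK, phi_smul, Finset.smul_sum]

theorem dK_zero : dK κ (0 : Matrix ν ν R) = 0 := by
  rw [← zero_smul R (0 : Matrix ν ν R), dK_smul, zero_smul]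

theorem dK_conj {g g' : Matrix ν ν R} (h : g * g' = 1) (X : Matrix ν ν R) :
    dK κ (g * X * g') = K κ g * dK κ X * K κ g' := by
  rw [dK, dK, Finset.mul_sum, Finset.sum_mul]
  refine Finset.sum_congr rfl fun i _ => ?_
  rw [phi, phi, K, K, Kf_mul, Kf_mul]
  congr 1
  funext j
  rcases eq_or_ne j i with rfl | h1
  · simp
  · simp [h1, h]

theorem dK_conjTranspose (X : Matrix ν ν ℂ) : dK κ Xᴴ = (dK κ X)ᴴ := by
  rw [dK, dK, conjTranspose_sum]
  refine Finset.sum_congr rfl fun i _ => ?_
  ext a b
  simp only [phi_apply, conjTranspose_apply, star_mul', star_prod, one_apply, apply_ite star,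
    star_one, star_zero, eq_comm]

/-- `Commute.isNilpotent_sum`. -/
theorem dK_nilp {X : Matrix ν ν R} (h : X * X = 0) : IsNilpotent (dK κ X) := by
  refine Commute.isNilpotent_sum (fun i _ => ⟨2, ?_⟩) fun i j _ _ => ?_
  · rw [sq, ← phi_mul, h, ← zero_smul R (0 : Matrix ν ν R), phi_smul, zero_smul]
  · rcases eq_or_ne i j with rfl | e
    · exact Commute.refl _
    · exact phi_comm e X X

/-- The tensor power of a continuous family is continuous. -/
theorem continuous_K : Continuous (fun g : Matrix ν ν ℂ => K κ g) := by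
  refine continuous_matrix fun a b => ?_
  simp only [K, Kf, of_apply]
  fun_prop

end M4.FP
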