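import Pool.Agent.Lib.MP_33b3f9_ag.M4.FP.Pm
import Pool.Agent.Lib.MP_33b3f9_ag.M4.FP.Ten

/-!
The norm of a tensor.
-/

set_option autoImplicit false

namespace M4.FP

open Matrix Filter Topology

variable {ι : Type} [Fintype ι] [DecidableEq ι]

variable {κ : Type} [Fintype κ] [DecidableEq κ]

theorem nf_map_mul {ν : Type} [Fintype ν] (A B : Matrix ν ν ℝ) :
    (A * B).map Complex.ofReal = A.map Complex.ofReal * B.map Complex.ofReal :=
  Matrix.map_mul (f := Complex.ofRealHom)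

theorem nf_map_one {ν : Type} [DecidableEq ν] :
    (1 : Matrix ν ν ℝ).map Complex.ofReal = 1 :=
  Matrix.map_one _ Complex.ofReal_zero Complex.ofReal_one

theorem nf_conj {ν : Type} [Fintype ν] [DecidableEq ν] (g P : Matrix ν ν ℝ) (t : (κ → ν) → ℂ) :
    star (K κ (g.map Complex.ofReal) *ᵥ t) ⬝ᵥ K κ (P.map Complex.ofReal) *ᵥ
      (K κ (g.map Complex.ofReal) *ᵥ t) = star t ⬝ᵥ K κ ((gᵀ * P * g).map Complex.ofReal) *ᵥ t := by
  have h : (g.map Complex.ofReal)ᴴ = gᵀ.map Complex.ofReal := by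
    ext i j
    simp
  rw [star_mulVec, ← dotProduct_mulVec, mulVec_mulVec, mulVec_mulVec, ← K_conjTranspose, h,
    nf_map_mul, nf_map_mul, K_mul, K_mul]

theorem nf_entry {ν : Type} [Fintype ν] (g : Matrix ν ν ℝ) (i j : ν) :
    |(gᵀ * g) i j| ≤ (gᵀ * g).trace := by
  have h0 : ∀ k, (gᵀ * g) k k = ∑ l, g l k ^ 2 := fun k => by simp [Matrix.mul_apply, sq]
  have h1 : ∀ k, (gᵀ * g) k k ≤ (gᵀ * g).trace := fun k =>
    Finset.single_le_sum (f := fun k => (gᵀ * g) k k)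
      (fun l _ => by rw [h0]; positivity) (Finset.mem_univ k)
  have h2 : |(gᵀ * g) i j| ≤ ∑ l, (g l i ^ 2 + g l j ^ 2) / 2 := by
    rw [Matrix.mul_apply]
    refine (Finset.abs_sum_le_sum_abs _ _).trans (Finset.sum_le_sum fun l _ => ?_)
    rw [transpose_apply, abs_le]
    constructor <;> nlinarith [sq_nonneg (g l i + g l j), sq_nonneg (g l i - g l j)]
  rw [← Finset.sum_div, Finset.sum_add_distrib, ← h0, ← h0] at h2
  linarith [h1 i, h1 j]

theorem Nf_act {g : Matrix (ι ⊕ ι) (ι ⊕ ι) ℝ} (hg : g ∈ symplecticGroup ι ℝ) {τ : Matrix ι ι ℂ}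
    (hτ : InH τ) (t : (κ → ι ⊕ ι) → ℂ) :
    Nf κ (act g τ) (K κ (g.map Complex.ofReal) *ᵥ t) = Nf κ τ t := by
  rw [Nf, Nf, nf_conj, Pm_act hg hτ]

theorem Nf_pos {τ : Matrix ι ι ℂ} (hτ : InH τ) {t : (κ → ι ⊕ ι) → ℂ} (ht : t ≠ 0) :
    0 < Nf κ τ t := by
  obtain ⟨g, hg, hP⟩ := Pm_fac hτ
  have hu : K κ (g.map Complex.ofReal) *ᵥ t ≠ 0 := by
    intro h0
    have h1 : g⁻¹ * g = 1 := nonsing_inv_mul g (SymplecticGroup.symplectic_det hg)
    have h2 : K κ (g⁻¹.map Complex.ofReal) *ᵥ (K κ (g.map Complex.ofReal) *ᵥ t) = t := by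
      rw [mulVec_mulVec, ← K_mul, ← nf_map_mul, h1, nf_map_one, K_one, one_mulVec]
    rw [h0, mulVec_zero] at h2
    exact ht h2.symm
  have h := nf_conj (κ := κ) g 1 t
  rw [Matrix.mul_one, nf_map_one, K_one, one_mulVec] at h
  rw [Nf, hP, ← h]
  generalize K κ (g.map Complex.ofReal) *ᵥ t = u at hu
  obtain ⟨a, ha⟩ := Function.ne_iff.1 hu
  rw [dotProduct, Complex.re_sum]
  have e : ∀ b, (star u b * u b).re = Complex.normSq (u b) := fun b => by
    rw [Pi.star_apply, Complex.star_def, ← Complex.normSq_eq_conj_mul_self, Complex.ofReal_re]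
  simp only [e]
  exact Finset.sum_pos' (fun b _ => Complex.normSq_nonneg _)
    ⟨a, Finset.mem_univ a, Complex.normSq_pos.2 ha⟩

theorem Nf_smul (τ : Matrix ι ι ℂ) (c : ℝ) (t : (κ → ι ⊕ ι) → ℂ) :
    Nf κ τ ((c : ℂ) • t) = c ^ 2 * Nf κ τ t := by
  rw [Nf, Nf, star_smul, mulVec_smul, smul_dotProduct, dotProduct_smul, smul_smul,
    Complex.star_def, Complex.conj_ofReal, ← Complex.ofReal_mul, smul_eq_mul, Complex.re_ofReal_mul,
    sq]

/-- Every entry of `Pm τ` is at most the trace. -/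
theorem Nf_le {τ : Matrix ι ι ℂ} (hτ : InH τ) (t : (κ → ι ⊕ ι) → ℂ) :
    Nf κ τ t ≤ (Pm τ).trace ^ Fintype.card κ * (∑ a, ‖t a‖) ^ 2 := by
  obtain ⟨g, -, hP⟩ := Pm_fac hτ
  have hK : ∀ a b : κ → ι ⊕ ι,
      ‖K κ ((Pm τ).map Complex.ofReal) a b‖ ≤ (Pm τ).trace ^ Fintype.card κ := by
    intro a b
    change ‖∏ i, ((Pm τ (a i) (b i) : ℝ) : ℂ)‖ ≤ _
    rw [norm_prod, ← Finset.card_univ, ← Finset.prod_const]
    refine Finset.prod_le_prod (fun i _ => norm_nonneg _) fun i _ => ?_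
    rw [Complex.norm_real, Real.norm_eq_abs, hP]
    exact nf_entry g _ _
  refine (Complex.re_le_norm _).trans ?_
  rw [dotProduct, sq, mul_left_comm, Finset.sum_mul]
  refine norm_sum_le_of_le _ fun a _ => ?_
  rw [norm_mul, Pi.star_apply, norm_star]
  refine mul_le_mul_of_nonneg_left ?_ (norm_nonneg _)
  rw [mulVec, dotProduct, Finset.mul_sum]
  refine norm_sum_le_of_le _ fun b _ => ?_
  rw [norm_mul]
  exact mul_le_mul_of_nonneg_right (hK a b) (norm_nonneg _)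

theorem continuousAt_Nf {τ : Matrix ι ι ℂ} (hτ : InH τ) (t : (κ → ι ⊕ ι) → ℂ) :
    ContinuousAt (fun σ => Nf κ σ t) τ := by
  have h1 : Continuous fun P : Matrix (ι ⊕ ι) (ι ⊕ ι) ℝ =>
      (star t ⬝ᵥ K κ (P.map Complex.ofReal) *ᵥ t).re :=
    Complex.continuous_re.comp (continuous_const.dotProduct
      ((continuous_K.comp (continuous_id.matrix_map Complex.continuous_ofReal)).matrix_mulVec
        continuous_const))
  exact h1.continuousAt.comp (continuousAt_Pm hτ)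

theorem Nf_az {G : Subgroup (symplecticGroup ι ℤ)} {χ : symplecticGroup ι ℤ → ℤ}
    (hχ : ∀ g ∈ G, χ g = 1 ∨ χ g = -1) {t : (κ → ι ⊕ ι) → ℂ} (ht : t ∈ Wsp κ ℂ G χ)
    {g : symplecticGroup ι ℤ} (hg : g ∈ G) {τ : Matrix ι ι ℂ} (hτ : InH τ) :
    Nf κ (az g τ) t = Nf κ τ t := by
  have h := Nf_act (cm_mem ℝ g) hτ t
  have e : (cm ℝ g).map Complex.ofReal = cm ℂ g := cm_map Complex.ofRealHom g
  rw [e, ht g hg, ← Complex.ofReal_intCast, Nf_smul] at h
  rw [← h, az]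
  rcases hχ g hg with h1 | h1 <;> simp [h1]

theorem hm_act {g : Matrix (ι ⊕ ι) (ι ⊕ ι) ℝ} (hg : g ∈ symplecticGroup ι ℝ) {τ : Matrix ι ι ℂ}
    (hτ : InH τ) (p q : ℝ) :
    hm p q (cst (act g τ)) * g.map Complex.ofReal = g.map Complex.ofReal * hm p q (cst τ) := by
  rw [hm, hm, ← nf_map_mul, ← nf_map_mul, Matrix.add_mul, Matrix.mul_add, Matrix.smul_mul,
    Matrix.smul_mul, Matrix.mul_smul, Matrix.mul_smul, cst_act hg hτ, Matrix.one_mul,
    Matrix.mul_one]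

end M4.FP
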