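import Pool.Agent.Lib.MP_33b3f9_ag.M4.FP.Th
import Pool.Agent.Lib.MP_33b3f9_ag.M4.FP.Cs
import Pool.Agent.Lib.MP_33b3f9_ag.M4.FP.Nf
import Pool.Agent.Lib.MP_33b3f9_ag.M4.FP.Lap
import Pool.Agent.Lib.MP_33b3f9_ag.M4.FP.Irr

/-!
The local computation: the logarithm of the norm of a tensor is subharmonic.
-/

set_option autoImplicit false

namespace M4.FP

open Matrix Filter Topology Metric

variable {ι : Type} [Fintype ι] [DecidableEq ι]

omit [Fintype ι] in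
theorem loc_J : (J ι ℝ).map Complex.ofReal = J ι ℂ := by
  ext i j
  rcases i with i | i <;> rcases j with j | j <;> simp [J, one_apply, apply_ite Complex.ofReal]

theorem loc_map_mul {α : Type} [Fintype α] (A B : Matrix α α ℝ) :
    (A * B).map Complex.ofReal = A.map Complex.ofReal * B.map Complex.ofReal :=
  Matrix.map_mul (f := Complex.ofRealHom)

theorem loc_map_one {α : Type} [DecidableEq α] : (1 : Matrix α α ℝ).map Complex.ofReal = 1 :=
  Matrix.map_one _ Complex.ofReal_zero Complex.ofReal_one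

theorem loc_cst (τ : Matrix ι ι ℂ) :
    (cst τ).map Complex.ofReal = -(J ι ℂ * (Pm τ).map Complex.ofReal) := by
  rw [cst_eq, ← loc_J, ← loc_map_mul]
  ext i j
  simp

theorem loc_hm (p q : ℝ) (τ : Matrix ι ι ℂ) :
    hm p q (cst τ) = (p : ℂ) • 1 + (q : ℂ) • -(J ι ℂ * (Pm τ).map Complex.ofReal) := by
  rw [← loc_cst]
  ext i j
  simp [hm, one_apply, apply_ite Complex.ofReal]

theorem loc_mem {g : Matrix (ι ⊕ ι) (ι ⊕ ι) ℝ} (hg : g ∈ symplecticGroup ι ℝ) :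
    g.map Complex.ofReal ∈ symplecticGroup ι ℂ := by
  rw [SymplecticGroup.mem_iff] at hg ⊢
  rw [← loc_J, ← transpose_map, ← loc_map_mul, ← loc_map_mul, hg]

omit [Fintype ι] in
theorem loc_JH : (J ι ℂ)ᴴ = -J ι ℂ := by
  rw [← J_transpose]
  ext i j
  rcases i with i | i <;> rcases j with j | j <;> simp [J, one_apply, apply_ite star]

theorem loc_J_thH (ξ : Matrix ι ι ℂ) : J ι ℂ * (th ξ)ᴴ = Complex.I • (th ξ)ᴴ := by
  have h := congrArg conjTranspose (th_mul_J ξ)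
  rw [conjTranspose_mul, loc_JH, conjTranspose_smul, neg_mul] at h
  rw [← neg_inj, h]
  simp

theorem loc_form_H {α : Type} [Fintype α] (T : Matrix α α ℂ) (t : α → ℂ) :
    star t ⬝ᵥ Tᴴ *ᵥ t = star (star t ⬝ᵥ T *ᵥ t) := by
  rw [star_dotProduct, star_mulVec, conjTranspose_conjTranspose, dotProduct_mulVec]

theorem loc_pos {α : Type} [Fintype α] {t : α → ℂ} (ht : t ≠ 0) : 0 < (star t ⬝ᵥ t).re := by
  obtain ⟨i, hi⟩ := Function.ne_iff.1 ht
  have e : (star t ⬝ᵥ t).re = ∑ j, Complex.normSq (t j) := by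
    simp [dotProduct, Complex.normSq_apply]
  rw [e]
  exact Finset.sum_pos' (fun j _ => Complex.normSq_nonneg _)
    ⟨i, Finset.mem_univ _, Complex.normSq_pos.2 hi⟩

theorem loc_lap {α : Type} [Fintype α] [DecidableEq α] (f : ℂ → Matrix α α ℂ) (s : ℂ)
    (T N N' : Matrix α α ℂ) {t : α → ℂ} (ht : t ≠ 0)
    (h : ∀ ω : ℂ, MJet (fun r : ℝ => f (s + r * ω)) 1 (ω • T + star ω • Tᴴ)
      ((1 / 2 : ℂ) • ((ω • T + star ω • Tᴴ) * (ω • T + star ω • Tᴴ)) +
        (ω ^ 2 • N + star ω ^ 2 • N'))) :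
    Lap (fun z => Real.log (star t ⬝ᵥ f z *ᵥ t).re) s
      (2 * ((star t ⬝ᵥ t).re * (star t ⬝ᵥ (T * Tᴴ + Tᴴ * T) *ᵥ t).re -
        2 * ‖star t ⬝ᵥ T *ᵥ t‖ ^ 2) / (star t ⬝ᵥ t).re ^ 2) := by
  have h0 := loc_pos ht
  have hj := fun ω => (((h ω).form (star t) t).clm Complex.reCLM).log
    (by rw [one_mulVec]; exact h0)
  have hL := Lap.of_jet (u := fun z => Real.log (star t ⬝ᵥ f z *ᵥ t).re) (hj 1) (hj Complex.I)
  refine (congrArg _ ?_).mp hL
  simp only [Complex.reCLM_apply, one_mulVec, add_mul, mul_add, smul_mul_assoc, mul_smul_comm,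
    add_mulVec, smul_mulVec, dotProduct_add, dotProduct_smul, smul_eq_mul, loc_form_H T]
  generalize star t ⬝ᵥ T *ᵥ t = a
  generalize star t ⬝ᵥ (T * T) *ᵥ t = a1
  generalize star t ⬝ᵥ (T * Tᴴ) *ᵥ t = a2
  generalize star t ⬝ᵥ (Tᴴ * T) *ᵥ t = a3
  generalize star t ⬝ᵥ (Tᴴ * Tᴴ) *ᵥ t = a4
  generalize star t ⬝ᵥ N *ᵥ t = a5
  generalize star t ⬝ᵥ N' *ᵥ t = a6
  generalize (star t ⬝ᵥ t).re = n at h0
  rw [Complex.sq_norm, Complex.normSq_apply]
  simp [pow_two]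
  field_simp
  ring

variable (κ : Type) [Fintype κ] [DecidableEq κ]

/-- The conclusion of the local computation. -/
def LocOK (σ : ℂ → Matrix ι ι ℂ) (s : ℂ) : Prop :=
  ∃ X : Matrix (ι ⊕ ι) (ι ⊕ ι) ℂ, InSp X ∧
    (X = 0 → ∀ (ω : ℂ) i j, HasDerivAt (fun r : ℝ => cst (σ (s + r * ω)) i j) 0 0) ∧
    ∀ t : (κ → ι ⊕ ι) → ℂ, t ≠ 0 → ∃ c : ℝ, 0 ≤ c ∧
      Lap (fun z => Real.log (Nf κ (σ z) t)) s c ∧
      (c = 0 → dK κ X *ᵥ t = 0 ∧ ∀ p q : ℝ, (p, q) ≠ 0 → ∀ (ω : ℂ) a,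
        HasDerivAt (fun r : ℝ => (K κ (hm p q (cst (σ (s + r * ω)))) *ᵥ t) a) 0 0)

theorem loc_I {σ : ℂ → Matrix ι ι ℂ} {s : ℂ} (hσ : ∀ i j, AnalyticAt ℂ (fun z => σ z i j) s)
    (hH : ∀ᶠ z in 𝓝 s, InH (σ z)) (h0 : σ s = Complex.I • (1 : Matrix ι ι ℂ)) :
    LocOK κ σ s := by
  obtain ⟨ξ, M, M', hξ, hj⟩ := jet_Pm hσ hH h0
  have hc : ∀ ω : ℂ, ∃ C, MJet (fun r : ℝ => -(J ι ℂ * (Pm (σ (s + r * ω))).map Complex.ofReal))
      (-J ι ℂ) (-(J ι ℂ * (ω • th ξ + star ω • (th ξ)ᴴ))) C := fun ω => by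
    have h := ((MJet.const (J ι ℂ)).mul (hj ω)).neg
    rw [mul_one, zero_mul, add_zero] at h
    exact ⟨_, h⟩
  refine ⟨th ξ, ?_, fun hX ω i j => ?_, fun t ht => ?_⟩
  · rw [InSp, th_transpose hξ, th_mul_J, J_mul_th, neg_smul, add_neg_cancel]
  · obtain ⟨C, h⟩ := hc ω
    have h1 := ((h i j).clm Complex.reCLM).hasDerivAt
    simp only [← loc_cst, hX] at h1
    simpa using h1
  · have hn : IsNilpotent (dK κ (th ξ)) := dK_nilp (th_mul_th ξ ξ)
    obtain ⟨h1, h2⟩ := cs_nilp hn ht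
    have h3 := loc_pos ht
    refine ⟨_, ?_, loc_lap (fun z => K κ ((Pm (σ z)).map Complex.ofReal)) s (dK κ (th ξ)) (dK κ M)
      (dK κ M') ht fun ω => ?_, fun hc0 => ?_⟩
    · exact div_nonneg (by linarith) (sq_nonneg _)
    · have h := (hj ω).K (κ := κ)
      simp only [dK_add, dK_smul, dK_conjTranspose] at h
      exact h
    · rw [div_eq_zero_iff, or_iff_left (pow_ne_zero 2 h3.ne')] at hc0
      obtain ⟨h4, h5⟩ := h2 (by linarith)
      refine ⟨h4, fun p q hpq ω a => ?_⟩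
      obtain ⟨C, h⟩ := hc ω
      have h6 := (MJet.const ((p : ℂ) • (1 : Matrix (ι ⊕ ι) (ι ⊕ ι) ℂ))).add (h.smul (q : ℂ))
      simp only [← loc_hm] at h6
      have hpos : (p : ℂ) ^ 2 + (q : ℂ) ^ 2 ≠ 0 := by
        have : p ^ 2 + q ^ 2 ≠ 0 := fun h => hpq (Prod.ext
          (by simpa using (by nlinarith [sq_nonneg p, sq_nonneg q] : p ^ 2 = 0))
          (by simpa using (by nlinarith [sq_nonneg p, sq_nonneg q] : q ^ 2 = 0)))
        exact_mod_cast this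
      refine h6.K_deriv (A' := ((p : ℂ) ^ 2 + (q : ℂ) ^ 2)⁻¹ • ((p : ℂ) • 1 + (q : ℂ) • J ι ℂ))
        ?_ ?_ a
      · have e : ((p : ℂ) • (1 : Matrix (ι ⊕ ι) (ι ⊕ ι) ℂ) + (q : ℂ) • -J ι ℂ) *
            ((p : ℂ) • 1 + (q : ℂ) • J ι ℂ) = ((p : ℂ) ^ 2 + (q : ℂ) ^ 2) • 1 := by
          simp only [add_mul, mul_add, smul_mul_assoc, mul_smul_comm, neg_mul, J_squared, mul_one,
            one_mul]
          module
        rw [mul_smul_comm, e, smul_smul, inv_mul_cancel₀ hpos, one_smul]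
      · simp only [zero_add, add_mul, mul_add, smul_mul_assoc, mul_smul_comm, one_mul,
          J_mul_th, loc_J_thH, neg_add, ← neg_smul, dK_add, dK_smul, dK_conjTranspose, add_mulVec,
          smul_mulVec, h4, h5, smul_zero, add_zero]

theorem loc {σ : ℂ → Matrix ι ι ℂ} {U : Set ℂ} (hU : IsOpen U) (hσ : HolOn σ U)
    (hH : ∀ z ∈ U, InH (σ z)) {s : ℂ} (hs : s ∈ U) : LocOK κ σ s := by
  obtain ⟨g, hg, h0⟩ := exists_act_I (hH s hs)
  let gi : Matrix (ι ⊕ ι) (ι ⊕ ι) ℝ := ((⟨g, hg⟩ : symplecticGroup ι ℝ)⁻¹ : symplecticGroup ι ℝ)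
  have hgi : gi ∈ symplecticGroup ι ℝ := ((⟨g, hg⟩ : symplecticGroup ι ℝ)⁻¹).2
  have e1 : gi * g = 1 := congrArg Subtype.val (inv_mul_cancel (⟨g, hg⟩ : symplecticGroup ι ℝ))
  have e2 : gi.map Complex.ofReal * g.map Complex.ofReal = 1 := by
    rw [← loc_map_mul, e1, loc_map_one]
  have e3 : g.map Complex.ofReal * gi.map Complex.ofReal = 1 := mul_eq_one_comm.1 e2
  have hUs := hU.mem_nhds hs
  have hev : ∀ ω : ℂ, ∀ᶠ r : ℝ in 𝓝 0, s + r * ω ∈ U := fun ω =>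
    ((by fun_prop : Continuous fun r : ℝ => s + r * ω).tendsto' 0 s (by simp)).eventually hUs
  obtain ⟨X, hX, h1, h2⟩ := loc_I κ (σ := fun z => act g (σ z)) (s := s)
    (fun i j => (holOn_act hg hσ hH i j).analyticAt hUs)
    (Filter.mem_of_superset hUs fun z hz => inH_act hg (hH z hz)) h0
  refine ⟨gi.map Complex.ofReal * X * g.map Complex.ofReal, hX.conj (loc_mem hgi) e2,
    fun hX0 ω i j => ?_, fun t ht => ?_⟩
  · have hX1 : X = 0 := by
      have h := congrArg (fun Y => g.map Complex.ofReal * Y * gi.map Complex.ofReal) hX0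
      simp only [mul_zero, zero_mul, ← mul_assoc, e3, one_mul] at h
      rwa [mul_assoc, e3, mul_one] at h
    have h3 : HasDerivAt (fun r : ℝ => (gi * cst (act g (σ (s + r * ω))) * g) i j) 0 0 := by
      simp only [mul_apply]
      have h := HasDerivAt.fun_sum (u := Finset.univ) fun b _ =>
        (HasDerivAt.fun_sum (u := Finset.univ) fun a _ =>
          (h1 hX1 ω a b).const_mul (gi i a)).mul_const (g b j)
      simpa using h
    refine h3.congr_of_eventuallyEq ((hev ω).mono fun r hr => ?_)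
    simp only
    rw [mul_assoc, cst_act hg (hH _ hr), ← mul_assoc, e1, one_mul]
  · have e4 : K κ (gi.map Complex.ofReal) *ᵥ (K κ (g.map Complex.ofReal) *ᵥ t) = t := by
      rw [mulVec_mulVec, ← K_mul, e2, K_one, one_mulVec]
    obtain ⟨c, hc, h3, h4⟩ := h2 (K κ (g.map Complex.ofReal) *ᵥ t) fun h => ht (by
      rw [← e4, h, mulVec_zero])
    refine ⟨c, hc, h3.congr (Filter.mem_of_superset hUs fun z hz => ?_), fun hc0 => ?_⟩
    · exact congrArg Real.log (Nf_act hg (hH z hz) t)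
    · obtain ⟨h5, h6⟩ := h4 hc0
      refine ⟨?_, fun p q hpq ω a => ?_⟩
      · rw [dK_conj e2, ← mulVec_mulVec, ← mulVec_mulVec, h5, mulVec_zero]
      · have h7 : HasDerivAt (fun r : ℝ => (K κ (gi.map Complex.ofReal) *ᵥ
            (K κ (hm p q (cst (act g (σ (s + r * ω))))) *ᵥ
              (K κ (g.map Complex.ofReal) *ᵥ t))) a) 0 0 := by
          have h := HasDerivAt.fun_sum (u := Finset.univ) fun b _ =>
            (h6 p q hpq ω b).const_mul (K κ (gi.map Complex.ofReal) a b)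
          rw [Finset.sum_eq_zero fun b _ => mul_zero _] at h
          exact h
        refine h7.congr_of_eventuallyEq ((hev ω).mono fun r hr => ?_)
        simp only
        rw [mulVec_mulVec, mulVec_mulVec, ← K_mul, ← K_mul, mul_assoc, hm_act hg (hH _ hr),
          ← mul_assoc, e2, one_mul]

end M4.FP
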