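import Pool.Agent.Lib.MP_33b3f9_ag.M4.FP.Grow
import Pool.Agent.Lib.MP_33b3f9_ag.M4.FP.Loc
import Pool.Agent.Lib.MP_33b3f9_ag.M4.FP.Liou

/-!
The norm of an invariant tensor is harmonic on every sheet.
-/

set_option autoImplicit false

namespace M4.FP

open Matrix Filter Topology Metric

variable {ι : Type} [Fintype ι] [DecidableEq ι] {G : Subgroup (symplecticGroup ι ℤ)}
  {Y : Set (ℂ × Matrix ι ι ℂ)} {n : ℕ}

variable {κ : Type} [Fintype κ] [DecidableEq κ] {χ : symplecticGroup ι ℤ → ℤ}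

theorem lapz_log {ρ : ℝ} (hρ : 0 < ρ) {v : ℂ} (hv : v ≠ 0) :
    ρ * Complex.exp (Complex.log (v / ρ)) = v ∧
      (Complex.log (v / ρ)).re = Real.log ‖v‖ - Real.log ρ ∧
      |(Complex.log (v / ρ)).im| ≤ Real.pi := by
  have h : (ρ : ℂ) ≠ 0 := Complex.ofReal_ne_zero.2 hρ.ne'
  refine ⟨?_, ?_, Complex.log_im _ ▸ Complex.abs_arg_le_pi _⟩
  · rw [Complex.exp_log (div_ne_zero hv h), mul_div_cancel₀ _ h]
  · rw [Complex.log_re, norm_div, Complex.norm_of_nonneg hρ.le,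
      Real.log_div (norm_ne_zero_iff.2 hv) hρ.ne']

theorem lapz_tr {τ : Matrix ι ι ℂ} (hτ : InH τ) : 0 ≤ (Pm τ).trace := by
  obtain ⟨g, -, h⟩ := Pm_fac hτ
  rw [h]
  exact Finset.sum_nonneg fun i _ => Finset.sum_nonneg fun j _ => mul_self_nonneg _

theorem lapz_sum {Ω : Set ℂ} (hS : Sheets G Ω Y n) (hχ : ∀ g ∈ G, χ g = 1 ∨ χ g = -1)
    {t : (κ → ι ⊕ ι) → ℂ} (ht : t ∈ Wsp κ ℂ G χ) (h0 : t ≠ 0) {U : ℂ → ℝ}
    (hU : ∀ (s : Set ℂ) (I : Finset (Fin n)) (σ : Fin n → ℂ → Matrix ι ι ℂ),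
      Chart G Y s I σ → ∀ w ∈ s, U w = ∑ i ∈ I, Real.log (Nf κ (σ i w) t)) {e : ℂ → ℂ}
    (he : Differentiable ℂ e) (hΩ : ∀ z : ℂ, z.re < 0 → e z ∈ Ω) {η : ℝ} (hη : 0 < η) :
    ∃ C : ℝ, ∀ z : ℂ, z.re ≤ -1 → |z.im| ≤ Real.pi → U (e z) ≤ C + η * (-z.re) := by
  obtain ⟨C, hC⟩ := hS.grow he.differentiableOn hΩ
  obtain ⟨δ, hδ, h1⟩ : ∃ δ : ℝ, 0 < δ ∧ n * δ ≤ η :=
    ⟨η / (n + 1), by positivity, by
      rw [← mul_div_assoc, div_le_iff₀ (by positivity)]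
      linarith⟩
  obtain ⟨D, hD, h2⟩ : ∃ D : ℝ, 0 ≤ D ∧ ∀ y : ℝ, 0 ≤ y →
      (|C| * y) ^ Fintype.card κ * (∑ a, ‖t a‖) ^ 2 ≤ D * Real.exp (δ * y) := by
    refine ⟨(|C| / δ) ^ Fintype.card κ * (∑ a, ‖t a‖) ^ 2 * (Fintype.card κ).factorial,
      by positivity, fun y hy => le_trans (le_of_eq ?_) (mul_le_mul_of_nonneg_left
        (Real.pow_div_factorial_le_exp _ (mul_nonneg hδ.le hy) (Fintype.card κ)) (by positivity))⟩
    rw [mul_pow, mul_pow, div_pow]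
    field_simp
  refine ⟨n * D, fun z h3 h4 => ?_⟩
  obtain ⟨r, hr, -, I, σ, h5⟩ := hS.loc _ (hΩ z (by linarith))
  have hy : 0 ≤ -z.re := by linarith
  have h6 : ∀ i ∈ I, Real.log (Nf κ (σ i (e z)) t) ≤ D + δ * (-z.re) := by
    intro i hi
    have h6 := h5.mem i hi _ (mem_ball_self hr)
    have h7 : InH (σ i (e z)) := hS.inH _ h6
    obtain ⟨g, hg, h8⟩ := hC z h3 h4 _ h6
    rw [Real.log_le_iff_le_exp (Nf_pos h7 h0), ← Nf_az hχ ht hg h7, Real.exp_add]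
    refine (Nf_le (inH_az g h7) t).trans ((mul_le_mul_of_nonneg_right (pow_le_pow_left₀
      (lapz_tr (inH_az g h7)) (h8.trans (mul_le_mul_of_nonneg_right (le_abs_self C) hy)) _)
        (sq_nonneg _)).trans ((h2 _ hy).trans (mul_le_mul_of_nonneg_right ?_ (Real.exp_pos _).le)))
    linarith [Real.add_one_le_exp D]
  rw [hU _ I σ h5 _ (mem_ball_self hr)]
  refine (Finset.sum_le_card_nsmul I _ _ h6).trans ?_
  have h7 : (I.card : ℝ) ≤ n := Nat.cast_le.2 (I.card_le_univ.trans_eq (Fintype.card_fin n))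
  rw [nsmul_eq_mul]
  refine (mul_le_mul_of_nonneg_right h7 (by positivity)).trans ?_
  linarith [mul_le_mul_of_nonneg_right h1 hy]

/-- Every Laplacian vanishes. -/
theorem Sheets.lap_zero {B : Finset ℂ} (hS : Sheets G (↑B)ᶜ Y n)
    (hχ : ∀ g ∈ G, χ g = 1 ∨ χ g = -1) {t : (κ → ι ⊕ ι) → ℂ} (ht : t ∈ Wsp κ ℂ G χ) (h0 : t ≠ 0)
    {s : Set ℂ} (hs : IsOpen s) (hB : s ⊆ (↑B)ᶜ) {I : Finset (Fin n)}
    {σ : Fin n → ℂ → Matrix ι ι ℂ} (hC : Chart G Y s I σ) {w : ℂ} (hw : w ∈ s) {i : Fin n}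
    (hi : i ∈ I) {c : ℝ} (hc : Lap (fun z => Real.log (Nf κ (σ i z) t)) w c) : c = 0 := by
  obtain ⟨U, hU⟩ := hS.exists_sum (fun τ => Real.log (Nf κ τ t))
    fun g hg τ hτ => by rw [Nf_az hχ ht hg hτ]
  have key : ∀ (s : Set ℂ) (I : Finset (Fin n)) (σ : Fin n → ℂ → Matrix ι ι ℂ), IsOpen s →
      Chart G Y s I σ → ∀ w ∈ s, ContinuousAt U w ∧ ∃ c : Fin n → ℝ,
        (∀ i ∈ I, 0 ≤ c i ∧ Lap (fun z => Real.log (Nf κ (σ i z) t)) w (c i)) ∧
          Lap U w (∑ i ∈ I, c i) := by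
    intro s I σ hs hC w hw
    have h1 : (fun z => ∑ i ∈ I, Real.log (Nf κ (σ i z) t)) =ᶠ[𝓝 w] U := by
      filter_upwards [hs.mem_nhds hw] with z hz
      exact (hU s I σ hC z hz).symm
    have h2 : ∀ i ∈ I, ∀ z ∈ s, InH (σ i z) := fun i hi z hz => hS.inH _ (hC.mem i hi z hz)
    have h3 : ∀ i, ∃ c : ℝ, i ∈ I → 0 ≤ c ∧ Lap (fun z => Real.log (Nf κ (σ i z) t)) w c := by
      intro i
      by_cases hi : i ∈ I
      · obtain ⟨_, -, -, h4⟩ := FP.loc κ hs (hC.hol i hi) (h2 i hi) hw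
        obtain ⟨c, h5, h6, -⟩ := h4 t h0
        exact ⟨c, fun _ => ⟨h5, h6⟩⟩
      · exact ⟨0, fun h => absurd h hi⟩
    choose c h3 using h3
    refine ⟨ContinuousAt.congr (tendsto_finsetSum I fun i hi => ?_) h1, c, h3,
      (Lap.sum I fun i hi => (h3 i hi).2).congr h1⟩
    exact ((continuousAt_Nf (h2 i hi w hw) t).comp
      ((hC.hol i hi).continuousOn.continuousAt (hs.mem_nhds hw))).log (Nf_pos (h2 i hi w hw) h0).ne'
  have key2 : ∀ w ∉ B, ContinuousAt U w ∧ ∃ c, 0 ≤ c ∧ Lap U w c := by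
    intro w hw
    obtain ⟨r, hr, -, I, σ, hC⟩ := hS.loc w hw
    obtain ⟨h1, c, h2, h3⟩ := key _ I σ isOpen_ball hC w (mem_ball_self hr)
    exact ⟨h1, _, Finset.sum_nonneg fun i hi => (h2 i hi).1, h3⟩
  have h1 := liouville B (fun w hw => (key2 w hw).1.continuousWithinAt) (fun w hw => (key2 w hw).2)
    (fun b _ η hη => ?_) fun η hη => ?_
  · obtain ⟨-, c', h2, h3⟩ := key s I σ hs hC w hw
    have h4 := h3.eq_zero (by
      filter_upwards [hs.mem_nhds hw] with z hz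
      exact le_antisymm (h1 z (hB hz) w (hB hw)) (h1 w (hB hw) z (hB hz)))
    exact (hc.unique (h2 i hi).2).trans
      ((Finset.sum_eq_zero_iff_of_nonneg fun j hj => (h2 j hj).1).1 h4 i hi)
  · obtain ⟨ρ, hρ, h1⟩ := Metric.isOpen_iff.1
      (Finset.finite_toSet (by classical exact B.erase b)).isClosed.isOpen_compl b (by simp)
    obtain ⟨C, h2⟩ := lapz_sum hS hχ ht h0 hU (e := fun ζ => b + ρ * Complex.exp ζ) (by fun_prop)
      (fun ζ hζ hm => by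
        refine h1 (mem_ball_iff_norm.2 ?_) (Finset.mem_erase.2 ⟨?_, hm⟩)
        · rw [add_sub_cancel_left, norm_mul, Complex.norm_exp, Complex.norm_of_nonneg hρ.le]
          exact mul_lt_of_lt_one_right hρ (Real.exp_lt_one_iff.2 hζ)
        · simp [hρ.ne']) hη
    refine ⟨C + η * Real.log ρ, ?_⟩
    filter_upwards [self_mem_nhdsWithin, nhdsWithin_le_nhds
      (ball_mem_nhds b (Real.exp_pos (Real.log ρ - 1)))] with z h3 h4
    have h5 : z - b ≠ 0 := sub_ne_zero.2 h3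
    obtain ⟨h6, h7, h8⟩ := lapz_log hρ h5
    have h9 := (Real.log_lt_iff_lt_exp (norm_pos_iff.2 h5)).2 (mem_ball_iff_norm.1 h4)
    have h10 := h2 _ (by linarith) h8
    rw [h6, h7, add_sub_cancel] at h10
    linarith
  · obtain ⟨ρ, hρ, h1⟩ := B.finite_toSet.isBounded.subset_ball_lt 0 0
    obtain ⟨C, h2⟩ := lapz_sum hS hχ ht h0 hU (e := fun ζ => ρ * Complex.exp (-ζ)) (by fun_prop)
      (fun ζ hζ hm => by
        have h2 := mem_ball_zero_iff.1 (h1 hm)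
        rw [norm_mul, Complex.norm_exp, Complex.norm_of_nonneg hρ.le, Complex.neg_re] at h2
        exact absurd ((mul_lt_iff_lt_one_right hρ).1 h2) (Real.one_le_exp (by linarith)).not_gt) hη
    refine ⟨C - η * Real.log ρ, ?_⟩
    filter_upwards [(tendsto_norm_cocompact_atTop (E := ℂ)).eventually_gt_atTop
      (Real.exp (Real.log ρ + 1))] with z h3
    have h4 : 0 < ‖z‖ := (Real.exp_pos _).trans h3
    obtain ⟨h6, h7, h8⟩ := lapz_log hρ (norm_pos_iff.1 h4)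
    have h9 := (Real.lt_log_iff_exp_lt h4).2 h3
    have h10 := h2 (-Complex.log (z / ρ)) (by rw [Complex.neg_re]; linarith)
      (by rwa [Complex.neg_im, abs_neg])
    rw [neg_neg, h6, Complex.neg_re, h7] at h10
    linarith

end M4.FP
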