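import Pool.Agent.Lib.MP_33b3f9_ag.M4.FP.Jet
import Pool.Agent.Lib.MP_33b3f9_ag.M4.FP.Ten

/-!
Second order expansions of matrix valued functions.
-/

set_option autoImplicit false

namespace M4.FP

open Matrix Filter Topology

variable {l m n : Type}

theorem MJet.const (A : Matrix m n ℂ) : MJet (fun _ => A) A 0 0 := by
  exact fun i j => Jet.const (A i j)

theorem MJet.congr {f g : ℝ → Matrix m n ℂ} {A B C : Matrix m n ℂ} (h : MJet f A B C)
    (e : f =ᶠ[𝓝 0] g) : MJet g A B C := by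
  exact fun i j => (h i j).congr (e.mono fun r hr => by simp only [hr])

theorem MJet.add {f g : ℝ → Matrix m n ℂ} {A B C A' B' C' : Matrix m n ℂ} (h : MJet f A B C)
    (h' : MJet g A' B' C') : MJet (fun r => f r + g r) (A + A') (B + B') (C + C') := by
  exact fun i j => (h i j).add (h' i j)

theorem MJet.smul (c : ℂ) {f : ℝ → Matrix m n ℂ} {A B C : Matrix m n ℂ} (h : MJet f A B C) :
    MJet (fun r => c • f r) (c • A) (c • B) (c • C) := by
  exact fun i j => (h i j).clm (ContinuousLinearMap.mul ℝ ℂ c)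

theorem MJet.neg {f : ℝ → Matrix m n ℂ} {A B C : Matrix m n ℂ} (h : MJet f A B C) :
    MJet (fun r => -f r) (-A) (-B) (-C) := by
  simpa only [neg_smul, one_smul] using h.smul (-1)

theorem MJet.map (L : ℂ →L[ℝ] ℂ) {f : ℝ → Matrix m n ℂ} {A B C : Matrix m n ℂ}
    (h : MJet f A B C) : MJet (fun r => (f r).map L) (A.map L) (B.map L) (C.map L) := by
  exact fun i j => (h i j).clm L

theorem MJet.mul [Fintype m] {f : ℝ → Matrix l m ℂ} {g : ℝ → Matrix m n ℂ}
    {A B C : Matrix l m ℂ} {A' B' C' : Matrix m n ℂ} (h : MJet f A B C) (h' : MJet g A' B' C') :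
    MJet (fun r => f r * g r) (A * A') (A * B' + B * A') (A * C' + B * B' + C * A') := by
  intro i j
  simp only [Matrix.mul_apply, Matrix.add_apply, ← Finset.sum_add_distrib]
  exact Jet.sum Finset.univ fun k _ => (h i k).mul (h' k j)

/-- With `h = f - 1`: `f⁻¹ = 1 - h + h^2 - h^3 f⁻¹` near `0`, `h = O(r)`, `f⁻¹` bounded. -/
theorem MJet.inv [Fintype m] [DecidableEq m] {f : ℝ → Matrix m m ℂ} {B C : Matrix m m ℂ}
    (h : MJet f 1 B C) : MJet (fun r => (f r)⁻¹) 1 (-B) (B * B - C) := by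
  have hp : MJet (fun r : ℝ => (1 : Matrix m m ℂ) + r • (-B) + r ^ 2 • (B * B - C)) 1 (-B)
      (B * B - C) := fun i j => Jet.poly _ _ _
  have h1 := h.mul hp
  rw [show (1 : Matrix m m ℂ) * -B + B * 1 = 0 by noncomm_ring,
    show (1 : Matrix m m ℂ) * (B * B - C) + B * -B + C * 1 = 0 by noncomm_ring, mul_one] at h1
  have h0 : f 0 = 1 := Matrix.ext fun i j => (h i j).val
  have hc : ContinuousAt f 0 := continuousAt_pi.2 fun i => continuousAt_pi.2 fun j =>
    (h i j).hasDerivAt.continuousAt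
  have hi : ContinuousAt (fun r => (f r)⁻¹) 0 := by
    refine ContinuousAt.comp (g := Inv.inv) (continuousAt_matrix_inv _ ?_) hc
    rw [h0, det_one, Ring.inverse_eq_inv']
    exact continuousAt_inv₀ one_ne_zero
  have hd : ∀ᶠ r in 𝓝 (0 : ℝ), (f r).det ≠ 0 :=
    ((continuous_id.matrix_det.continuousAt).comp hc).eventually_ne (by
      simp only [Function.comp_apply, id, h0, det_one]
      exact one_ne_zero)
  intro i j
  refine (hp i j).of_sub ?_
  have h2 : (fun r : ℝ => ∑ k, (f r)⁻¹ i k * -((f r * (1 + r • (-B) + r ^ 2 • (B * B - C))) k j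
      - (1 : Matrix m m ℂ) k j)) =o[𝓝 0] fun r : ℝ => r ^ 2 := by
    refine Asymptotics.IsLittleO.fun_sum fun k _ => ?_
    have h3 : (fun r : ℝ => (f r)⁻¹ i k) =O[𝓝 0] fun _ => (1 : ℝ) :=
      (continuousAt_pi.1 (continuousAt_pi.1 hi i) k).isBigO_one ℝ
    have h4 : (fun r : ℝ => (f r * (1 + r • (-B) + r ^ 2 • (B * B - C))) k j
        - (1 : Matrix m m ℂ) k j) =o[𝓝 0] fun r : ℝ => r ^ 2 := by
      simpa only [Jet, Matrix.zero_apply, smul_zero, add_zero] using h1 k j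
    simpa only [one_mul] using h3.mul_isLittleO h4.neg_left
  refine h2.congr' (hd.mono fun r hr => ?_) EventuallyEq.rfl
  have h5 : (f r)⁻¹ * (1 - f r * (1 + r • (-B) + r ^ 2 • (B * B - C))) =
      (f r)⁻¹ - (1 + r • (-B) + r ^ 2 • (B * B - C)) := by
    rw [mul_sub, mul_one, ← mul_assoc, nonsing_inv_mul _ hr.isUnit, one_mul]
  have h6 := congrFun (congrFun h5 i) j
  simp only [neg_sub]
  exact h6

theorem MJet.fromBlocks {m' n' : Type} {f₁ : ℝ → Matrix m n ℂ} {f₂ : ℝ → Matrix m n' ℂ}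
    {f₃ : ℝ → Matrix m' n ℂ} {f₄ : ℝ → Matrix m' n' ℂ} {A₁ B₁ C₁ : Matrix m n ℂ}
    {A₂ B₂ C₂ : Matrix m n' ℂ} {A₃ B₃ C₃ : Matrix m' n ℂ} {A₄ B₄ C₄ : Matrix m' n' ℂ}
    (h₁ : MJet f₁ A₁ B₁ C₁) (h₂ : MJet f₂ A₂ B₂ C₂) (h₃ : MJet f₃ A₃ B₃ C₃)
    (h₄ : MJet f₄ A₄ B₄ C₄) :
    MJet (fun r => Matrix.fromBlocks (f₁ r) (f₂ r) (f₃ r) (f₄ r)) (Matrix.fromBlocks A₁ A₂ A₃ A₄)
      (Matrix.fromBlocks B₁ B₂ B₃ B₄) (Matrix.fromBlocks C₁ C₂ C₃ C₄) := by
  rintro (i | i) (j | j)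
  exacts [h₁ i j, h₂ i j, h₃ i j, h₄ i j]

theorem mjet_vec [Fintype n] {f : ℝ → Matrix m n ℂ} {A B C : Matrix m n ℂ}
    (h : MJet f A B C) (t : n → ℂ) (i : m) :
    Jet (fun r => (f r *ᵥ t) i) ((A *ᵥ t) i) ((B *ᵥ t) i) ((C *ᵥ t) i) :=
  Jet.sum Finset.univ fun j _ => (h i j).clm ((ContinuousLinearMap.mul ℝ ℂ).flip (t j))

theorem MJet.form [Fintype m] [Fintype n] {f : ℝ → Matrix m n ℂ} {A B C : Matrix m n ℂ}
    (h : MJet f A B C) (s : m → ℂ) (t : n → ℂ) :
    Jet (fun r => s ⬝ᵥ f r *ᵥ t) (s ⬝ᵥ A *ᵥ t) (s ⬝ᵥ B *ᵥ t) (s ⬝ᵥ C *ᵥ t) := by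
  exact Jet.sum Finset.univ fun i _ => (mjet_vec h t i).clm (ContinuousLinearMap.mul ℝ ℂ (s i))

theorem MJet.mulVec [Fintype n] {f : ℝ → Matrix m n ℂ} {A B C : Matrix m n ℂ}
    (h : MJet f A B C) (t : n → ℂ) (i : m) :
    HasDerivAt (fun r => (f r *ᵥ t) i) ((B *ᵥ t) i) 0 := by
  exact (mjet_vec h t i).hasDerivAt

variable {κ ν : Type} [Fintype κ] [DecidableEq κ] [Fintype ν] [DecidableEq ν]

theorem MJet.phi (i : κ) {f : ℝ → Matrix ν ν ℂ} {A B C : Matrix ν ν ℂ} (h : MJet f A B C) :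
    MJet (fun r => phi i (f r)) (phi i A) (phi i B) (phi i C) := by
  intro a b
  simp only [phi_apply]
  exact (h (a i) (b i)).clm ((ContinuousLinearMap.mul ℝ ℂ).flip _)

/-- Induction over the set of slots in which `f` acts (`Kf_insert`). -/
theorem MJet.K {f : ℝ → Matrix ν ν ℂ} {L M : Matrix ν ν ℂ}
    (h : MJet f 1 L ((1 / 2 : ℂ) • (L * L) + M)) :
    MJet (fun r => K κ (f r)) 1 (dK κ L) ((1 / 2 : ℂ) • (dK κ L * dK κ L) + dK κ M) := by
  have key : ∀ s : Finset κ, MJet (fun r => Kf fun j => if j ∈ s then f r else 1) 1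
      (∑ i ∈ s, M4.FP.phi i L) ((1 / 2 : ℂ) • ((∑ i ∈ s, M4.FP.phi i L) * ∑ i ∈ s, M4.FP.phi i L) +
        ∑ i ∈ s, M4.FP.phi i M) := by
    intro s
    induction s using Finset.induction_on with
    | empty =>
      simp only [Finset.notMem_empty, if_false, Kf_one, Finset.sum_empty, mul_zero, smul_zero,
        add_zero]
      exact MJet.const 1
    | insert i s hi ih =>
      have h1 := (h.phi i).mul ih
      have h2 : Commute (M4.FP.phi i L) (∑ j ∈ s, M4.FP.phi j L) :=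
        Commute.sum_right _ _ _ fun j hj => phi_comm (fun e : i = j => hi (e ▸ hj)) L L
      simp only [Kf_insert s hi, Finset.sum_insert hi]
      rw [phi_one, phi_add, phi_smul, phi_mul, one_mul, one_mul, one_mul, mul_one, mul_one,
        add_comm (∑ j ∈ s, M4.FP.phi j L)] at h1
      rw [add_mul, mul_add, mul_add, ← h2.eq]
      refine cast (congrArg _ ?_) h1
      module
  have h3 := key Finset.univ
  simp only [Finset.mem_univ, if_true] at h3
  exact h3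

/-- First order version at an invertible base point. -/
theorem MJet.K_deriv {f : ℝ → Matrix ν ν ℂ} {A A' B C : Matrix ν ν ℂ} (h : MJet f A B C)
    (hA : A * A' = 1) {t : (κ → ν) → ℂ} (ht : dK κ (A' * B) *ᵥ t = 0) (a : κ → ν) :
    HasDerivAt (fun r => (M4.FP.K κ (f r) *ᵥ t) a) 0 0 := by
  have hA' : A' * A = 1 := mul_eq_one_comm.1 hA
  have h1 := (MJet.const A').mul h
  rw [hA', zero_mul, add_zero, zero_mul, add_zero, add_zero,
    show A' * C = (1 / 2 : ℂ) • (A' * B * (A' * B)) + (A' * C - (1 / 2 : ℂ) • (A' * B * (A' * B)))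
      from (add_sub_cancel _ _).symm] at h1
  have h2 := ((MJet.const (M4.FP.K κ A)).mul (h1.K (κ := κ))).mulVec t a
  simp only [← K_mul, ← mul_assoc, hA, one_mul, zero_mul, add_zero] at h2
  rw [← mulVec_mulVec, ht, mulVec_zero] at h2
  exact h2

end M4.FP
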