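import Pool.Agent.Lib.MP_33b3f9_ag.M4.FP.Fix
import Pool.Agent.Lib.MP_33b3f9_ag.M4.FP.Alg
import Pool.Agent.Lib.MP_33b3f9_ag.M4.FP.Col
import Pool.Agent.Lib.MP_33b3f9_ag.M4.FP.Comp

/-!
The monodromy group of a branch through a generic point is large.
-/

set_option autoImplicit false

namespace M4.FP

open Matrix Filter Topology Metric

variable {ι : Type} [Fintype ι] [DecidableEq ι] {W : Type} [NormedAddCommGroup W]
  [NormedSpace ℂ W] {Γ : Subgroup (symplecticGroup ι ℤ)} {Ω : Set W}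
  {Y : Set (W × Matrix ι ι ℂ)} {n : ℕ}

theorem main_eps {a h : W} {r : ℝ} (hr : 0 < r) (hf : {s : ℂ | a + s • h ∉ Ω}.Finite) :
    ∃ ε : ℝ, 0 < ε ∧ (∀ s ∈ ball (0 : ℂ) (2 * ε), a + s • h ∈ ball a r) ∧
      ball (ε : ℂ) ε ⊆ ball 0 (2 * ε) ∧ ∀ s ∈ ball (ε : ℂ) ε, a + s • h ∈ Ω := by
  have h1 : ∀ᶠ s in 𝓝 (0 : ℂ), a + s • h ∈ ball a r :=
    (by fun_prop : Continuous fun s : ℂ => a + s • h).continuousAt.eventually_mem
      (by simpa using ball_mem_nhds a hr)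
  have h2 : ∀ᶠ s in 𝓝 (0 : ℂ), s ∉ {s : ℂ | a + s • h ∉ Ω} \ {0} :=
    (hf.subset Set.sdiff_subset).isClosed.isOpen_compl.mem_nhds fun e => e.2 rfl
  obtain ⟨δ, hδ, h3⟩ := Metric.eventually_nhds_iff_ball.1 (h1.and h2)
  have e : 2 * (δ / 2) = δ := by ring
  have h4 : ball ((δ / 2 : ℝ) : ℂ) (δ / 2) ⊆ ball 0 δ := ball_subset_ball' (by
    rw [dist_zero_right, Complex.norm_real, Real.norm_of_nonneg (by positivity)]
    linarith)
  refine ⟨δ / 2, by positivity, fun s hs => (h3 s (e ▸ hs)).1, by rwa [e], fun s hs => ?_⟩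
  by_contra h5
  refine (h3 s (h4 hs)).2 ⟨h5, fun h6 => ?_⟩
  rw [h6, mem_ball, dist_comm, dist_zero_right, Complex.norm_real,
    Real.norm_of_nonneg (by positivity)] at hs
  exact lt_irrefl _ hs

theorem main (hS : Sheets Γ Ω Y n) {σ : W → Matrix ι ι ℂ} {a : W} {r : ℝ} (hr : 0 < r)
    (hσ : HolOn σ (ball a r)) (hH : ∀ w ∈ ball a r, InH (σ w))
    (hY : ∀ w ∈ ball a r, w ∈ Ω → (w, σ w) ∈ Y) {h : W} (hf : {s : ℂ | a + s • h ∉ Ω}.Finite)
    (hn : ¬ ∀ᶠ s in 𝓝 (0 : ℂ), σ (a + s • h) = σ a) (hg : Generic (cst (σ a))) :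
    ∃ G ≤ Γ, SpanOK G ∧ ∀ g ∈ G, ∀ F : Matrix ι ι ℂ → ℂ, HolF W F →
      (∀ᶠ w in 𝓝 a, F (σ w) = 0) → ∀ᶠ w in 𝓝 a, F (az g (σ w)) = 0 := by
  obtain ⟨ε, hε, h1, h2, h3⟩ := main_eps hr hf
  have hl : Differentiable ℂ fun s : ℂ => a + s • h := by fun_prop
  have hσc : ContinuousOn (fun s : ℂ => σ (a + s • h)) (ball 0 (2 * ε)) :=
    hσ.continuousOn.comp hl.continuous.continuousOn h1
  obtain ⟨G, hG, hC⟩ := (hS.line a h).comp ((ε : ℂ), σ (a + (ε : ℂ) • h))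
  set C := connectedComponentIn ({y : ℂ × Matrix ι ι ℂ | (a + y.1 • h, y.2) ∈ Y} ∩
    Prod.fst ⁻¹' {s : ℂ | a + s • h ∈ Ω}) ((ε : ℂ), σ (a + (ε : ℂ) • h))
  have hc : IsPreconnected C := isPreconnected_connectedComponentIn
  have hsub : ∀ y ∈ C, (a + y.1 • h, y.2) ∈ Y ∧ a + y.1 • h ∈ Ω := fun y hy => by
    have h4 := connectedComponentIn_subset _ _ hy
    exact h4
  have hD : ∀ s ∈ ball (ε : ℂ) ε, (s, σ (a + s • h)) ∈ C := fun s hs => by
    refine ((convex_ball (ε : ℂ) ε).isPreconnected.image (fun s : ℂ => (s, σ (a + s • h)))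
      (continuousOn_id.prodMk (hσc.mono h2))).subset_connectedComponentIn
      ⟨_, mem_ball_self hε, rfl⟩ ?_ ⟨s, hs, rfl⟩
    rintro _ ⟨z, hz, rfl⟩
    exact ⟨hY _ (h1 z (h2 hz)) (h3 z hz), h3 z hz⟩
  have h0 : (0 : ℂ) ∈ ball 0 (2 * ε) := mem_ball_self (by positivity)
  have e : {s : ℂ | a + s • h ∈ Ω} = (↑hf.toFinset)ᶜ := by
    ext s
    simp
  rw [e] at hC
  have hB : ∀ y ∈ C, y.1 ∉ hf.toFinset := fun y hy => by simpa using (hsub y hy).2
  have hcl : σ a ∈ closure (Prod.snd '' C) := by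
    have h4 : (0 : ℂ) ∈ closure (ball (ε : ℂ) ε) := by
      rw [closure_ball _ hε.ne', mem_closedBall, dist_comm, dist_zero_right, Complex.norm_real,
        Real.norm_of_nonneg hε.le]
    have h5 := mem_closure_image (hσc.continuousAt (isOpen_ball.mem_nhds h0)) h4
    rw [zero_smul, add_zero] at h5
    refine closure_mono ?_ h5
    rintro _ ⟨z, hz, rfl⟩
    exact ⟨_, hD z hz, rfl⟩
  have hne : ∃ y ∈ C, ∃ y' ∈ C, y.2 ≠ y'.2 := by
    by_contra h4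
    push Not at h4
    have h5 : ∀ z ∈ ball (0 : ℂ) (2 * ε), σ (a + z • h) = σ (a + (ε : ℂ) • h) := fun z hz => by
      ext i j
      refine sub_eq_zero.1 (zero_on_ball
        (f := fun s : ℂ => σ (a + s • h) i j - σ (a + (ε : ℂ) • h) i j)
        (((hσ i j).comp hl.differentiableOn h1).sub_const _) (h2 (mem_ball_self hε)) ?_ z hz)
      filter_upwards [ball_mem_nhds (ε : ℂ) hε] with s hs
      exact sub_eq_zero.2 (congrFun (congrFun (h4 _ (hD s hs) _ (hD _ (mem_ball_self hε))) i) j)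
    refine hn ?_
    filter_upwards [isOpen_ball.mem_nhds h0] with s hs
    have h6 := h5 0 h0
    rw [zero_smul, add_zero] at h6
    rw [h5 s hs, h6]
  refine ⟨G, hG, spanOK_of_tv (tv_mem_Aspan hg fun m χ hχ =>
    ⟨fun t ht p q hpq => hC.fix_mem hB hc hχ (hH a (mem_ball_self hr)) hcl ht hpq,
      hC.fix_lie hB hc hχ hne⟩), fun g hgG F hF h4 => ?_⟩
  have hw := h1 _ (h2 (mem_ball_self hε))
  have hw' := h3 _ (mem_ball_self hε)
  have hb := isOpen_ball.mem_nhds hw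
  have hσw := hσ.continuousOn.continuousAt hb
  have hYw : ∀ᶠ z in 𝓝 (a + (ε : ℂ) • h), (z, σ z) ∈ Y := by
    filter_upwards [hb, hS.isOpen.mem_nhds hw'] with z h5 h6 using hY z h5 h6
  have h5 := zero_on_ball (hF σ _ isOpen_ball hσ hH) (mem_ball_self hr) h4
  have h6 := (hS.van_iff hw' hσw hYw F).2 (Filter.mem_of_superset hb h5)
  have h7 := hS.van_const hF (hc.image (fun y : ℂ × Matrix ι ι ℂ => (a + y.1 • h, y.2))
    ((hl.continuous.comp continuous_fst).prodMk continuous_snd).continuousOn)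
    (by rintro _ ⟨y, hy, rfl⟩; exact hsub y hy) ⟨_, hD _ (mem_ball_self hε), rfl⟩
    ⟨_, hC.stab g hgG _ (hD _ (mem_ball_self hε)), rfl⟩ h6
  have h8 := (hS.van_iff hw' hσw hYw _).1 (hS.van_az (hG hgG) (hY _ hw hw') h7)
  exact Filter.mem_of_superset (ball_mem_nhds a hr)
    (zero_on_ball (hF.az g σ _ isOpen_ball hσ hH) hw h8)

end M4.FP
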