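import Pool.Agent.Lib.MP_33b3f9_ag.M4.FP.Pm

/-!
Sheets are open.
-/

set_option autoImplicit false

namespace M4.FP

open Matrix Filter Topology Metric

variable {ι : Type} [Fintype ι] [DecidableEq ι] {W : Type} [NormedAddCommGroup W]
  [NormedSpace ℂ W] {Γ : Subgroup (symplecticGroup ι ℤ)} {Ω : Set W}
  {Y : Set (W × Matrix ι ι ℂ)} {n : ℕ}

theorem Chart.mono {s s' : Set W} {I : Finset (Fin n)} {σ : Fin n → W → Matrix ι ι ℂ}
    (h : Chart Γ Y s I σ) (hs : s' ⊆ s) : Chart Γ Y s' I σ :=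
  ⟨fun i hi a b => (h.hol i hi a b).mono hs, fun i hi w hw => h.mem i hi w (hs hw),
    fun w hw => h.cover w (hs hw), fun w hw => h.sep w (hs hw)⟩

theorem Sheets.isOpen (hS : Sheets Γ Ω Y n) : IsOpen Ω := by
  refine Metric.isOpen_iff.mpr fun w hw => ?_
  obtain ⟨r, hr, h, -⟩ := hS.loc w hw
  exact ⟨r, hr, h⟩

theorem open_uniq (hS : Sheets Γ Ω Y n) {s : Set W}
    {I : Finset (Fin n)} {σ : Fin n → W → Matrix ι ι ℂ} (hC : Chart Γ Y s I σ) {w : W}
    (hw : w ∈ s) {i j : Fin n} (hi : i ∈ I) (hj : j ∈ I) {g g' : symplecticGroup ι ℤ}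
    (hg : g ∈ Γ) (hg' : g' ∈ Γ) (h : az g' (σ j w) = az g (σ i w)) : g' = g ∧ j = i := by
  have hi' : InH (σ i w) := hS.inH _ (hC.mem i hi w hw)
  have hj' : InH (σ j w) := hS.inH _ (hC.mem j hj w hw)
  have hm : g⁻¹ * g' ∈ Γ := Γ.mul_mem (Γ.inv_mem hg) hg'
  have h1 : az (g⁻¹ * g') (σ j w) = σ i w := by
    rw [az_mul _ _ hj', h, ← az_mul _ _ hi', inv_mul_cancel, az_one]
  have h2 : j = i := hC.sep w hw j hj i hi _ hm h1
  subst h2
  exact ⟨(inv_mul_eq_one.mp (hS.free _ hm _ hj' h1)).symm, rfl⟩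

/-- Near a point of a sheet every point of `Y` lies on that sheet (`pd`, freeness, `sep`). -/
theorem Sheets.sheet_open (hS : Sheets Γ Ω Y n) {s : Set W} (hs : IsOpen s)
    {I : Finset (Fin n)} {σ : Fin n → W → Matrix ι ι ℂ} (hC : Chart Γ Y s I σ) {w : W}
    (hw : w ∈ s) {i : Fin n} (hi : i ∈ I) {g : symplecticGroup ι ℤ} (hg : g ∈ Γ) :
    ∀ᶠ y in 𝓝[Y] (w, az g (σ i w)), y.2 = az g (σ i y.1) := by
  have hi' : InH (σ i w) := hS.inH _ (hC.mem i hi w hw)
  have key : ∀ j ∈ I, ∀ᶠ y : W × Matrix ι ι ℂ in 𝓝 (w, az g (σ i w)), y.1 ∈ s →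
      ∀ g' ∈ Γ, az g' (σ j y.1) = y.2 → g' = g ∧ j = i := by
    intro j hj
    have hj' : InH (σ j w) := hS.inH _ (hC.mem j hj w hw)
    obtain ⟨S, hfin, hev⟩ := pd hj' (inH_az g hi')
    have hc : ContinuousAt (fun y : W × Matrix ι ι ℂ => σ j y.1) (w, az g (σ i w)) :=
      ContinuousAt.comp (f := fun y : W × Matrix ι ι ℂ => y.1)
        (((hC.hol j hj).continuousOn w hw).continuousAt (hs.mem_nhds hw)) continuousAt_fst
    have h1 := (hc.prodMk continuousAt_snd).eventually hev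
    have h2 : ∀ g' ∈ S, ∀ᶠ y : W × Matrix ι ι ℂ in 𝓝 (w, az g (σ i w)),
        g' ∈ Γ → az g' (σ j y.1) = y.2 → g' = g ∧ j = i := by
      intro g' _
      by_cases he : az g' (σ j w) = az g (σ i w)
      · exact Eventually.of_forall fun _ hg' _ => open_uniq hS hC hw hi hj hg hg' he
      · have hc' : ContinuousAt (fun y : W × Matrix ι ι ℂ => az g' (σ j y.1))
            (w, az g (σ i w)) :=
          ContinuousAt.comp (f := fun y : W × Matrix ι ι ℂ => σ j y.1)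
            (continuousAt_act (cm_mem ℝ g') hj') hc
        have h3 := (hc'.prodMk continuousAt_snd).eventually
          (isClosed_diagonal.isOpen_compl.mem_nhds he)
        filter_upwards [h3] with y hy _ hy'
        exact absurd hy' hy
    filter_upwards [h1, (eventually_all_finite hfin).mpr h2] with y hy1 hy2 hys g' hg' he
    exact hy2 g' (hy1 (hS.inH _ (hC.mem j hj _ hys)) g' he) hg' he
  have h4 : ∀ᶠ y : W × Matrix ι ι ℂ in 𝓝 (w, az g (σ i w)), y.1 ∈ s :=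
    continuousAt_fst.eventually (hs.mem_nhds hw)
  filter_upwards [nhdsWithin_le_nhds ((eventually_all_finset I).mpr key), nhdsWithin_le_nhds h4,
    self_mem_nhdsWithin] with y hy1 hy2 hy3
  obtain ⟨j, hj, g', hg', he⟩ := hC.cover y.1 hy2 y.2 hy3
  obtain ⟨rfl, rfl⟩ := hy1 j hj hy2 g' hg' he.symm
  exact he

/-- A continuous lift over a holomorphic map is holomorphic. -/
theorem Sheets.hol_of_cont (hS : Sheets Γ Ω Y n) {V : Type} [NormedAddCommGroup V]
    [NormedSpace ℂ V] {e : V → W} {f : V → Matrix ι ι ℂ} {s : Set V} (_hs : IsOpen s)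
    (he : DifferentiableOn ℂ e s) (hΩ : ∀ z ∈ s, e z ∈ Ω) (hf : ContinuousOn f s)
    (hY : ∀ z ∈ s, (e z, f z) ∈ Y) : HolOn f s := by
  intro a b z hz
  obtain ⟨r, hr, -, I, σ, hC⟩ := hS.loc _ (hΩ z hz)
  obtain ⟨i, hi, g, hg, hfz⟩ := hC.cover _ (mem_ball_self hr) _ (hY z hz)
  have h1 := hS.sheet_open isOpen_ball hC (mem_ball_self hr) hi hg
  rw [← hfz] at h1
  have h2 : Tendsto (fun z => (e z, f z)) (𝓝[s] z) (𝓝[Y] (e z, f z)) :=
    tendsto_nhdsWithin_iff.mpr ⟨(he.continuousOn z hz).prodMk (hf z hz),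
      eventually_nhdsWithin_of_forall hY⟩
  have h3 := h2.eventually h1
  have h4 : DifferentiableAt ℂ (fun w => az g (σ i w) a b) (e z) :=
    (holOn_act (cm_mem ℝ g) (hC.hol i hi) (fun w hw => hS.inH _ (hC.mem i hi w hw)) a b
      _ (mem_ball_self hr)).differentiableAt (ball_mem_nhds _ hr)
  refine (h4.comp_differentiableWithinAt z (he z hz)).congr_of_eventuallyEq ?_ ?_
  · filter_upwards [h3] with x hx
    exact congrFun (congrFun hx a) b
  · exact congrFun (congrFun hfz a) b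

/-- Restriction to a line. -/
theorem Sheets.line (hS : Sheets Γ Ω Y n) (a h : W) :
    Sheets Γ {s : ℂ | a + s • h ∈ Ω} {y : ℂ × Matrix ι ι ℂ | (a + y.1 • h, y.2) ∈ Y} n := by
  refine ⟨hS.free, fun y hy => hS.inH (a + y.1 • h, y.2) hy,
    fun g hg y hy => hS.stab g hg (a + y.1 • h, y.2) hy, fun t ht => ?_⟩
  obtain ⟨r, hr, hb, I, σ, hC⟩ := hS.loc _ ht
  have hd : Differentiable ℂ fun u : ℂ => a + u • h := by fun_prop
  obtain ⟨r', hr', hb'⟩ := Metric.mem_nhds_iff.mp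
    (hd.continuous.continuousAt.preimage_mem_nhds (ball_mem_nhds (a + t • h) hr))
  refine ⟨r', hr', fun u hu => hb (hb' hu), I, fun i u => σ i (a + u • h),
    fun i hi p q => ?_, fun i hi u hu => hC.mem i hi _ (hb' hu),
    fun u hu τ hτ => hC.cover _ (hb' hu) τ hτ, fun u hu => hC.sep _ (hb' hu)⟩
  exact (hC.hol i hi p q).comp hd.differentiableOn hb'

end M4.FP
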