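import Pool.Agent.Lib.MP_33b3f9_ag.M4.FP.Ten

/-!
Minors of a family of vectors.
-/

set_option autoImplicit false

namespace M4.FP

open Matrix

/-- Multilinearity of the determinant in the columns. -/
theorem det_expand {R α : Type} [CommRing R] [Fintype α] {m : ℕ} (L : Fin m → α → R)
    (A : Fin m → (Fin m) → α → R) :
    (Matrix.of fun k l => ∑ j, L l j * A k l j).det =
      ∑ j : Fin m → α, (∏ l, L l (j l)) * (Matrix.of fun k l => A k l (j l)).det := by
  simp only [det_apply', of_apply, Fintype.prod_sum, Finset.mul_sum, Finset.prod_mul_distrib]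
  rw [Finset.sum_comm]
  exact Finset.sum_congr rfl fun j _ => Finset.sum_congr rfl fun σ _ => mul_left_comm _ _ _

/-- Two families with the same minors span the same space. If `B k` is not in the span, take
linear forms dual to the `A l` that kill `B k` and use `det_expand`. -/
theorem mem_span_of_minors {F α : Type} [Field F] [Fintype α] {m : ℕ} {A B : Fin m → α → F}
    (hA : LinearIndependent F A)
    (h : ∀ j : Fin m → α, (Matrix.of fun k l => B k (j l)).det =
      (Matrix.of fun k l => A k (j l)).det) (k : Fin m) : B k ∈ Submodule.span F (Set.range A) := by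
  classical
  by_contra hk
  have h1 : LinearIndependent F fun o : Option (Fin m) => (o.casesOn' (B k) A : α → F) :=
    hA.option hk
  obtain ⟨g, hg⟩ := LinearMap.exists_leftInverse_of_injective
    (Fintype.linearCombination F fun o : Option (Fin m) => (o.casesOn' (B k) A : α → F))
    (LinearMap.ker_eq_bot.2 h1.fintypeLinearCombination_injective)
  have h2 : ∀ o : Option (Fin m), g (o.casesOn' (B k) A) = Pi.single o 1 := fun o => by
    simpa using LinearMap.congr_fun hg (Pi.single o 1)
  have h3 : ∀ (v : α → F) (l : Fin m),
      ∑ j, g (fun i => if j = i then 1 else 0) (some l) * v j = g v (some l) := fun v l => by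
    rw [g.pi_apply_eq_sum_univ v, Finset.sum_apply]
    exact Finset.sum_congr rfl fun j _ => mul_comm _ _
  have h4 := det_expand (fun l j => g (fun i => if j = i then 1 else 0) (some l)) fun k _ => A k
  have h5 := det_expand (fun l j => g (fun i => if j = i then 1 else 0) (some l)) fun k _ => B k
  simp only [h3, h] at h4 h5
  have h6 : (Matrix.of fun k l => g (A k) (some l)) = 1 := by
    ext a b
    have := congrFun (h2 (some a)) (some b)
    simpa [Pi.single_apply, one_apply, eq_comm] using this
  rw [← h4, h6, det_one, det_eq_zero_of_row_eq_zero k] at h5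
  · exact zero_ne_one h5
  · intro b
    simpa using congrFun (h2 none) (some b)

variable {ν R : Type} [Fintype ν] [DecidableEq ν] [CommRing R] {m : ℕ}

/-- The tensor of minors of a family of matrices, for fixed columns. -/
def plu (A : Fin m → Matrix (Fin 2 → ν) (Fin 2 → ν) R) (c : Fin m → Fin 2 → ν) :
    (Fin m × Fin 2 → ν) → R :=
  fun r => (Matrix.of fun k l => A k (fun e => r (l, e)) (c l)).det

/-- Multilinearity of the determinant in the columns. -/
theorem K_plu (g : Matrix ν ν R) (A : Fin m → Matrix (Fin 2 → ν) (Fin 2 → ν) R)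
    (c : Fin m → Fin 2 → ν) :
    K (Fin m × Fin 2) g *ᵥ plu A c = plu (fun k => K (Fin 2) g * A k) c := by
  funext r
  have h := det_expand (fun l j => K (Fin 2) g (fun e => r (l, e)) j) fun k l j => A k j (c l)
  refine Eq.trans ?_ h.symm
  refine Fintype.sum_equiv (Equiv.curry _ _ _) _ _ fun b => ?_
  simp only [K, Kf, of_apply, plu, Fintype.prod_prod_type]
  rfl

theorem plu_lin (M : Matrix (Fin m) (Fin m) R) (A : Fin m → Matrix (Fin 2 → ν) (Fin 2 → ν) R)
    (c : Fin m → Fin 2 → ν) : plu (fun k => ∑ l, M k l • A l) c = M.det • plu A c := by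
  funext r
  rw [Pi.smul_apply, plu, plu, smul_eq_mul, ← det_mul]
  congr 1
  ext k l
  simp [mul_apply, Matrix.sum_apply]

theorem plu_map {S : Type} [CommRing S] (f : R →+* S)
    (A : Fin m → Matrix (Fin 2 → ν) (Fin 2 → ν) R) (c : Fin m → Fin 2 → ν) :
    plu (fun k => (A k).map f) c = fun r => f (plu A c r) := by
  funext r
  rw [plu, plu, f.map_det]
  rfl

end M4.FP
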