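import Pool.Agent.Lib.MP_33b3f9_ag.M4.FP.MJet
import Pool.Agent.Lib.MP_33b3f9_ag.M4.FP.Pm

/-!
The expansion of the positive form at the base point.
-/

set_option autoImplicit false

namespace M4.FP

open Matrix Filter Topology Metric

variable {ι : Type} [Fintype ι] [DecidableEq ι]

/-- The holomorphic part of the derivative of `Pm` at `i`. -/
noncomputable def th (ξ : Matrix ι ι ℂ) : Matrix (ι ⊕ ι) (ι ⊕ ι) ℂ :=
  (1 / 2 : ℂ) • fromBlocks (-Complex.I • ξ) ξ ξ (Complex.I • ξ)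

theorem th_mul_th (ξ η : Matrix ι ι ℂ) : th ξ * th η = 0 := by
  have := Complex.I_mul_I
  simp only [th, fromBlocks_smul, fromBlocks_multiply, ← fromBlocks_zero, fromBlocks_inj,
    smul_mul_assoc, mul_smul_comm]
  refine ⟨?_, ?_, ?_, ?_⟩ <;> match_scalars <;> grind

theorem J_mul_th (ξ : Matrix ι ι ℂ) : J ι ℂ * th ξ = -Complex.I • th ξ := by
  have := Complex.I_mul_I
  simp only [th, J, fromBlocks_smul, fromBlocks_multiply, fromBlocks_inj, Matrix.zero_mul,
    Matrix.neg_mul, Matrix.one_mul]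
  refine ⟨?_, ?_, ?_, ?_⟩ <;> match_scalars <;> grind

theorem th_mul_J (ξ : Matrix ι ι ℂ) : th ξ * J ι ℂ = Complex.I • th ξ := by
  have := Complex.I_mul_I
  simp only [th, J, fromBlocks_smul, fromBlocks_multiply, fromBlocks_inj, Matrix.mul_zero,
    Matrix.mul_neg, Matrix.mul_one]
  refine ⟨?_, ?_, ?_, ?_⟩ <;> match_scalars <;> grind

theorem th_transpose {ξ : Matrix ι ι ℂ} (h : ξ.IsSymm) : (th ξ)ᵀ = th ξ := by
  rw [th, transpose_smul, fromBlocks_transpose, transpose_smul, transpose_smul, h]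

theorem th_map_inv (A : Matrix ι ι ℝ) : A⁻¹.map Complex.ofReal = (A.map Complex.ofReal)⁻¹ := by
  have h1 : (A.map Complex.ofReal).det = A.det := (Complex.ofRealHom.map_det A).symm
  have h2 : (A.map Complex.ofReal).adjugate = A.adjugate.map Complex.ofReal :=
    (Complex.ofRealHom.map_adjugate A).symm
  rw [inv_def, inv_def, h1, h2, Ring.inverse_eq_inv', Ring.inverse_eq_inv']
  ext i j
  simp

theorem th_map_Pm (τ : Matrix ι ι ℂ) {X Y : Matrix ι ι ℂ}
    (hX : X = (τ.map Complex.re).map Complex.ofReal)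
    (hY : Y = (τ.map Complex.im).map Complex.ofReal) : (Pm τ).map Complex.ofReal =
      fromBlocks (Y + X * Y⁻¹ * X) (X * Y⁻¹) (Y⁻¹ * X) Y⁻¹ := by
  have h : ∀ A B : Matrix ι ι ℝ, (A * B).map Complex.ofReal =
      A.map Complex.ofReal * B.map Complex.ofReal := fun A B =>
    Matrix.map_mul (f := Complex.ofRealHom)
  rw [Pm_eq, fromBlocks_map, Matrix.map_add _ Complex.ofReal_add, h, h, h, th_map_inv, hX, hY]

omit [Fintype ι] [DecidableEq ι] in
theorem th_re (c : ℂ) (A : Matrix ι ι ℂ) : (c • A).map (Complex.ofRealCLM.comp Complex.reCLM) =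
    (1 / 2 : ℂ) • (c • A + star c • A.map star) := by
  ext i j
  change (((c * A i j).re : ℝ) : ℂ) = 1 / 2 * (c * A i j + star c * star (A i j))
  rw [Complex.re_eq_add_conj, map_mul, div_eq_inv_mul, one_div]
  rfl

omit [Fintype ι] [DecidableEq ι] in
theorem th_im (c : ℂ) (A : Matrix ι ι ℂ) : (c • A).map (Complex.ofRealCLM.comp Complex.imCLM) =
    (-Complex.I / 2) • (c • A - star c • A.map star) := by
  ext i j
  change (((c * A i j).im : ℝ) : ℂ) = -Complex.I / 2 * (c * A i j - star c * star (A i j))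
  rw [Complex.im_eq_sub_conj, map_mul, div_eq_inv_mul, mul_inv, Complex.inv_I, div_eq_inv_mul]
  rfl

omit [Fintype ι] [DecidableEq ι] in
theorem th_conj {ξ : Matrix ι ι ℂ} (h : ξ.IsSymm) : (th ξ)ᴴ = (1 / 2 : ℂ) •
    fromBlocks (Complex.I • ξ.map star) (ξ.map star) (ξ.map star) (-Complex.I • ξ.map star) := by
  have e : ξᴴ = ξ.map star := by rw [conjTranspose, h]
  rw [th, conjTranspose_smul, fromBlocks_conjTranspose, conjTranspose_smul, conjTranspose_smul, e]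
  simp

/-- The expansion of `Pm` at `i`. With `δ = σ - i`, `x = re δ`, `y = im δ`:
`Pm = 1 + [[y, x], [x, -y]] + [[x x, - x y], [- y x, y y]] + ...`. -/
theorem jet_Pm {σ : ℂ → Matrix ι ι ℂ} {s : ℂ} (hσ : ∀ i j, AnalyticAt ℂ (fun z => σ z i j) s)
    (hH : ∀ᶠ z in 𝓝 s, InH (σ z)) (h0 : σ s = Complex.I • (1 : Matrix ι ι ℂ)) :
    ∃ (ξ : Matrix ι ι ℂ) (M M' : Matrix (ι ⊕ ι) (ι ⊕ ι) ℂ), ξ.IsSymm ∧ ∀ ω : ℂ,
      MJet (fun r : ℝ => (Pm (σ (s + r * ω))).map Complex.ofReal) 1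
        (ω • th ξ + star ω • (th ξ)ᴴ)
        ((1 / 2 : ℂ) • ((ω • th ξ + star ω • (th ξ)ᴴ) * (ω • th ξ + star ω • (th ξ)ᴴ)) +
          (ω ^ 2 • M + star ω ^ 2 • M')) := by
  choose η hη using fun i j => Jet.hol (hσ i j)
  let ξ : Matrix ι ι ℂ := of fun i j => deriv (fun z => σ z i j) s
  have hξ : ξ.IsSymm := IsSymm.ext fun i j =>
    EventuallyEq.deriv_eq (hH.mono fun z hz => hz.1.apply i j)
  let η' : Matrix ι ι ℂ := (of η).map star
  let ξ' : Matrix ι ι ℂ := ξ.map star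
  refine ⟨ξ, th (of η) + (1 / 4 : ℂ) • fromBlocks (ξ * ξ) (Complex.I • (ξ * ξ))
    (Complex.I • (ξ * ξ)) (-(ξ * ξ)), (1 / 2 : ℂ) • fromBlocks (Complex.I • η') η' η'
    (-Complex.I • η') + (1 / 4 : ℂ) • fromBlocks (ξ' * ξ') (-Complex.I • (ξ' * ξ'))
    (-Complex.I • (ξ' * ξ')) (-(ξ' * ξ')), hξ, fun ω => ?_⟩
  have h1 : MJet (fun r : ℝ => σ (s + r * ω)) (Complex.I • 1) (ω • ξ) (ω ^ 2 • of η) :=
    h0 ▸ fun i j => hη i j ω
  have hx := h1.map (Complex.ofRealCLM.comp Complex.reCLM)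
  have hy := h1.map (Complex.ofRealCLM.comp Complex.imCLM)
  have e0 : (1 : Matrix ι ι ℂ).map star = 1 := Matrix.map_one _ (star_zero _) (star_one _)
  have hI := Complex.I_mul_I
  have e1 : (1 / 2 : ℂ) • (Complex.I • (1 : Matrix ι ι ℂ) + star Complex.I • 1) = 0 := by
    rw [Complex.star_def, Complex.conj_I]
    module
  have e2 : (-Complex.I / 2) • (Complex.I • (1 : Matrix ι ι ℂ) - star Complex.I • 1) = 1 := by
    rw [Complex.star_def, Complex.conj_I]
    match_scalars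
    grind
  rw [th_re, th_re ω, th_re (ω ^ 2), e0, e1, star_pow] at hx
  rw [th_im, th_im ω, th_im (ω ^ 2), e0, e2, star_pow] at hy
  have h2 := MJet.fromBlocks (hy.add ((hx.mul hy.inv).mul hx)) (hx.mul hy.inv) (hy.inv.mul hx)
    hy.inv
  have h3 := h2.congr (Eventually.of_forall fun r => (th_map_Pm (σ (s + r * ω)) rfl rfl).symm)
  have key : ∀ {f : ℝ → Matrix (ι ⊕ ι) (ι ⊕ ι) ℂ} {A B C A' B' C'}, MJet f A B C → A' = A →
      B' = B → C' = C → MJet f A' B' C' := fun h a b c => a ▸ b ▸ c ▸ h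
  refine key h3 ?_ ?_ ?_
  · simp only [Matrix.zero_mul, Matrix.mul_zero, add_zero, fromBlocks_one]
  all_goals
    rw [th_conj hξ]
    generalize star ω = ω'
    simp only [th, ξ', η', fromBlocks_smul, fromBlocks_add, fromBlocks_multiply, fromBlocks_inj,
      Matrix.zero_mul, Matrix.mul_zero, Matrix.one_mul, Matrix.mul_one, Matrix.mul_add,
      Matrix.add_mul, Matrix.mul_sub, Matrix.sub_mul, Matrix.mul_neg, Matrix.neg_mul,
      smul_mul_assoc, mul_smul_comm]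
    refine ⟨?_, ?_, ?_, ?_⟩ <;> match_scalars <;> grind

end M4.FP
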